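import Mathlib
import Pool.Agent.Cyclic.Selberg

/-!
# Brun's pure sieve (upper bound) for arbitrary periodic conditions
-/

set_option autoImplicit false

open Finset

namespace Pool.Agent.TSP

/-- the condition `bad l` depends only on the residue modulo `l` -/
def Per (bad : ℕ → ℕ → Prop) : Prop := ∀ l n, bad l (n % l) ↔ bad l n

open Classical in
/-- the number of bad residue classes modulo `l` -/
noncomputable def rho (bad : ℕ → ℕ → Prop) (l : ℕ) : ℕ := ((range l).filter (bad l)).card

lemma per_mod {bad : ℕ → ℕ → Prop} (hper : Per bad) {l P m : ℕ} (h : l ∣ P) :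
    bad l (m % P) ↔ bad l m := by
  rw [← hper l (m % P), Nat.mod_mod_of_dvd m h, hper]

open Classical in
/-- CRT count over one period -/
lemma card_period {bad : ℕ → ℕ → Prop} (hper : Per bad) (s : Finset ℕ) (hs : ∀ l ∈ s, l.Prime) :
    ((range (∏ l ∈ s, l)).filter (fun m => ∀ l ∈ s, bad l m)).card = ∏ l ∈ s, rho bad l := by
  induction s using Finset.induction_on with
  | empty => simp
  | insert l s hl ih =>
    have hlp : l.Prime := hs l (mem_insert_self _ _)
    have hs' : ∀ l ∈ s, l.Prime := fun q hq => hs q (mem_insert_of_mem hq)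
    rw [Finset.prod_insert hl, Finset.prod_insert hl, ← ih hs']
    unfold rho
    set P := ∏ l ∈ s, l with hP
    have hPpos : 0 < P := Finset.prod_pos fun q hq => (hs' q hq).pos
    have hcop : Nat.Coprime l P := by
      rw [hP]
      apply Nat.Coprime.prod_right
      intro q hq
      rw [Nat.coprime_primes hlp (hs' q hq)]
      rintro rfl
      exact hl hq
    rw [← Finset.card_product]
    apply Finset.card_nbij' (fun m => (m % l, m % P))
      (fun ab => (Nat.chineseRemainder hcop ab.1 ab.2 : ℕ))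
    · intro m hm
      rw [mem_coe, mem_filter, mem_range] at hm
      rw [mem_coe, mem_product, mem_filter, mem_filter, mem_range, mem_range]
      refine ⟨⟨Nat.mod_lt _ hlp.pos, ?_⟩, Nat.mod_lt _ hPpos, ?_⟩
      · exact (per_mod hper dvd_rfl).2 (hm.2 l (mem_insert_self _ _))
      · intro q hq
        exact (per_mod hper (show q ∣ P from Finset.dvd_prod_of_mem _ hq)).2
          (hm.2 q (mem_insert_of_mem hq))
    · rintro ⟨a, b⟩ hab
      rw [mem_coe, mem_product, mem_filter, mem_filter, mem_range, mem_range] at hab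
      obtain ⟨⟨ha, ha2⟩, hb, hb2⟩ := hab
      simp only at ha ha2 hb hb2
      rw [mem_coe, mem_filter, mem_range]
      have h1 := (Nat.chineseRemainder hcop a b).2
      have h2 := Nat.chineseRemainder_lt_mul hcop a b hlp.pos.ne' hPpos.ne'
      refine ⟨h2, ?_⟩
      intro q hq
      rcases Finset.mem_insert.1 hq with rfl | hq
      · rw [← per_mod hper (dvd_refl q)]
        have h3 : (Nat.chineseRemainder hcop a b : ℕ) % q = a % q := h1.1
        simp only
        rw [h3, Nat.mod_eq_of_lt ha]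
        exact ha2
      · rw [← per_mod hper (show q ∣ P from Finset.dvd_prod_of_mem _ hq)]
        have h3 : (Nat.chineseRemainder hcop a b : ℕ) % P = b % P := h1.2
        simp only
        rw [h3, Nat.mod_eq_of_lt hb]
        exact hb2 q hq
    · intro m hm
      rw [mem_coe, mem_filter, mem_range] at hm
      simp only
      have h1 := (Nat.chineseRemainder hcop (m % l) (m % P)).2
      have h2 := Nat.chineseRemainder_lt_mul hcop (m % l) (m % P) hlp.pos.ne' hPpos.ne'
      have h3 : (Nat.chineseRemainder hcop (m % l) (m % P) : ℕ) ≡ m [MOD l * P] := by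
        rw [← Nat.modEq_and_modEq_iff_modEq_mul hcop]
        exact ⟨h1.1.trans (Nat.mod_modEq _ _), h1.2.trans (Nat.mod_modEq _ _)⟩
      have h4 : (Nat.chineseRemainder hcop (m % l) (m % P) : ℕ) % (l * P) = m % (l * P) := h3
      rw [Nat.mod_eq_of_lt h2, Nat.mod_eq_of_lt hm.1] at h4
      exact h4
    · rintro ⟨a, b⟩ hab
      rw [mem_coe, mem_product, mem_filter, mem_filter, mem_range, mem_range] at hab
      obtain ⟨⟨ha, ha2⟩, hb, hb2⟩ := hab
      simp only at ha ha2 hb hb2
      have h1 := (Nat.chineseRemainder hcop a b).2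
      have h3 : (Nat.chineseRemainder hcop a b : ℕ) % l = a % l := h1.1
      have h4 : (Nat.chineseRemainder hcop a b : ℕ) % P = b % P := h1.2
      simp only
      rw [h3, h4, Nat.mod_eq_of_lt ha, Nat.mod_eq_of_lt hb]

open Classical in
/-- the number of `n` in an interval which are bad for all primes of `s` -/
lemma count_bad {bad : ℕ → ℕ → Prop} (hper : Per bad) (s : Finset ℕ) (hs : ∀ l ∈ s, l.Prime)
    (X Y : ℕ) :
    |(((Ioc X (X + Y)).filter (fun m => ∀ l ∈ s, bad l m)).card : ℝ)
      - Y * ∏ l ∈ s, ((rho bad l : ℝ) / l)| ≤ ∏ l ∈ s, (rho bad l : ℝ) := by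
  set P := ∏ l ∈ s, l with hP
  have hPpos : 0 < P := Finset.prod_pos fun q hq => (hs q hq).pos
  set G := (range P).filter (fun m => ∀ l ∈ s, bad l m) with hG
  have hGc : G.card = ∏ l ∈ s, rho bad l := card_period hper s hs
  have hdel : ∏ l ∈ s, ((rho bad l : ℝ) / l) = G.card / P := by
    rw [hGc, hP]
    push_cast
    rw [← Finset.prod_div_distrib]
  have hfib : ((Ioc X (X + Y)).filter (fun m => ∀ l ∈ s, bad l m)).card
      = ∑ r ∈ G, ((Ioc X (X + Y)).filter (fun m => m ≡ r [MOD P])).card := by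
    rw [Finset.card_eq_sum_card_fiberwise (f := fun m => m % P) (t := G)]
    · apply Finset.sum_congr rfl
      intro r hr
      rw [hG, mem_filter, mem_range] at hr
      congr 1
      ext m
      simp only [mem_filter]
      constructor
      · rintro ⟨⟨h1, h2⟩, h3⟩
        refine ⟨h1, ?_⟩
        show m % P = r % P
        rw [h3, Nat.mod_eq_of_lt hr.1]
      · rintro ⟨h1, h2⟩
        have h3 : m % P = r := by
          have : m % P = r % P := h2
          rw [this, Nat.mod_eq_of_lt hr.1]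
        refine ⟨⟨h1, ?_⟩, h3⟩
        intro l hl
        rw [← per_mod hper (show l ∣ P from Finset.dvd_prod_of_mem _ hl), h3]
        exact hr.2 l hl
    · intro m hm
      rw [mem_coe, mem_filter] at hm
      rw [mem_coe, hG, mem_filter, mem_range]
      refine ⟨Nat.mod_lt _ hPpos, ?_⟩
      intro l hl
      exact (per_mod hper (show l ∣ P from Finset.dvd_prod_of_mem _ hl)).2 (hm.2 l hl)
  have h1 : (((Ioc X (X + Y)).filter (fun m => ∀ l ∈ s, bad l m)).card : ℝ)
        - Y * ∏ l ∈ s, ((rho bad l : ℝ) / l)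
      = ∑ r ∈ G, ((((Ioc X (X + Y)).filter (fun m => m ≡ r [MOD P])).card : ℝ) - Y / P) := by
    rw [hfib, hdel, Finset.sum_sub_distrib, Finset.sum_const, nsmul_eq_mul]
    push_cast
    ring
  rw [h1]
  refine (Finset.abs_sum_le_sum_abs _ _).trans ?_
  refine (Finset.sum_le_card_nsmul _ _ 1
    (fun r _ => Pool.Agent.Cyclic.count_class X Y P r hPpos)).trans ?_
  rw [nsmul_eq_mul, mul_one, hGc]
  push_cast
  exact le_rfl

/-- Bonferroni -/
lemma bonf (W : Finset ℕ) (r : ℕ) : (if W = ∅ then (1 : ℝ) else 0) ≤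
    ∑ T ∈ W.powerset, if T.card ≤ 2 * r then (-1 : ℝ) ^ T.card else 0 := by
  rw [Finset.sum_powerset_apply_card (fun j => if j ≤ 2 * r then (-1 : ℝ) ^ j else 0)]
  have key : ∑ m ∈ range (W.card + 1), W.card.choose m • (if m ≤ 2 * r then (-1 : ℝ) ^ m else 0)
      = ∑ m ∈ range (2 * r + 1), (-1 : ℝ) ^ m * (W.card.choose m : ℝ) := by
    have h1 : ∑ m ∈ range (W.card + 1), W.card.choose m • (if m ≤ 2 * r then (-1 : ℝ) ^ m else 0)
        = ∑ m ∈ range (W.card + 2 * r + 1),
          W.card.choose m • (if m ≤ 2 * r then (-1 : ℝ) ^ m else 0) := by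
      apply Finset.sum_subset
      · intro m hm; rw [mem_range] at hm ⊢; omega
      · intro m _ hm
        rw [mem_range, not_lt] at hm
        rw [Nat.choose_eq_zero_of_lt (by omega), zero_smul]
    have h2 : ∑ m ∈ range (2 * r + 1), (-1 : ℝ) ^ m * (W.card.choose m : ℝ)
        = ∑ m ∈ range (2 * r + 1),
          W.card.choose m • (if m ≤ 2 * r then (-1 : ℝ) ^ m else 0) := by
      apply Finset.sum_congr rfl
      intro m hm
      rw [mem_range] at hm
      rw [if_pos (by omega), nsmul_eq_mul, mul_comm]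
    rw [h1, h2]
    symm
    apply Finset.sum_subset
    · intro m hm; rw [mem_range] at hm ⊢; omega
    · intro m _ hm
      rw [mem_range, not_lt] at hm
      rw [if_neg (by omega), smul_zero]
  rw [key]
  rcases Nat.eq_zero_or_pos W.card with h0 | hpos
  · rw [h0]
    have hW : W = ∅ := Finset.card_eq_zero.1 h0
    rw [if_pos hW, Finset.sum_range_succ']
    simp
  · obtain ⟨w, hw⟩ := Nat.exists_eq_succ_of_ne_zero hpos.ne'
    have hW : W ≠ ∅ := by
      rintro rfl
      simp at hpos
    rw [if_neg hW, hw]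
    have h := Int.alternating_sum_range_choose_eq_choose (n := w) (m := 2 * r)
    have h' : ∑ m ∈ range (2 * r + 1), (-1 : ℝ) ^ m * (((w + 1).choose m : ℕ) : ℝ)
        = (-1) ^ (2 * r) * (w.choose (2 * r) : ℝ) := by exact_mod_cast h
    show (0 : ℝ) ≤ ∑ m ∈ range (2 * r + 1), (-1 : ℝ) ^ m * (((w + 1).choose m : ℕ) : ℝ)
    rw [h', pow_mul]
    simp

open Classical in
/-- **Brun's pure sieve**, upper bound -/
theorem brun {bad : ℕ → ℕ → Prop} (hper : Per bad) (P : Finset ℕ) (hP : ∀ l ∈ P, l.Prime)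
    (X Y r : ℕ) (w : ℝ) (hw : 1 ≤ w) :
    (((Ioc X (X + Y)).filter (fun n => ∀ l ∈ P, ¬ bad l n)).card : ℝ) ≤
      Y * ∏ l ∈ P, (1 - (rho bad l : ℝ) / l)
      + Y * (Real.exp (-(2 * r : ℕ)) * ∏ l ∈ P, (1 + Real.exp 1 * ((rho bad l : ℝ) / l)))
      + w ^ (2 * r) * ∏ l ∈ P, (1 + (rho bad l : ℝ) / w) := by
  set J := Ioc X (X + Y) with hJ
  set f : ℕ → ℝ := fun j => if j ≤ 2 * r then (-1 : ℝ) ^ j else 0 with hf
  have hw0 : 0 < w := by linarith
  have h1 : ((J.filter (fun n => ∀ l ∈ P, ¬ bad l n)).card : ℝ)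
      = ∑ n ∈ J, if P.filter (fun l => bad l n) = ∅ then (1 : ℝ) else 0 := by
    rw [Finset.card_filter]
    push_cast
    apply Finset.sum_congr rfl
    intro n _
    congr 1
    rw [Finset.filter_eq_empty_iff]
  have h2 : ∑ n ∈ J, (if P.filter (fun l => bad l n) = ∅ then (1 : ℝ) else 0)
      ≤ ∑ n ∈ J, ∑ T ∈ P.powerset, if (∀ l ∈ T, bad l n) then f T.card else 0 := by
    apply Finset.sum_le_sum
    intro n _
    refine (bonf _ r).trans (le_of_eq ?_)
    have e1 : ∑ T ∈ P.powerset, (if (∀ l ∈ T, bad l n) then f T.card else 0)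
        = ∑ T ∈ P.powerset.filter (fun T => ∀ l ∈ T, bad l n), f T.card :=
      (Finset.sum_filter _ _).symm
    rw [e1]
    apply Finset.sum_congr _ (fun _ _ => rfl)
    ext T
    rw [mem_powerset, mem_filter, mem_powerset]
    constructor
    · intro h
      exact ⟨h.trans (Finset.filter_subset _ _), fun l hl => (mem_filter.1 (h hl)).2⟩
    · rintro ⟨h, h'⟩ l hl
      exact mem_filter.2 ⟨h hl, h' l hl⟩
  rw [h1]
  refine h2.trans ?_
  rw [Finset.sum_comm]
  have h3 : ∀ T ∈ P.powerset, ∑ n ∈ J, (if (∀ l ∈ T, bad l n) then f T.card else 0)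
      ≤ Y * ∏ l ∈ T, (-((rho bad l : ℝ) / l))
        + Y * (Real.exp (-(2 * r : ℕ)) * ∏ l ∈ T, (Real.exp 1 * ((rho bad l : ℝ) / l)))
        + w ^ (2 * r) * ∏ l ∈ T, ((rho bad l : ℝ) / w) := by
    intro T hT
    rw [mem_powerset] at hT
    have hTp : ∀ l ∈ T, l.Prime := fun l hl => hP l (hT hl)
    have hc := count_bad hper T hTp X Y
    rw [← hJ] at hc
    rw [← Finset.sum_filter, Finset.sum_const, nsmul_eq_mul]
    set N : ℝ := ((J.filter (fun n => ∀ l ∈ T, bad l n)).card : ℝ) with hN
    set g : ℝ := ∏ l ∈ T, ((rho bad l : ℝ) / l) with hg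
    set R : ℝ := ∏ l ∈ T, (rho bad l : ℝ) with hR
    have hg0 : 0 ≤ g := Finset.prod_nonneg fun l _ => by positivity
    have hR0 : 0 ≤ R := Finset.prod_nonneg fun l _ => by positivity
    have e1 : ∏ l ∈ T, (-((rho bad l : ℝ) / l)) = (-1) ^ T.card * g := by
      rw [hg, Finset.prod_neg]
    have e2 : ∏ l ∈ T, (Real.exp 1 * ((rho bad l : ℝ) / l)) = Real.exp 1 ^ T.card * g := by
      rw [hg, Finset.prod_mul_distrib, Finset.prod_const]
    have e3 : ∏ l ∈ T, ((rho bad l : ℝ) / w) = R / w ^ T.card := by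
      rw [hR, Finset.prod_div_distrib, Finset.prod_const]
    rw [e1, e2, e3]
    by_cases hcard : T.card ≤ 2 * r
    · have hfT : f T.card = (-1) ^ T.card := by rw [hf]; exact if_pos hcard
      rw [hfT]
      have a1 : N * (-1) ^ T.card ≤ Y * ((-1) ^ T.card * g) + R := by
        have b1 : |(N - Y * g) * (-1 : ℝ) ^ T.card| ≤ R := by
          rw [abs_mul, abs_pow, abs_neg, abs_one, one_pow, mul_one]
          exact hc
        have b2 := (abs_le.1 b1).2
        linarith [b2, show (N - Y * g) * (-1 : ℝ) ^ T.card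
          = N * (-1) ^ T.card - Y * ((-1) ^ T.card * g) by ring]
      have a2 : R ≤ w ^ (2 * r) * (R / w ^ T.card) := by
        have b1 : w ^ T.card ≤ w ^ (2 * r) := pow_le_pow_right₀ hw hcard
        have b2 : 0 < w ^ T.card := by positivity
        rw [mul_div_assoc', le_div_iff₀ b2, mul_comm]
        exact mul_le_mul_of_nonneg_right b1 hR0
      have a3 : 0 ≤ (Y : ℝ) * (Real.exp (-(2 * r : ℕ)) * (Real.exp 1 ^ T.card * g)) := by positivity
      linarith
    · have hfT : f T.card = 0 := by rw [hf]; exact if_neg hcard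
      rw [hfT, mul_zero]
      have a1 : 0 ≤ (Y : ℝ) * ((-1) ^ T.card * g)
          + Y * (Real.exp (-(2 * r : ℕ)) * (Real.exp 1 ^ T.card * g)) := by
        have b1 : (-1 : ℝ) ≤ (-1) ^ T.card := by
          rcases neg_one_pow_eq_or ℝ T.card with h | h <;> rw [h] <;> norm_num
        have b2 : 1 ≤ Real.exp (-(2 * r : ℕ)) * Real.exp 1 ^ T.card := by
          rw [← Real.exp_nat_mul, ← Real.exp_add]
          apply Real.one_le_exp
          have : ((2 * r : ℕ) : ℝ) ≤ T.card := by exact_mod_cast (not_le.1 hcard).le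
          linarith
        have b3 : 0 ≤ (-1 : ℝ) ^ T.card + Real.exp (-(2 * r : ℕ)) * Real.exp 1 ^ T.card := by
          linarith
        have b4 : (Y : ℝ) * ((-1) ^ T.card * g)
          + Y * (Real.exp (-(2 * r : ℕ)) * (Real.exp 1 ^ T.card * g))
          = (Y * g) * ((-1 : ℝ) ^ T.card + Real.exp (-(2 * r : ℕ)) * Real.exp 1 ^ T.card) := by
          ring
        rw [b4]
        exact mul_nonneg (by positivity) b3
      have a2 : 0 ≤ w ^ (2 * r) * (R / w ^ T.card) := by positivity
      linarith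
  refine (Finset.sum_le_sum h3).trans (le_of_eq ?_)
  rw [Finset.sum_add_distrib, Finset.sum_add_distrib, ← Finset.mul_sum, ← Finset.mul_sum,
    ← Finset.mul_sum, ← Finset.mul_sum, ← Finset.prod_one_add, ← Finset.prod_one_add,
    ← Finset.prod_one_add]
  simp only [← sub_eq_add_neg]

end Pool.Agent.TSP
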