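import Mathlib
import Pool.Agent.Cyclic.Delta
import Pool.Agent.TSP.Brun

/-!
# Smooth numbers, products over primes
-/

set_option autoImplicit false

open Finset

namespace Pool.Agent.TSP

open Pool.Agent.Cyclic (pr mem_pr sum_upto pr_mono harmonic_eq_sum_Icc_real)

/-- `n ↦ n ^ (-σ)` -/
noncomputable def pw (σ : ℝ) : ℕ →* ℝ where
  toFun n := (n : ℝ) ^ (-σ)
  map_one' := by simp
  map_mul' a b := by
    push_cast
    exact Real.mul_rpow (Nat.cast_nonneg _) (Nat.cast_nonneg _)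

lemma pw_lt {σ : ℝ} (hσ : 0 < σ) {p : ℕ} (hp : p.Prime) : (p : ℝ) ^ (-σ) < 1 :=
  Real.rpow_lt_one_of_one_lt_of_neg (by exact_mod_cast hp.one_lt) (by linarith)

lemma smooth_sum {σ : ℝ} (hσ : 0 < σ) (y : ℕ) (S : Finset ℕ)
    (hS : ∀ n ∈ S, ∀ p, p.Prime → p ∣ n → p ≤ y) :
    ∑ n ∈ S, (n : ℝ) ^ (-σ) ≤ ∏ p ∈ pr y, (1 - (p : ℝ) ^ (-σ))⁻¹ := by
  classical
  have h0 : ∀ {p : ℕ}, p.Prime → ‖pw σ p‖ < 1 := by
    intro p hp
    have h1 : pw σ p = (p : ℝ) ^ (-σ) := rfl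
    rw [h1, Real.norm_eq_abs, abs_of_nonneg (Real.rpow_nonneg (Nat.cast_nonneg _) _)]
    exact pw_lt hσ hp
  obtain ⟨hs, hh⟩ :=
    EulerProduct.summable_and_hasSum_smoothNumbers_prod_primesBelow_geometric h0 (y + 1)
  have hpr : (y + 1).primesBelow = pr y := rfl
  rw [hpr] at hh
  have h2 : ∀ p ∈ pr y, (1 - pw σ p)⁻¹ = (1 - (p : ℝ) ^ (-σ))⁻¹ := fun p _ => rfl
  rw [Finset.prod_congr rfl h2] at hh
  have hmem : ∀ n ∈ S, n ∈ (y + 1).smoothNumbers := by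
    intro n hn
    rw [Nat.mem_smoothNumbers']
    intro p hp hd
    have := hS n hn p hp hd
    omega
  have h3 := sum_le_hasSum (S.attach.map ⟨fun n => (⟨n.1, hmem n.1 n.2⟩ : (y + 1).smoothNumbers),
    fun a b hab => by
      apply Subtype.ext
      exact congrArg (fun t : (y + 1).smoothNumbers => (t : ℕ)) hab⟩)
    (fun i _ => Real.rpow_nonneg (Nat.cast_nonneg _) _) hh
  rw [Finset.sum_map] at h3
  refine le_trans (le_of_eq ?_) h3
  rw [← Finset.sum_attach]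
  rfl

lemma one_sub_inv_pos {p : ℕ} (hp : p.Prime) : (0 : ℝ) < 1 - 1 / (p : ℝ) := by
  have h2 : (2 : ℝ) ≤ p := by exact_mod_cast hp.two_le
  have : 1 / (p : ℝ) ≤ 1 / 2 := one_div_le_one_div_of_le (by norm_num) h2
  linarith

/-- `∏ (1 - 1/p) ≤ 1 / log (z + 1)` -/
lemma mertens (z : ℕ) : (∏ p ∈ pr z, (1 - 1 / (p : ℝ))) * Real.log (z + 1) ≤ 1 := by
  have h1 := smooth_sum one_pos z (Icc 1 z) (fun n hn p _ hd =>
    (Nat.le_of_dvd (by rw [mem_Icc] at hn; omega) hd).trans (mem_Icc.1 hn).2)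
  have h2 : Real.log (z + 1) ≤ ∑ n ∈ Icc 1 z, (n : ℝ) ^ (-1 : ℝ) := by
    have h3 := log_add_one_le_harmonic z
    rw [harmonic_eq_sum_Icc_real, Nat.cast_add, Nat.cast_one] at h3
    refine h3.trans (le_of_eq ?_)
    refine Finset.sum_congr rfl fun n _ => ?_
    rw [Real.rpow_neg_one, one_div]
  have hpos : 0 < ∏ p ∈ pr z, (1 - 1 / (p : ℝ)) :=
    Finset.prod_pos fun p hp => one_sub_inv_pos (mem_pr.1 hp).2
  have h4 : ∏ p ∈ pr z, (1 - (p : ℝ) ^ (-1 : ℝ))⁻¹ = (∏ p ∈ pr z, (1 - 1 / (p : ℝ)))⁻¹ := by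
    rw [Finset.prod_inv_distrib]
    congr 1
    refine Finset.prod_congr rfl fun p _ => ?_
    rw [Real.rpow_neg_one, one_div]
  rw [h4] at h1
  have h5 := h2.trans h1
  calc (∏ p ∈ pr z, (1 - 1 / (p : ℝ))) * Real.log (z + 1)
      ≤ (∏ p ∈ pr z, (1 - 1 / (p : ℝ))) * (∏ p ∈ pr z, (1 - 1 / (p : ℝ)))⁻¹ :=
        mul_le_mul_of_nonneg_left h5 hpos.le
    _ = 1 := mul_inv_cancel₀ hpos.ne'

lemma inv_le_exp {t c : ℝ} (ht0 : 0 ≤ t) (hc : 1 < c) (ht : t ≤ 1 - 1 / c) :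
    (1 - t)⁻¹ ≤ Real.exp (c * t) := by
  have hc0 : 0 < 1 / c := by positivity
  have h1 : 0 < 1 - t := by linarith
  have h2 : c * t + 1 ≤ Real.exp (c * t) := Real.add_one_le_exp _
  refine le_trans ?_ h2
  rw [inv_le_iff_one_le_mul₀ h1]
  have h3 : c * (1 / c) = 1 := by field_simp
  nlinarith [mul_le_mul_of_nonneg_left ht (show 0 ≤ c * t by positivity)]

/-- the number of `y`-smooth numbers up to `x` -/
lemma smooth_count (x y b : ℕ) {δ : ℝ} (hδ0 : 0 ≤ δ) (hδ : δ ≤ 1 / 2)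
    (hy : δ * Real.log y ≤ 1) (hb : 1 ≤ b) (hyb : y ≤ 2 ^ b) (S : Finset ℕ)
    (hS : ∀ n ∈ S, 1 ≤ n ∧ n ≤ x ∧ ∀ p, p.Prime → p ∣ n → p ≤ y) :
    (S.card : ℝ) ≤ (x : ℝ) ^ (1 - δ) * Real.exp (4 * Real.exp 1 * (5 + 4 * Real.log b)) := by
  have h1 := smooth_sum (show (0 : ℝ) < 1 - δ by linarith) y S fun n hn => (hS n hn).2.2
  have h2 : (S.card : ℝ) ≤ (x : ℝ) ^ (1 - δ) * ∑ n ∈ S, (n : ℝ) ^ (-(1 - δ)) := by
    rw [Finset.mul_sum, Finset.card_eq_sum_ones]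
    push_cast
    refine Finset.sum_le_sum fun n hn => ?_
    obtain ⟨hn1, hnx, -⟩ := hS n hn
    have hn0 : (0 : ℝ) < n := by exact_mod_cast hn1
    have hnx' : (n : ℝ) ≤ x := by exact_mod_cast hnx
    rw [Real.rpow_neg hn0.le, ← div_eq_mul_inv, le_div_iff₀ (Real.rpow_pos_of_pos hn0 _), one_mul]
    exact Real.rpow_le_rpow hn0.le hnx' (by linarith)
  refine h2.trans (mul_le_mul_of_nonneg_left (h1.trans ?_) (Real.rpow_nonneg (Nat.cast_nonneg _) _))
  have h3 : ∏ p ∈ pr y, (1 - (p : ℝ) ^ (-(1 - δ)))⁻¹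
      ≤ ∏ p ∈ pr y, Real.exp (4 * Real.exp 1 * (1 / (p : ℝ))) := by
    refine Finset.prod_le_prod (fun p hp => ?_) fun p hp => ?_
    · have := pw_lt (show (0 : ℝ) < 1 - δ by linarith) (mem_pr.1 hp).2
      exact inv_nonneg.2 (by linarith)
    · obtain ⟨hpy, hpp⟩ := mem_pr.1 hp
      have hp0 : (0 : ℝ) < p := by exact_mod_cast hpp.pos
      have hp2 : (2 : ℝ) ≤ p := by exact_mod_cast hpp.two_le
      set t : ℝ := (p : ℝ) ^ (-(1 - δ)) with ht
      have ht0 : 0 ≤ t := Real.rpow_nonneg hp0.le _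
      have ht1 : t ≤ 1 - 1 / 4 := by
        have e1 : t ≤ (2 : ℝ) ^ (-(1 / 2) : ℝ) := by
          rw [ht, Real.rpow_neg hp0.le, Real.rpow_neg (by norm_num : (0 : ℝ) ≤ 2)]
          apply inv_anti₀ (Real.rpow_pos_of_pos (by norm_num) _)
          calc (2 : ℝ) ^ (1 / 2 : ℝ) ≤ (2 : ℝ) ^ (1 - δ) :=
                Real.rpow_le_rpow_of_exponent_le (by norm_num) (by linarith)
            _ ≤ (p : ℝ) ^ (1 - δ) := Real.rpow_le_rpow (by norm_num) hp2 (by linarith)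
        refine e1.trans ?_
        rw [Real.rpow_neg (by norm_num), ← Real.sqrt_eq_rpow]
        have e2 : (4 / 3 : ℝ) ≤ √2 := by
          apply Real.le_sqrt_of_sq_le
          norm_num
        calc (√2)⁻¹ ≤ (4 / 3 : ℝ)⁻¹ := inv_anti₀ (by norm_num) e2
          _ = 1 - 1 / 4 := by norm_num
      refine (inv_le_exp ht0 (by norm_num) ht1).trans ?_
      apply Real.exp_le_exp.2
      have e3 : t ≤ Real.exp 1 * (1 / (p : ℝ)) := by
        have e4 : t = (p : ℝ) ^ δ * (1 / (p : ℝ)) := by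
          rw [ht, show -(1 - δ) = δ - 1 by ring, Real.rpow_sub hp0, Real.rpow_one]
          ring
        rw [e4]
        apply mul_le_mul_of_nonneg_right _ (by positivity)
        rw [Real.rpow_def_of_pos hp0]
        apply Real.exp_le_exp.2
        have e5 : Real.log p ≤ Real.log y := Real.log_le_log hp0 (by exact_mod_cast hpy)
        calc Real.log p * δ ≤ Real.log y * δ := mul_le_mul_of_nonneg_right e5 hδ0
          _ = δ * Real.log y := mul_comm _ _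
          _ ≤ 1 := hy
      linarith
  refine h3.trans ?_
  rw [← Real.exp_sum, ← Finset.mul_sum]
  apply Real.exp_le_exp.2
  have h4 : ∑ p ∈ pr y, 1 / (p : ℝ) ≤ 5 + 4 * Real.log b :=
    (Finset.sum_le_sum_of_subset_of_nonneg (pr_mono hyb) (fun _ _ _ => by positivity)).trans
      (sum_upto b hb)
  exact mul_le_mul_of_nonneg_left h4 (by positivity)

lemma two_pow_card_le {N : ℕ} (hN : N ≠ 0) : 2 ^ N.primeFactors.card ≤ N := by
  calc 2 ^ N.primeFactors.card ≤ ∏ p ∈ N.primeFactors, p := by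
        rw [← Finset.prod_const]
        exact Finset.prod_le_prod' fun p hp => (Nat.prime_of_mem_primeFactors hp).two_le
    _ ≤ N := Nat.le_of_dvd (Nat.pos_of_ne_zero hN) (Nat.prod_primeFactors_dvd N)

/-- the product over the prime divisors -/
lemma prodH (N z c : ℕ) (hN : N ≠ 0) (hc : 1 ≤ c) (hcard : N.primeFactors.card ≤ 4 * 2 ^ c) :
    (∏ p ∈ (pr z).filter (fun p => p ∣ N), (1 - 1 / (p : ℝ)))⁻¹
      ≤ Real.exp (2 * (9 + 4 * Real.log c)) := by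
  rw [← Finset.prod_inv_distrib]
  have h1 : ∏ p ∈ (pr z).filter (fun p => p ∣ N), (1 - 1 / (p : ℝ))⁻¹
      ≤ ∏ p ∈ (pr z).filter (fun p => p ∣ N), Real.exp (2 * (1 / (p : ℝ))) := by
    refine Finset.prod_le_prod (fun p hp => ?_) fun p hp => ?_
    · exact inv_nonneg.2 (one_sub_inv_pos (mem_pr.1 (mem_filter.1 hp).1).2).le
    · have hp2 : (2 : ℝ) ≤ p := by exact_mod_cast (mem_pr.1 (mem_filter.1 hp).1).2.two_le
      apply inv_le_exp (by positivity) (by norm_num)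
      have : 1 / (p : ℝ) ≤ 1 / 2 := one_div_le_one_div_of_le (by norm_num) hp2
      linarith
  refine h1.trans ?_
  rw [← Real.exp_sum, ← Finset.mul_sum]
  apply Real.exp_le_exp.2
  apply mul_le_mul_of_nonneg_left _ (by norm_num)
  have h2 : ∑ p ∈ (pr z).filter (fun p => p ∣ N), 1 / (p : ℝ)
      ≤ ∑ p ∈ pr (2 ^ c), 1 / (p : ℝ) + ∑ p ∈ N.primeFactors, 1 / (2 : ℝ) ^ c := by
    have hsub : (pr z).filter (fun p => p ∣ N) ⊆
        pr (2 ^ c) ∪ (N.primeFactors.filter (fun p => 2 ^ c < p)) := by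
      intro p hp
      rw [mem_filter, mem_pr] at hp
      rw [mem_union, mem_pr, mem_filter, Nat.mem_primeFactors]
      by_cases h : p ≤ 2 ^ c
      · exact Or.inl ⟨h, hp.1.2⟩
      · exact Or.inr ⟨⟨hp.1.2, hp.2, hN⟩, not_le.1 h⟩
    have e1 := Finset.sum_le_sum_of_subset_of_nonneg hsub
      (f := fun p : ℕ => 1 / (p : ℝ)) (fun _ _ _ => by positivity)
    refine e1.trans ?_
    have e2 : ∑ p ∈ pr (2 ^ c) ∪ (N.primeFactors.filter (fun p => 2 ^ c < p)), 1 / (p : ℝ)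
        ≤ ∑ p ∈ pr (2 ^ c), 1 / (p : ℝ) +
          ∑ p ∈ N.primeFactors.filter (fun p => 2 ^ c < p), 1 / (p : ℝ) := by
      rw [← Finset.sum_union_inter]
      have : 0 ≤ ∑ p ∈ pr (2 ^ c) ∩ (N.primeFactors.filter (fun p => 2 ^ c < p)), 1 / (p : ℝ) :=
        Finset.sum_nonneg fun _ _ => by positivity
      linarith
    refine e2.trans (add_le_add le_rfl ?_)
    have e3 : ∑ p ∈ N.primeFactors.filter (fun p => 2 ^ c < p), 1 / (p : ℝ)
        ≤ ∑ p ∈ N.primeFactors.filter (fun p => 2 ^ c < p), 1 / (2 : ℝ) ^ c := by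
      refine Finset.sum_le_sum fun p hp => ?_
      have : (2 : ℝ) ^ c ≤ p := by exact_mod_cast (mem_filter.1 hp).2.le
      exact one_div_le_one_div_of_le (by positivity) this
    refine e3.trans (Finset.sum_le_sum_of_subset_of_nonneg (Finset.filter_subset _ _)
      (fun _ _ _ => by positivity))
  refine h2.trans ?_
  have h3 := sum_upto c hc
  have h4 : ∑ p ∈ N.primeFactors, 1 / (2 : ℝ) ^ c ≤ 4 := by
    rw [Finset.sum_const, nsmul_eq_mul, mul_one_div, div_le_iff₀ (by positivity)]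
    exact_mod_cast hcard
  linarith

end Pool.Agent.TSP
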