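import Mathlib
import Pool.Agent.TSP.Tools

/-!
# The sieve for the two linear forms `t + 1` and `b t + a`
-/

set_option autoImplicit false

open Finset

namespace Pool.Agent.TSP

open Pool.Agent.Cyclic (pr mem_pr sum_upto pr_mono)

/-- `l` divides one of the two forms -/
def B2 (b a : ℕ) (l t : ℕ) : Prop := l ∣ t + 1 ∨ l ∣ b * t + a

lemma dvd_lin (l b a t : ℕ) : l ∣ b * (t % l) + a ↔ l ∣ b * t + a := by
  rw [Nat.dvd_iff_mod_eq_zero, Nat.dvd_iff_mod_eq_zero, Nat.add_mod, Nat.mul_mod, Nat.mod_mod,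
    ← Nat.mul_mod, ← Nat.add_mod]

lemma per_B2 (b a : ℕ) : Per (B2 b a) := by
  intro l t
  unfold B2
  have h1 := dvd_lin l 1 1 t
  rw [one_mul, one_mul] at h1
  rw [h1, dvd_lin]

lemma rho_B2 {b a l : ℕ} (hl : l.Prime) (hb : ¬ l ∣ b) (hab : ¬ (l : ℤ) ∣ (a : ℤ) - b) :
    rho (B2 b a) l = 2 := by
  classical
  have : Fact l.Prime := ⟨hl⟩
  have hb' : (b : ZMod l) ≠ 0 := by rwa [Ne, ZMod.natCast_eq_zero_iff]
  have hne : (-1 : ZMod l) ≠ -(a : ZMod l) / b := by
    intro h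
    apply hab
    rw [← ZMod.intCast_zmod_eq_zero_iff_dvd]
    push_cast
    rw [eq_div_iff hb'] at h
    linear_combination h
  unfold rho
  have hc : ((range l).filter (B2 b a l)).card = ({-1, -(a : ZMod l) / b} : Finset (ZMod l)).card := by
    refine Finset.card_bij (fun t _ => (t : ZMod l)) ?_ ?_ ?_
    · intro t ht
      rw [mem_filter, mem_range] at ht
      rw [mem_insert, mem_singleton]
      rcases ht.2 with h | h
      · left
        rw [← ZMod.natCast_eq_zero_iff] at h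
        push_cast at h
        linear_combination h
      · right
        rw [← ZMod.natCast_eq_zero_iff] at h
        push_cast at h
        rw [eq_div_iff hb']
        linear_combination h
    · intro s hs t ht hst
      rw [mem_filter, mem_range] at hs ht
      have h := (ZMod.natCast_eq_natCast_iff' s t l).1 hst
      rwa [Nat.mod_eq_of_lt hs.1, Nat.mod_eq_of_lt ht.1] at h
    · intro u hu
      refine ⟨u.val, ?_, ZMod.natCast_zmod_val u⟩
      rw [mem_filter, mem_range]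
      refine ⟨ZMod.val_lt u, ?_⟩
      rw [mem_insert, mem_singleton] at hu
      rcases hu with h | h
      · left
        rw [← ZMod.natCast_eq_zero_iff]
        push_cast
        rw [ZMod.natCast_zmod_val, h]
        ring
      · right
        rw [← ZMod.natCast_eq_zero_iff]
        push_cast
        rw [ZMod.natCast_zmod_val, h]
        field_simp
        ring
  have hc2 : ({-1, -(a : ZMod l) / b} : Finset (ZMod l)).card = 2 := Finset.card_pair hne
  rw [← hc2, ← hc]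

open Classical in
/-- the sieve bound -/
theorem sieve2 (b a : ℕ) (hb : b ≠ 0) (hab : a ≠ b) (z r Y c bz : ℕ) (hz : 2 ≤ z) (hc : 1 ≤ c)
    (hbz : 1 ≤ bz) (hz2 : z ≤ 2 ^ bz)
    (hcard : (b * ((a : ℤ) - b).natAbs).primeFactors.card ≤ 4 * 2 ^ c) :
    (((Ioc 0 Y).filter (fun t => ∀ l ∈ pr z, ¬ l ∣ t + 1 ∧ ¬ l ∣ b * t + a)).card : ℝ) ≤
      Y * (Real.exp (2 * (9 + 4 * Real.log c)) / Real.log (z + 1)) ^ 2
      + Y * (Real.exp (-(2 * r : ℕ)) * Real.exp (2 * Real.exp 1 * (5 + 4 * Real.log bz)))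
      + (z : ℝ) ^ (2 * r) * Real.exp 4 := by
  set N : ℕ := b * ((a : ℤ) - b).natAbs with hN
  have hN0 : N ≠ 0 := by
    rw [hN]
    refine mul_ne_zero hb ?_
    rw [Int.natAbs_ne_zero, sub_ne_zero]
    exact_mod_cast hab
  set P := (pr z).filter (fun l => ¬ l ∣ N) with hP
  have hPp : ∀ l ∈ P, l.Prime := fun l hl => (mem_pr.1 (mem_filter.1 hl).1).2
  have hrho : ∀ l ∈ P, rho (B2 b a) l = 2 := by
    intro l hl
    have h1 := (mem_filter.1 hl).2
    apply rho_B2 (hPp l hl)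
    · intro h
      exact h1 (h.mul_right _)
    · intro h
      exact h1 ((Int.natCast_dvd.1 h).mul_left _)
  have hz1 : (1 : ℝ) ≤ z := by exact_mod_cast (by omega : 1 ≤ z)
  have hz0 : (0 : ℝ) < z := by linarith
  have hbr := brun (per_B2 b a) P hPp 0 Y r z hz1
  rw [zero_add] at hbr
  have hsub : (((Ioc 0 Y).filter (fun t => ∀ l ∈ pr z, ¬ l ∣ t + 1 ∧ ¬ l ∣ b * t + a)).card : ℝ)
      ≤ (((Ioc 0 Y).filter (fun t => ∀ l ∈ P, ¬ B2 b a l t)).card : ℝ) := by
    have : (Ioc 0 Y).filter (fun t => ∀ l ∈ pr z, ¬ l ∣ t + 1 ∧ ¬ l ∣ b * t + a) ⊆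
        (Ioc 0 Y).filter (fun t => ∀ l ∈ P, ¬ B2 b a l t) := by
      intro t ht
      rw [mem_filter] at ht ⊢
      refine ⟨ht.1, fun l hl hB => ?_⟩
      have h1 := ht.2 l (mem_filter.1 hl).1
      rcases hB with h | h
      · exact h1.1 h
      · exact h1.2 h
    exact_mod_cast Finset.card_le_card this
  refine hsub.trans (hbr.trans ?_)
  have hlog : 0 < Real.log (z + 1) := Real.log_pos (by linarith)
  -- main term
  have m1 : ∏ l ∈ P, (1 - (rho (B2 b a) l : ℝ) / l) ≤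
      (Real.exp (2 * (9 + 4 * Real.log c)) / Real.log (z + 1)) ^ 2 := by
    have e1 : ∏ l ∈ P, (1 - (rho (B2 b a) l : ℝ) / l) ≤ ∏ l ∈ P, (1 - 1 / (l : ℝ)) ^ 2 := by
      refine Finset.prod_le_prod (fun l hl => ?_) fun l hl => ?_
      · have h2 : (2 : ℝ) ≤ l := by exact_mod_cast (hPp l hl).two_le
        rw [hrho l hl, sub_nonneg, div_le_one (by linarith)]
        push_cast
        exact h2
      · rw [hrho l hl]
        have h2 : (0 : ℝ) ≤ (1 / (l : ℝ)) ^ 2 := by positivity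
        have : (1 - 1 / (l : ℝ)) ^ 2 = 1 - ((2 : ℕ) : ℝ) / l + (1 / (l : ℝ)) ^ 2 := by
          push_cast
          ring
        linarith
    rw [Finset.prod_pow] at e1
    refine e1.trans ?_
    have e2 : (∏ l ∈ P, (1 - 1 / (l : ℝ))) * (∏ l ∈ (pr z).filter (fun p => p ∣ N), (1 - 1 / (l : ℝ)))
        = ∏ l ∈ pr z, (1 - 1 / (l : ℝ)) := by
      rw [mul_comm, hP, Finset.prod_filter_mul_prod_filter_not]
    have e3 : 0 < ∏ l ∈ (pr z).filter (fun p => p ∣ N), (1 - 1 / (l : ℝ)) :=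
      Finset.prod_pos fun l hl => one_sub_inv_pos (mem_pr.1 (mem_filter.1 hl).1).2
    have e4 : 0 ≤ ∏ l ∈ P, (1 - 1 / (l : ℝ)) :=
      Finset.prod_nonneg fun l hl => (one_sub_inv_pos (hPp l hl)).le
    apply pow_le_pow_left₀ e4
    have e5 := mertens z
    have e6 := prodH N z c hN0 hc hcard
    rw [le_div_iff₀ hlog]
    have e7 : ∏ l ∈ P, (1 - 1 / (l : ℝ)) = (∏ l ∈ pr z, (1 - 1 / (l : ℝ))) *
        (∏ l ∈ (pr z).filter (fun p => p ∣ N), (1 - 1 / (l : ℝ)))⁻¹ := by
      rw [← e2, mul_assoc, mul_inv_cancel₀ e3.ne', mul_one]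
    calc (∏ l ∈ P, (1 - 1 / (l : ℝ))) * Real.log (z + 1)
        = ((∏ l ∈ pr z, (1 - 1 / (l : ℝ))) * Real.log (z + 1)) *
          (∏ l ∈ (pr z).filter (fun p => p ∣ N), (1 - 1 / (l : ℝ)))⁻¹ := by rw [e7]; ring
      _ ≤ 1 * (∏ l ∈ (pr z).filter (fun p => p ∣ N), (1 - 1 / (l : ℝ)))⁻¹ :=
          mul_le_mul_of_nonneg_right e5 (inv_nonneg.2 e3.le)
      _ ≤ Real.exp (2 * (9 + 4 * Real.log c)) := by rw [one_mul]; exact e6
  have hsum : ∑ l ∈ P, 1 / (l : ℝ) ≤ 5 + 4 * Real.log bz :=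
    (Finset.sum_le_sum_of_subset_of_nonneg ((Finset.filter_subset _ _).trans (pr_mono hz2))
      (fun _ _ _ => by positivity)).trans (sum_upto bz hbz)
  have m2 : ∏ l ∈ P, (1 + Real.exp 1 * ((rho (B2 b a) l : ℝ) / l)) ≤
      Real.exp (2 * Real.exp 1 * (5 + 4 * Real.log bz)) := by
    have e1 : ∏ l ∈ P, (1 + Real.exp 1 * ((rho (B2 b a) l : ℝ) / l)) =
        ∏ l ∈ P, (1 + 2 * Real.exp 1 * (1 / (l : ℝ))) := by
      refine Finset.prod_congr rfl fun l hl => ?_
      rw [hrho l hl]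
      push_cast
      ring
    rw [e1]
    refine (Real.prod_one_add_le_exp_sum P (fun l => by positivity)).trans ?_
    apply Real.exp_le_exp.2
    rw [← Finset.mul_sum]
    exact mul_le_mul_of_nonneg_left hsum (by positivity)
  have m3 : ∏ l ∈ P, (1 + (rho (B2 b a) l : ℝ) / z) ≤ Real.exp 4 := by
    have e1 : ∏ l ∈ P, (1 + (rho (B2 b a) l : ℝ) / z) = ∏ l ∈ P, (1 + 2 / (z : ℝ)) := by
      refine Finset.prod_congr rfl fun l hl => ?_
      rw [hrho l hl]
      push_cast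
      ring
    rw [e1]
    refine (Real.prod_one_add_le_exp_sum P (fun l => by positivity)).trans ?_
    apply Real.exp_le_exp.2
    rw [Finset.sum_const, nsmul_eq_mul]
    have e2 : P.card ≤ z + 1 := by
      refine (Finset.card_filter_le _ _).trans ((Finset.card_filter_le _ _).trans ?_)
      rw [card_range]
    have e3 : (P.card : ℝ) ≤ z + 1 := by exact_mod_cast e2
    calc (P.card : ℝ) * (2 / z) ≤ (z + 1) * (2 / z) :=
          mul_le_mul_of_nonneg_right e3 (by positivity)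
      _ = 2 + 2 / z := by field_simp
      _ ≤ 2 + 2 / 1 := by
          have : 2 / (z : ℝ) ≤ 2 / 1 := div_le_div_of_nonneg_left (by norm_num) (by norm_num) hz1
          linarith
      _ = 4 := by norm_num
  have hY : (0 : ℝ) ≤ Y := Nat.cast_nonneg _
  gcongr

end Pool.Agent.TSP
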