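import Mathlib
import Pool.Agent.TSP.Two

/-!
# The choice of the parameters
-/

set_option autoImplicit false

open Finset

namespace Pool.Agent.TSP

/-- the size conditions: `L = log x`, `l = log log x` -/
structure Big (x : ℕ) (L l : ℝ) : Prop where
  hL : L = Real.log x
  hl : l = Real.log L
  one : 1 ≤ l
  big : 8000 * l ^ 2 ≤ L

namespace Big

variable {x : ℕ} {L l : ℝ}

lemma lpos (h : Big x L l) : 0 < l := by have := h.one; linarith

lemma Lge (h : Big x L l) : 8000 ≤ L := by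
  have h1 := h.one
  have h2 := h.big
  nlinarith

lemma Lpos (h : Big x L l) : 0 < L := by have := h.Lge; linarith

lemma expl (h : Big x L l) : Real.exp l = L := by rw [h.hl, Real.exp_log h.Lpos]

lemma x0 (h : Big x L l) : (0 : ℝ) < x := by
  by_contra hx
  have h1 : (x : ℝ) = 0 := le_antisymm (not_lt.1 hx) (Nat.cast_nonneg _)
  have h2 := h.hL
  rw [h1, Real.log_zero] at h2
  have := h.Lpos
  linarith

lemma expL (h : Big x L l) : Real.exp L = x := by rw [h.hL, Real.exp_log h.x0]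

/-- the exponent of a power of two above `x` -/
noncomputable def bet (L : ℝ) : ℕ := ⌊2 * L⌋₊ + 1

lemma bet_one (L : ℝ) : 1 ≤ bet L := by unfold bet; omega

lemma log_two_gt : (0.69 : ℝ) < Real.log 2 := by have := Real.log_two_gt_d9; linarith

lemma x_le (h : Big x L l) : x ≤ 2 ^ bet L := by
  have h1 : (x : ℝ) ≤ 2 ^ bet L := by
    rw [← h.expL, ← Real.exp_log (show (0 : ℝ) < 2 ^ bet L by positivity)]
    apply Real.exp_le_exp.2
    rw [Real.log_pow]
    have h2 : 2 * L < bet L := by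
      unfold bet
      push_cast
      exact Nat.lt_floor_add_one _
    have h3 := log_two_gt
    have h4 := h.Lpos
    nlinarith
  exact_mod_cast h1

lemma log_bet (h : Big x L l) : Real.log (bet L) ≤ l + 1.1 := by
  have h1 : (bet L : ℝ) ≤ 3 * L := by
    unfold bet
    push_cast
    have h2 := Nat.floor_le (show 0 ≤ 2 * L by have := h.Lpos; linarith)
    have := h.Lge
    linarith
  have h0 : (0 : ℝ) < bet L := by exact_mod_cast bet_one L
  have h3 : Real.log (bet L) ≤ Real.log (3 * L) := Real.log_le_log h0 h1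
  rw [Real.log_mul (by norm_num) h.Lpos.ne', ← h.hl] at h3
  have h4 : Real.log 3 ≤ 1.1 := by
    rw [Real.log_le_iff_le_exp (by norm_num)]
    have := Real.exp_one_gt_d9
    have h5 : Real.exp 1.1 = Real.exp 1 * Real.exp 0.1 := by rw [← Real.exp_add]; norm_num
    have h6 := Real.add_one_le_exp (0.1 : ℝ)
    have h7 := Real.quadratic_le_exp_of_nonneg (show (0 : ℝ) ≤ 0.1 by norm_num)
    rw [h5]
    nlinarith
  linarith

/-- `c` with `L ≤ 2 ^ c` -/
noncomputable def cc (l : ℝ) : ℕ := ⌊2 * l⌋₊ + 1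

lemma cc_one (l : ℝ) : 1 ≤ cc l := by unfold cc; omega

lemma L_le_cc (h : Big x L l) : L ≤ 2 ^ cc l := by
  rw [← h.expl, ← Real.exp_log (show (0 : ℝ) < 2 ^ cc l by positivity)]
  apply Real.exp_le_exp.2
  rw [Real.log_pow]
  have h2 : 2 * l < cc l := by
    unfold cc
    push_cast
    exact Nat.lt_floor_add_one _
  have h3 := log_two_gt
  have h4 := h.lpos
  nlinarith

lemma exp_cc (h : Big x L l) :
    Real.exp (2 * (9 + 4 * Real.log (cc l))) ≤ Real.exp 18 * 3 ^ 8 * l ^ 8 := by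
  have h0 : (0 : ℝ) < cc l := by exact_mod_cast cc_one l
  have h1 : (cc l : ℝ) ≤ 3 * l := by
    unfold cc
    push_cast
    have h2 := Nat.floor_le (show 0 ≤ 2 * l by have := h.lpos; linarith)
    have := h.one
    linarith
  have h2 : Real.exp (2 * (9 + 4 * Real.log (cc l))) = Real.exp 18 * (cc l : ℝ) ^ 8 := by
    rw [show 2 * (9 + 4 * Real.log (cc l)) = 18 + (8 : ℕ) * Real.log (cc l) by push_cast; ring,
      Real.exp_add, Real.exp_nat_mul, Real.exp_log h0]
  rw [h2, mul_assoc, ← mul_pow]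
  exact mul_le_mul_of_nonneg_left (pow_le_pow_left₀ h0.le h1 8) (Real.exp_pos _).le

/-- the sifting limit -/
noncomputable def zz (L l : ℝ) : ℕ := ⌊Real.exp (L / (8000 * l ^ 2))⌋₊

lemma two_le_zz (h : Big x L l) : 2 ≤ zz L l := by
  unfold zz
  apply Nat.le_floor
  have h1 : 1 ≤ L / (8000 * l ^ 2) := by
    rw [one_le_div (by have := h.lpos; positivity)]
    exact h.big
  have h2 := Real.add_one_le_exp (L / (8000 * l ^ 2))
  push_cast
  linarith

lemma log_zz (h : Big x L l) : L / (8000 * l ^ 2) ≤ Real.log (zz L l + 1) := by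
  rw [Real.le_log_iff_exp_le (by positivity)]
  unfold zz
  exact (Nat.lt_floor_add_one _).le

lemma zz_le (L l : ℝ) : (zz L l : ℝ) ≤ Real.exp (L / (8000 * l ^ 2)) :=
  Nat.floor_le (Real.exp_pos _).le

/-- the truncation -/
noncomputable def rr (l : ℝ) : ℕ := ⌈40 * l⌉₊

lemma rr_ge (l : ℝ) : 80 * l ≤ ((2 * rr l : ℕ) : ℝ) := by
  unfold rr
  push_cast
  have := Nat.le_ceil (40 * l)
  linarith

lemma rr_le (h : Big x L l) : ((2 * rr l : ℕ) : ℝ) ≤ 82 * l := by
  unfold rr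
  push_cast
  have h1 := Nat.ceil_lt_add_one (show 0 ≤ 40 * l by have := h.lpos; linarith)
  have := h.one
  linarith

lemma e_lt : Real.exp 1 < 2.7183 := by have := Real.exp_one_lt_d9; linarith

lemma second (h : Big x L l) :
    Real.exp (-(2 * rr l : ℕ)) * Real.exp (2 * Real.exp 1 * (5 + 4 * Real.log (bet L)))
      ≤ 1 / L ^ 2 := by
  have h1 : 1 / L ^ 2 = Real.exp (-(2 * l)) := by
    rw [Real.exp_neg, one_div, show (2 : ℝ) * l = ((2 : ℕ) : ℝ) * l by norm_num,
      Real.exp_nat_mul, h.expl]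
  rw [h1, ← Real.exp_add]
  apply Real.exp_le_exp.2
  have h2 := rr_ge l
  have h3 := h.log_bet
  have h4 := e_lt
  have h5 := h.one
  have h6 : 2 * Real.exp 1 * (5 + 4 * Real.log (bet L)) ≤ 2 * 2.7183 * (5 + 4 * (l + 1.1)) := by
    have h7 : 5 + 4 * Real.log (bet L) ≤ 5 + 4 * (l + 1.1) := by linarith
    have h8 : 0 < Real.exp 1 := Real.exp_pos 1
    have h9 : 0 ≤ 5 + 4 * (l + 1.1) := by linarith
    calc 2 * Real.exp 1 * (5 + 4 * Real.log (bet L)) ≤ 2 * Real.exp 1 * (5 + 4 * (l + 1.1)) :=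
          mul_le_mul_of_nonneg_left h7 (by positivity)
      _ ≤ 2 * 2.7183 * (5 + 4 * (l + 1.1)) := by nlinarith
  linarith

/-- the smoothness bound -/
noncomputable def yy (L l : ℝ) : ℝ := Real.exp (L / (45 * l))

lemma two_L_sq (h : Big x L l) : 2 * L ^ 2 ≤ yy L l := by
  have h1 : 2 * L ^ 2 ≤ Real.exp (1 + 2 * l) := by
    rw [Real.exp_add, show (2 : ℝ) * l = ((2 : ℕ) : ℝ) * l by norm_num, Real.exp_nat_mul, h.expl]
    have := Real.add_one_le_exp (1 : ℝ)
    have h2 : 0 ≤ L ^ 2 := by positivity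
    nlinarith
  refine h1.trans ?_
  unfold yy
  apply Real.exp_le_exp.2
  have := h.lpos
  have h3 := h.big
  have h4 := h.one
  rw [le_div_iff₀ (by positivity)]
  nlinarith

lemma third (h : Big x L l) : (zz L l : ℝ) ^ (2 * rr l) ≤ yy L l / L ^ 2 := by
  have hl := h.lpos
  have h1 : (zz L l : ℝ) ^ (2 * rr l) ≤ Real.exp (82 * L / (8000 * l)) := by
    calc (zz L l : ℝ) ^ (2 * rr l) ≤ Real.exp (L / (8000 * l ^ 2)) ^ (2 * rr l) :=
          pow_le_pow_left₀ (Nat.cast_nonneg _) (zz_le L l) _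
      _ = Real.exp (((2 * rr l : ℕ) : ℝ) * (L / (8000 * l ^ 2))) := by rw [Real.exp_nat_mul]
      _ ≤ Real.exp (82 * L / (8000 * l)) := by
          apply Real.exp_le_exp.2
          have h2 := h.rr_le
          have h3 : 0 ≤ L / (8000 * l ^ 2) := by have := h.Lpos; positivity
          calc ((2 * rr l : ℕ) : ℝ) * (L / (8000 * l ^ 2)) ≤ 82 * l * (L / (8000 * l ^ 2)) :=
                mul_le_mul_of_nonneg_right h2 h3
            _ = 82 * L / (8000 * l) := by field_simp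
  have h4 : yy L l / L ^ 2 = Real.exp (L / (45 * l) - 2 * l) := by
    unfold yy
    rw [Real.exp_sub, show (2 : ℝ) * l = ((2 : ℕ) : ℝ) * l by norm_num, Real.exp_nat_mul, h.expl]
  rw [h4]
  refine h1.trans ?_
  apply Real.exp_le_exp.2
  rw [le_sub_iff_add_le, ← sub_nonneg]
  have h5 : L / (45 * l) - (82 * L / (8000 * l) + 2 * l)
      = ((8000 - 82 * 45) / (45 * 8000) * L - 2 * l ^ 2) / l := by
    field_simp
    ring
  rw [h5]
  apply div_nonneg _ hl.le
  have := h.big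
  nlinarith

lemma smooth_bd (h : Big x L l) :
    (x : ℝ) ^ (1 - 45 * l / L) * Real.exp (4 * Real.exp 1 * (5 + 4 * Real.log (bet L)))
      ≤ Real.exp 103 * x / L := by
  have hL := h.Lpos
  have h1 : (x : ℝ) ^ (1 - 45 * l / L) = Real.exp (L - 45 * l) := by
    rw [Real.rpow_def_of_pos h.x0, ← h.hL]
    congr 1
    field_simp
  have h2 : Real.exp 103 * x / L = Real.exp (103 + L - l) := by
    rw [Real.exp_sub, Real.exp_add, h.expL, h.expl]
  rw [h1, h2, ← Real.exp_add]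
  apply Real.exp_le_exp.2
  have h3 := h.log_bet
  have h4 := e_lt
  have h5 := h.one
  have h6 : 4 * Real.exp 1 * (5 + 4 * Real.log (bet L)) ≤ 4 * 2.7183 * (5 + 4 * (l + 1.1)) := by
    have h7 : 5 + 4 * Real.log (bet L) ≤ 5 + 4 * (l + 1.1) := by linarith
    have h8 : 0 < Real.exp 1 := Real.exp_pos 1
    have h9 : 0 ≤ 5 + 4 * (l + 1.1) := by linarith
    calc 4 * Real.exp 1 * (5 + 4 * Real.log (bet L)) ≤ 4 * Real.exp 1 * (5 + 4 * (l + 1.1)) :=
          mul_le_mul_of_nonneg_left h7 (by positivity)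
      _ ≤ 4 * 2.7183 * (5 + 4 * (l + 1.1)) := by nlinarith
  linarith

end Big

/-- the sieve bound with the chosen parameters -/
theorem sieve2' : ∃ C : ℝ, 0 < C ∧ ∀ (x : ℕ) (L l : ℝ), Big x L l → ∀ b a Y : ℕ, b ≠ 0 → a ≠ b →
    b ≤ x → a ≤ 2 * x → ∀ X : ℝ, (Y : ℝ) ≤ X → Big.yy L l ≤ X →
    (((Ioc 0 Y).filter (fun t => ∀ p ∈ Pool.Agent.Cyclic.pr (Big.zz L l),
      ¬ p ∣ t + 1 ∧ ¬ p ∣ b * t + a)).card : ℝ) ≤ C * X * l ^ 20 / L ^ 2 := by
  refine ⟨(Real.exp 18 * 3 ^ 8 * 8000) ^ 2 + 1 + Real.exp 4, by positivity, ?_⟩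
  intro x L l h b a Y hb hab hbx hax X hYX hyX
  have hL := h.Lpos
  have hl := h.lpos
  have hX : 0 ≤ X := (Real.exp_pos _).le.trans hyX
  have hx0 : 0 < x := by exact_mod_cast h.x0
  have hN : (b * ((a : ℤ) - b).natAbs).primeFactors.card ≤ 4 * 2 ^ Big.cc l := by
    have hN0 : b * ((a : ℤ) - b).natAbs ≠ 0 := by
      refine mul_ne_zero hb ?_
      rw [Int.natAbs_ne_zero, sub_ne_zero]
      exact_mod_cast hab
    have h1 := two_pow_card_le hN0
    set N := b * ((a : ℤ) - b).natAbs with hNdef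
    have h2 : N ≤ 2 * x ^ 2 := by
      have h3 : ((a : ℤ) - b).natAbs ≤ 2 * x := by omega
      calc N ≤ x * (2 * x) := Nat.mul_le_mul hbx h3
        _ = 2 * x ^ 2 := by ring
    have h3 : (2 : ℝ) ^ N.primeFactors.card ≤ 2 * (x : ℝ) ^ 2 := by exact_mod_cast h1.trans h2
    have h4 : (N.primeFactors.card : ℝ) * Real.log 2 ≤ Real.log 2 + 2 * L := by
      have h5 := Real.log_le_log (by positivity) h3
      rw [Real.log_pow, Real.log_mul (by norm_num) (by have := h.x0; positivity), Real.log_pow,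
        ← h.hL] at h5
      push_cast at h5
      exact h5
    have h5 := Big.log_two_gt
    have h6 := h.Lge
    have h7 : (N.primeFactors.card : ℝ) ≤ 4 * L := by nlinarith
    have h8 := h.L_le_cc
    have h9 : (N.primeFactors.card : ℝ) ≤ 4 * 2 ^ Big.cc l := by linarith
    exact_mod_cast h9
  have hz : Big.zz L l ≤ 2 ^ Big.bet L := by
    refine le_trans ?_ h.x_le
    have : (Big.zz L l : ℝ) ≤ x := by
      refine (Big.zz_le L l).trans ?_
      rw [← h.expL]
      apply Real.exp_le_exp.2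
      apply div_le_self hL.le
      have := h.one
      nlinarith
    exact_mod_cast this
  have hs := sieve2 b a hb hab (Big.zz L l) (Big.rr l) Y (Big.cc l) (Big.bet L) h.two_le_zz
    (Big.cc_one l) (Big.bet_one L) hz hN
  refine hs.trans ?_
  have m1 : (Real.exp (2 * (9 + 4 * Real.log (Big.cc l))) / Real.log (Big.zz L l + 1)) ^ 2
      ≤ (Real.exp 18 * 3 ^ 8 * 8000) ^ 2 * l ^ 20 / L ^ 2 := by
    have e1 : Real.exp (2 * (9 + 4 * Real.log (Big.cc l))) / Real.log (Big.zz L l + 1)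
        ≤ (Real.exp 18 * 3 ^ 8 * l ^ 8) / (L / (8000 * l ^ 2)) :=
      div_le_div₀ (by positivity) h.exp_cc (by positivity) h.log_zz
    have e0 : 0 ≤ Real.exp (2 * (9 + 4 * Real.log (Big.cc l))) / Real.log (Big.zz L l + 1) := by
      apply div_nonneg (Real.exp_pos _).le
      refine le_trans ?_ h.log_zz
      positivity
    refine (pow_le_pow_left₀ e0 e1 2).trans (le_of_eq ?_)
    field_simp
  have hl20 : 1 ≤ l ^ 20 := one_le_pow₀ h.one
  have m2 : Real.exp (-(2 * Big.rr l : ℕ)) *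
      Real.exp (2 * Real.exp 1 * (5 + 4 * Real.log (Big.bet L))) ≤ l ^ 20 / L ^ 2 :=
    h.second.trans (div_le_div_of_nonneg_right hl20 (by positivity))
  have m3 : (Big.zz L l : ℝ) ^ (2 * Big.rr l) * Real.exp 4 ≤ X * (Real.exp 4 * (l ^ 20 / L ^ 2)) := by
    have e1 := h.third
    have e2 : Big.yy L l / L ^ 2 ≤ X * (l ^ 20 / L ^ 2) := by
      calc Big.yy L l / L ^ 2 ≤ X / L ^ 2 := div_le_div_of_nonneg_right hyX (by positivity)
        _ = X * (1 / L ^ 2) := by ring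
        _ ≤ X * (l ^ 20 / L ^ 2) :=
          mul_le_mul_of_nonneg_left (div_le_div_of_nonneg_right hl20 (by positivity)) hX
    have e3 := e1.trans e2
    calc (Big.zz L l : ℝ) ^ (2 * Big.rr l) * Real.exp 4 ≤ X * (l ^ 20 / L ^ 2) * Real.exp 4 :=
          mul_le_mul_of_nonneg_right e3 (Real.exp_pos _).le
      _ = X * (Real.exp 4 * (l ^ 20 / L ^ 2)) := by ring
  have hY0 : (0 : ℝ) ≤ Y := Nat.cast_nonneg _
  have e4 : (Y : ℝ) * (Real.exp (2 * (9 + 4 * Real.log (Big.cc l))) /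
      Real.log (Big.zz L l + 1)) ^ 2 ≤ X * ((Real.exp 18 * 3 ^ 8 * 8000) ^ 2 * l ^ 20 / L ^ 2) :=
    mul_le_mul hYX m1 (by positivity) hX
  have e5 : (Y : ℝ) * (Real.exp (-(2 * Big.rr l : ℕ)) *
      Real.exp (2 * Real.exp 1 * (5 + 4 * Real.log (Big.bet L)))) ≤ X * (l ^ 20 / L ^ 2) :=
    mul_le_mul hYX m2 (by positivity) hX
  have e6 : ((Real.exp 18 * 3 ^ 8 * 8000) ^ 2 + 1 + Real.exp 4) * X * l ^ 20 / L ^ 2
      = X * ((Real.exp 18 * 3 ^ 8 * 8000) ^ 2 * l ^ 20 / L ^ 2) + X * (l ^ 20 / L ^ 2)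
        + X * (Real.exp 4 * (l ^ 20 / L ^ 2)) := by ring
  rw [e6]
  linarith

end Pool.Agent.TSP
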