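import Mathlib
import Pool.Agent.TSP.Params

/-!
# The number of `m ≤ x` with `φ(m) h / 2 + a` prime
-/

set_option autoImplicit false

open Finset

namespace Pool.Agent.TSP

open Pool.Agent.Cyclic (pr mem_pr sum_upto pr_mono harmonic_eq_sum_Icc_real)
open Big (yy zz bet)

open Classical in
/-- the numbers counted -/
noncomputable def QQ (x h a : ℕ) : Finset ℕ :=
  (Icc 1 x).filter fun m => (m.totient * h / 2 + a).Prime

open Classical in
/-- the primes `P` for given `m'` -/
noncomputable def RR (x y h a u : ℕ) : Finset ℕ :=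
  (Icc 1 (x / u)).filter fun P => P.Prime ∧ y < P ∧ ((P * u).totient * h / 2 + a).Prime

open Classical in
lemma card_QQ_le (x y h a : ℕ) : (QQ x h a).card ≤
    ((QQ x h a).filter fun m => ∀ p, p.Prime → p ∣ m → p ≤ y).card
      + ∑ u ∈ Icc 1 (x / (y + 1)), (RR x y h a u).card := by
  rw [← Finset.card_filter_add_card_filter_not (s := QQ x h a)
    (fun m => ∀ p, p.Prime → p ∣ m → p ≤ y)]
  apply add_le_add le_rfl
  have hsub : (QQ x h a).filter (fun m => ¬ ∀ p, p.Prime → p ∣ m → p ≤ y) ⊆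
      (Icc 1 (x / (y + 1))).biUnion fun u => (RR x y h a u).image fun P => P * u := by
    intro m hm
    rw [mem_filter, QQ, mem_filter, mem_Icc] at hm
    obtain ⟨⟨⟨hm1, hmx⟩, hpr⟩, hns⟩ := hm
    push Not at hns
    obtain ⟨p, hp, ⟨u, rfl⟩, hpy⟩ := hns
    rw [mem_biUnion]
    have hu : 0 < u := Nat.pos_of_ne_zero fun h0 => by rw [h0, mul_zero] at hm1; omega
    refine ⟨u, ?_, ?_⟩
    · rw [mem_Icc]
      refine ⟨hu, ?_⟩
      rw [Nat.le_div_iff_mul_le (by omega)]
      calc u * (y + 1) ≤ u * p := Nat.mul_le_mul_left u hpy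
        _ = p * u := mul_comm _ _
        _ ≤ x := hmx
    · rw [mem_image]
      refine ⟨p, ?_, rfl⟩
      rw [RR, mem_filter, mem_Icc]
      refine ⟨⟨hp.one_lt.le, ?_⟩, hp, hpy, hpr⟩
      rw [Nat.le_div_iff_mul_le hu]
      exact hmx
  refine (Finset.card_le_card hsub).trans (Finset.card_biUnion_le.trans ?_)
  exact Finset.sum_le_sum fun u _ => Finset.card_image_le

lemma tot_eq {P u h : ℕ} (hP : P.Prime) (hu : 3 ≤ u) (hd : ¬ P ∣ u) :
    (P * u).totient * h / 2 = (u.totient / 2 * h) * (P - 1) := by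
  have hcop : Nat.Coprime P u := (Nat.Prime.coprime_iff_not_dvd hP).2 hd
  rw [Nat.totient_mul hcop, Nat.totient_prime hP]
  obtain ⟨c, hc⟩ : 2 ∣ u.totient := (Nat.totient_even (by omega)).two_dvd
  rw [hc, Nat.mul_div_cancel_left c (by norm_num),
    show (P - 1) * (2 * c) * h = 2 * (c * h * (P - 1)) by ring,
    Nat.mul_div_cancel_left _ (by norm_num)]

open Classical in
/-- the bound for given `u ≥ 3` -/
lemma card_RR (C : ℝ) (hC : ∀ (x : ℕ) (L l : ℝ), Big x L l → ∀ b a Y : ℕ, b ≠ 0 → a ≠ b →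
    b ≤ x → a ≤ 2 * x → ∀ X : ℝ, (Y : ℝ) ≤ X → yy L l ≤ X →
    (((Ioc 0 Y).filter (fun t => ∀ p ∈ pr (zz L l),
      ¬ p ∣ t + 1 ∧ ¬ p ∣ b * t + a)).card : ℝ) ≤ C * X * l ^ 20 / L ^ 2) (hC0 : 0 < C)
    (x : ℕ) (L l : ℝ) (hB : Big x L l) (h a u : ℕ) (hh : h = 1 ∨ h = 2) (ha : 2 ≤ a)
    (hax : a ≤ 2 * x) (hu : 3 ≤ u) (hux : u * (⌊yy L l⌋₊ + 1) ≤ x) :
    ((RR x ⌊yy L l⌋₊ h a u).card : ℝ) ≤ u.primeFactors.card + C * (x / u) * l ^ 20 / L ^ 2 := by
  set y := ⌊yy L l⌋₊ with hy
  set b := u.totient / 2 * h with hb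
  have hu0 : (0 : ℝ) < u := by exact_mod_cast (by omega : 0 < u)
  have hL := hB.Lpos
  have hl := hB.lpos
  have htot : 2 ≤ u.totient := by
    have h1 := Nat.totient_pos.2 (show 0 < u by omega)
    obtain ⟨c, hc⟩ : 2 ∣ u.totient := (Nat.totient_even (by omega)).two_dvd
    omega
  have hb0 : b ≠ 0 := by
    rw [hb]
    have : 1 ≤ u.totient / 2 := by omega
    rcases hh with rfl | rfl <;> omega
  have hbx : b ≤ x := by
    have h1 : b ≤ u.totient := by
      rw [hb]
      rcases hh with rfl | rfl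
      · rw [mul_one]; exact Nat.div_le_self _ _
      · exact Nat.div_mul_le_self _ _
    have h2 : u.totient ≤ u := Nat.totient_le u
    have h3 : u ≤ u * (y + 1) := Nat.le_mul_of_pos_right u (by omega)
    omega
  set R' := (RR x y h a u).filter (fun P => ¬ P ∣ u) with hR'
  have hsplit : (RR x y h a u).card ≤ u.primeFactors.card + R'.card := by
    rw [← Finset.card_filter_add_card_filter_not (s := RR x y h a u) (fun P => P ∣ u)]
    apply add_le_add _ le_rfl
    apply Finset.card_le_card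
    intro P hP
    rw [mem_filter, RR, mem_filter] at hP
    rw [Nat.mem_primeFactors]
    exact ⟨hP.1.2.1, hP.2, by omega⟩
  have hmain : (R'.card : ℝ) ≤ C * (x / u) * l ^ 20 / L ^ 2 := by
    by_cases hab : a = b
    · have : R' = ∅ := by
        rw [Finset.eq_empty_iff_forall_notMem]
        intro P hP
        rw [hR', mem_filter, RR, mem_filter] at hP
        obtain ⟨⟨_, hPp, _, hpr⟩, hd⟩ := hP
        rw [tot_eq hPp hu hd, ← hb, ← hab] at hpr
        have h1 : a * (P - 1) + a = a * P := by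
          have := hPp.pos
          obtain ⟨q, rfl⟩ : ∃ q, P = q + 1 := ⟨P - 1, by omega⟩
          simp only [Nat.add_sub_cancel]
          ring
        rw [h1] at hpr
        exact Nat.not_prime_mul (by omega) hPp.ne_one hpr
      rw [this, Finset.card_empty, Nat.cast_zero]
      positivity
    · have hYX : ((x / u : ℕ) : ℝ) ≤ (x : ℝ) / u := Nat.cast_div_le
      have hyX : yy L l ≤ (x : ℝ) / u := by
        rw [le_div_iff₀ hu0]
        have h1 : yy L l < (y : ℝ) + 1 := Nat.lt_floor_add_one _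
        have h2 : (u : ℝ) * ((y : ℝ) + 1) ≤ x := by exact_mod_cast hux
        nlinarith
      refine le_trans ?_ (hC x L l hB b a (x / u) hb0 hab hbx hax _ hYX hyX)
      have hinj : R'.card ≤ ((Ioc 0 (x / u)).filter (fun t => ∀ p ∈ pr (zz L l),
          ¬ p ∣ t + 1 ∧ ¬ p ∣ b * t + a)).card := by
        apply Finset.card_le_card_of_injOn (fun P => P - 1)
        · intro P hP
          rw [mem_coe, hR', mem_filter, RR, mem_filter, mem_Icc] at hP
          obtain ⟨⟨⟨hP1, hP2⟩, hPp, hPy, hpr⟩, hd⟩ := hP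
          rw [tot_eq hPp hu hd, ← hb] at hpr
          have hP3 := hPp.two_le
          rw [mem_coe, mem_filter, mem_Ioc]
          refine ⟨show 0 < P - 1 ∧ P - 1 ≤ x / u from ⟨by omega, by omega⟩, fun p hp => ?_⟩
          obtain ⟨hpz, hpp⟩ := mem_pr.1 hp
          have hzP : zz L l < P := by
            have h1 : (zz L l : ℝ) ≤ yy L l := by
              refine (Big.zz_le L l).trans ?_
              unfold yy
              apply Real.exp_le_exp.2
              apply div_le_div_of_nonneg_left hL.le (by positivity)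
              have := hB.one
              nlinarith
            have h2 : zz L l ≤ y := Nat.le_floor h1
            omega
          constructor
          · intro hdvd
            rw [Nat.sub_add_cancel hP1] at hdvd
            have := (Nat.prime_dvd_prime_iff_eq hpp hPp).1 hdvd
            omega
          · intro hdvd
            have h1 := (Nat.prime_dvd_prime_iff_eq hpp hpr).1 hdvd
            have h2 : P - 1 ≤ b * (P - 1) := Nat.le_mul_of_pos_left _ (by omega)
            omega
        · intro P hP Q hQ hPQ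
          rw [mem_coe, hR', mem_filter, RR, mem_filter, mem_Icc] at hP hQ
          simp only at hPQ
          omega
      exact_mod_cast hinj
  have h1 : ((RR x y h a u).card : ℝ) ≤ u.primeFactors.card + R'.card := by exact_mod_cast hsplit
  linarith

lemma card_RR_small (x y h a u : ℕ) (hx : 2 ≤ x) :
    ((RR x y h a u).card : ℝ) ≤ 8 * x / Real.log x := by
  classical
  have h1 : (RR x y h a u).card ≤ Nat.primeCounting x := by
    rw [Nat.primeCounting, Nat.primeCounting', Nat.count_eq_card_filter_range]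
    apply Finset.card_le_card
    intro P hP
    rw [RR, mem_filter, mem_Icc] at hP
    rw [mem_filter, mem_range]
    have : x / u ≤ x := Nat.div_le_self _ _
    exact ⟨by omega, hP.2.1⟩
  have hx1 : (1 : ℝ) < x := by exact_mod_cast (by omega : 1 < x)
  have h2 := Chebyshev.pi_le_log4_mul_div hx1
  rw [Nat.floor_natCast] at h2
  have h3 : ((RR x y h a u).card : ℝ) ≤ (Nat.primeCounting x : ℝ) := by exact_mod_cast h1
  refine (h3.trans h2).trans ?_
  have hlog : 0 < Real.log x := Real.log_pos hx1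
  rw [Real.log_sqrt (by linarith)]
  have h4 : Real.log 4 ≤ 2 := by
    have : Real.log 4 = 2 * Real.log 2 := by
      rw [show (4 : ℝ) = 2 ^ 2 by norm_num, Real.log_pow]; norm_num
    have := Real.log_two_lt_d9
    linarith
  have h5 : √(x : ℝ) ≤ 2 * x / Real.log x := by
    rw [le_div_iff₀ hlog]
    have h6 : Real.log x ≤ 2 * √x := by
      have h7 : Real.log √(x : ℝ) ≤ √x := Real.log_le_self (Real.sqrt_nonneg _)
      rw [Real.log_sqrt (by linarith)] at h7
      linarith
    calc √(x : ℝ) * Real.log x ≤ √(x : ℝ) * (2 * √x) :=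
          mul_le_mul_of_nonneg_left h6 (Real.sqrt_nonneg _)
      _ = 2 * (√(x : ℝ) * √x) := by ring
      _ = 2 * x := by rw [Real.mul_self_sqrt (by linarith)]
  have h6 : Real.log 4 * x / (Real.log x / 2) ≤ 4 * x / Real.log x := by
    rw [div_div_eq_mul_div]
    apply div_le_div_of_nonneg_right _ hlog.le
    nlinarith
  have h7 : 8 * (x : ℝ) / Real.log x = 4 * x / Real.log x + 2 * x / Real.log x
      + 2 * x / Real.log x := by ring
  have h8 : 0 ≤ 2 * (x : ℝ) / Real.log x := by positivity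
  rw [h7]
  linarith

open Classical in
/-- the count for large `x` -/
theorem phi_bound : ∃ C : ℝ, 0 < C ∧ ∀ (x : ℕ) (L l : ℝ), Big x L l → ∀ h a : ℕ,
    h = 1 ∨ h = 2 → 2 ≤ a → a ≤ 2 * x → ((QQ x h a).card : ℝ) ≤ C * x * l ^ 20 / L := by
  obtain ⟨C, hC0, hC⟩ := sieve2'
  refine ⟨Real.exp 103 + 16 + 1 + 2 * C, by positivity, ?_⟩
  intro x L l hB h a hh ha hax
  have hL := hB.Lpos
  have hl := hB.lpos
  have hx0 := hB.x0
  have hl20 : 1 ≤ l ^ 20 := one_le_pow₀ hB.one
  set y := ⌊yy L l⌋₊ with hy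
  have hyy0 : 0 < yy L l := Real.exp_pos _
  have hyle : (y : ℝ) ≤ yy L l := Nat.floor_le hyy0.le
  have hylt : yy L l < (y : ℝ) + 1 := Nat.lt_floor_add_one _
  have hyx : (yy L l) ≤ x := by
    rw [← hB.expL]
    unfold yy
    apply Real.exp_le_exp.2
    apply div_le_self hL.le
    have := hB.one
    linarith
  have hx2 : 2 ≤ x := by
    have h1 := hB.two_L_sq
    have h2 := hB.Lge
    have h3 : (2 : ℝ) ≤ x := by nlinarith
    exact_mod_cast h3
  have h1 := card_QQ_le x y h a
  -- the smooth numbers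
  have h2 : (((QQ x h a).filter fun m => ∀ p, p.Prime → p ∣ m → p ≤ y).card : ℝ)
      ≤ Real.exp 103 * x / L := by
    refine le_trans (smooth_count x y (bet L) (δ := 45 * l / L) (by positivity) ?_ ?_
      (Big.bet_one L) ?_ _ ?_) hB.smooth_bd
    · rw [div_le_iff₀ hL]
      have := hB.big
      have := hB.one
      nlinarith
    · have h3 : Real.log y ≤ L / (45 * l) := by
        rcases Nat.eq_zero_or_pos y with h0 | hpos
        · rw [h0, Nat.cast_zero, Real.log_zero]
          positivity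
        · have hy0 : (0 : ℝ) < y := by exact_mod_cast hpos
          rw [Real.log_le_iff_le_exp hy0]
          exact hyle
      calc 45 * l / L * Real.log y ≤ 45 * l / L * (L / (45 * l)) :=
            mul_le_mul_of_nonneg_left h3 (by positivity)
        _ = 1 := by field_simp
    · refine le_trans ?_ hB.x_le
      have : (y : ℝ) ≤ x := hyle.trans hyx
      exact_mod_cast this
    · intro n hn
      rw [mem_filter, QQ, mem_filter, mem_Icc] at hn
      exact ⟨hn.1.1.1, hn.1.1.2, hn.2⟩
  -- the other numbers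
  set M := x / (y + 1) with hM
  have hMx : (M : ℝ) ≤ x / yy L l := by
    have e1 : (M : ℝ) ≤ (x : ℝ) / ((y + 1 : ℕ) : ℝ) := Nat.cast_div_le
    refine e1.trans ?_
    push_cast
    exact div_le_div_of_nonneg_left hx0.le hyy0 hylt.le
  have h3 : ∀ u ∈ Icc 1 M, ((RR x y h a u).card : ℝ) ≤ (if u ≤ 2 then 8 * x / L else 0) + 2 * L
      + C * x * l ^ 20 / L ^ 2 * (1 / (u : ℝ)) := by
    intro u hu
    rw [mem_Icc] at hu
    have hu0 : (0 : ℝ) < u := by exact_mod_cast hu.1
    have hux : u * (y + 1) ≤ x := by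
      calc u * (y + 1) ≤ M * (y + 1) := Nat.mul_le_mul_right _ hu.2
        _ ≤ x := Nat.div_mul_le_self _ _
    by_cases hu2 : u ≤ 2
    · rw [if_pos hu2]
      have e1 := card_RR_small x y h a u hx2
      rw [← hB.hL] at e1
      have e2 : 0 ≤ C * x * l ^ 20 / L ^ 2 * (1 / (u : ℝ)) := by positivity
      linarith
    · rw [if_neg hu2]
      have e1 := card_RR C hC hC0 x L l hB h a u hh ha hax (by omega) hux
      rw [← hy] at e1
      have e2 : (u.primeFactors.card : ℝ) ≤ 2 * L := by
        have e3 : 2 ^ u.primeFactors.card ≤ x := by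
          refine (two_pow_card_le (by omega)).trans ?_
          have : u ≤ u * (y + 1) := Nat.le_mul_of_pos_right u (by omega)
          omega
        have e4 : (2 : ℝ) ^ u.primeFactors.card ≤ x := by exact_mod_cast e3
        have e5 := Real.log_le_log (by positivity) e4
        rw [Real.log_pow, ← hB.hL] at e5
        have e6 := Big.log_two_gt
        nlinarith
      have e7 : C * (x / u) * l ^ 20 / L ^ 2 = C * x * l ^ 20 / L ^ 2 * (1 / (u : ℝ)) := by ring
      linarith
  have h4 : ((∑ u ∈ Icc 1 M, (RR x y h a u).card : ℕ) : ℝ) ≤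
      16 * x / L + x / L + 2 * C * x * l ^ 20 / L := by
    push_cast
    refine (Finset.sum_le_sum h3).trans ?_
    rw [Finset.sum_add_distrib, Finset.sum_add_distrib]
    have e9 : ∑ u ∈ Icc 1 M, C * x * l ^ 20 / L ^ 2 * (1 / (u : ℝ))
        = C * x * l ^ 20 / L ^ 2 * ∑ u ∈ Icc 1 M, 1 / (u : ℝ) := (Finset.mul_sum _ _ _).symm
    rw [e9]
    have e1 : ∑ u ∈ Icc 1 M, (if u ≤ 2 then 8 * (x : ℝ) / L else 0) ≤ 16 * x / L := by
      rw [← Finset.sum_filter, Finset.sum_const, nsmul_eq_mul]
      have e2 : ((Icc 1 M).filter fun u => u ≤ 2).card ≤ 2 := by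
        have : (Icc 1 M).filter (fun u => u ≤ 2) ⊆ Icc 1 2 := by
          intro u hu
          rw [mem_filter, mem_Icc] at hu
          rw [mem_Icc]
          exact ⟨hu.1.1, hu.2⟩
        have h5 := Finset.card_le_card this
        simpa using h5
      have e3 : (((Icc 1 M).filter fun u => u ≤ 2).card : ℝ) ≤ 2 := by exact_mod_cast e2
      calc (((Icc 1 M).filter fun u => u ≤ 2).card : ℝ) * (8 * x / L) ≤ 2 * (8 * x / L) :=
            mul_le_mul_of_nonneg_right e3 (by positivity)
        _ = 16 * x / L := by ring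
    have e4 : ∑ u ∈ Icc 1 M, 2 * L ≤ x / L := by
      rw [Finset.sum_const, Nat.card_Icc, Nat.add_sub_cancel, nsmul_eq_mul]
      calc (M : ℝ) * (2 * L) ≤ x / yy L l * (2 * L) :=
            mul_le_mul_of_nonneg_right hMx (by positivity)
        _ ≤ x / (2 * L ^ 2) * (2 * L) := by
            apply mul_le_mul_of_nonneg_right _ (by positivity)
            exact div_le_div_of_nonneg_left hx0.le (by positivity) hB.two_L_sq
        _ = x / L := by field_simp
    have e5 : ∑ u ∈ Icc 1 M, 1 / (u : ℝ) ≤ 2 * L := by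
      have e6 : ∑ u ∈ Icc 1 M, 1 / (u : ℝ) ≤ ∑ u ∈ Icc 1 x, 1 / (u : ℝ) :=
        Finset.sum_le_sum_of_subset_of_nonneg
          (Finset.Icc_subset_Icc_right (Nat.div_le_self _ _)) (fun _ _ _ => by positivity)
      have e7 : ∑ u ∈ Icc 1 x, 1 / (u : ℝ) ≤ 1 + Real.log x := by
        rw [← harmonic_eq_sum_Icc_real]
        exact harmonic_le_one_add_log _
      rw [← hB.hL] at e7
      have := hB.Lge
      linarith
    have e8 : C * x * l ^ 20 / L ^ 2 * ∑ u ∈ Icc 1 M, 1 / (u : ℝ) ≤ 2 * C * x * l ^ 20 / L := by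
      calc C * x * l ^ 20 / L ^ 2 * ∑ u ∈ Icc 1 M, 1 / (u : ℝ)
          ≤ C * x * l ^ 20 / L ^ 2 * (2 * L) := mul_le_mul_of_nonneg_left e5 (by positivity)
        _ = 2 * C * x * l ^ 20 / L := by field_simp
    linarith
  have h5 : ((QQ x h a).card : ℝ) ≤
      (((QQ x h a).filter fun m => ∀ p, p.Prime → p ∣ m → p ≤ y).card : ℝ)
      + ((∑ u ∈ Icc 1 M, (RR x y h a u).card : ℕ) : ℝ) := by exact_mod_cast h1
  have h6 : (Real.exp 103 + 16 + 1 + 2 * C) * x * l ^ 20 / L
      = (Real.exp 103 * x / L + 16 * x / L + x / L) * l ^ 20 + 2 * C * x * l ^ 20 / L := by ring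
  have h7 : Real.exp 103 * x / L + 16 * x / L + x / L ≤
      (Real.exp 103 * x / L + 16 * x / L + x / L) * l ^ 20 :=
    le_mul_of_one_le_right (by positivity) hl20
  rw [h6]
  linarith

end Pool.Agent.TSP
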