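import Mathlib
import Pool.Agent.TSP.Count

/-!
# Pairs
-/

set_option autoImplicit false

open Finset

namespace Pool.Agent.TSP

open Filter Topology

/-- the conditions hold for large `x` -/
lemma exists_big : ∃ L0 : ℝ, 3 ≤ L0 ∧ ∀ x : ℕ, L0 ≤ Real.log x →
    Big x (Real.log x) (Real.log (Real.log x)) := by
  have h1 : ∀ᶠ L : ℝ in atTop, 8000 * Real.log L ^ 2 ≤ L := by
    have h2 := (Real.isLittleO_pow_log_id_atTop (n := 2)).bound
      (show (0 : ℝ) < 1 / 8000 by norm_num)
    filter_upwards [h2, eventually_ge_atTop (1 : ℝ)] with L hL hL1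
    rw [Real.norm_eq_abs, Real.norm_eq_abs, id, abs_of_nonneg (by positivity : (0 : ℝ) ≤ L),
      abs_of_nonneg (by positivity)] at hL
    linarith
  obtain ⟨L1, hL1⟩ := eventually_atTop.1 h1
  refine ⟨max 3 L1, le_max_left _ _, fun x hx => ⟨rfl, rfl, ?_, hL1 _ ((le_max_right _ _).trans hx)⟩⟩
  rw [Real.le_log_iff_exp_le (by have := (le_max_left 3 L1).trans hx; linarith)]
  have := Real.exp_one_lt_d9
  have := (le_max_left 3 L1).trans hx
  linarith

lemma log_log_ge {x : ℕ} (hx : 16 ≤ x) : 2.7 ≤ Real.log x ∧ 1 ≤ Real.log (Real.log x) := by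
  have h1 : Real.log 16 ≤ Real.log x := Real.log_le_log (by norm_num) (by exact_mod_cast hx)
  have h2 : Real.log 16 = 4 * Real.log 2 := by
    rw [show (16 : ℝ) = 2 ^ 4 by norm_num, Real.log_pow]
    norm_num
  have h3 := Real.log_two_gt_d9
  have h4 : 2.77 ≤ Real.log x := by linarith
  refine ⟨by linarith, ?_⟩
  rw [Real.le_log_iff_exp_le (by linarith)]
  have := Real.exp_one_lt_d9
  linarith

open Classical in
/-- the count for all `x ≥ 16` -/
theorem phi_bound' : ∃ C : ℝ, 0 < C ∧ ∀ x h a : ℕ, 16 ≤ x → h = 1 ∨ h = 2 → 2 ≤ a → a ≤ 2 * x →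
    ((QQ x h a).card : ℝ) ≤ C * x * Real.log (Real.log x) ^ 20 / Real.log x := by
  obtain ⟨C, hC0, hC⟩ := phi_bound
  obtain ⟨L0, hL0, hbig⟩ := exists_big
  refine ⟨C + L0, by linarith, ?_⟩
  intro x h a hx hh ha hax
  obtain ⟨h1, h2⟩ := log_log_ge hx
  have hx0 : (0 : ℝ) ≤ x := Nat.cast_nonneg _
  have h20 : 1 ≤ Real.log (Real.log x) ^ 20 := one_le_pow₀ h2
  have hlog : 0 < Real.log x := by linarith
  have e1 : (C + L0) * x * Real.log (Real.log x) ^ 20 / Real.log x =
      C * x * Real.log (Real.log x) ^ 20 / Real.log x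
      + L0 * x * Real.log (Real.log x) ^ 20 / Real.log x := by ring
  rw [e1]
  by_cases hcase : L0 ≤ Real.log x
  · have h3 := hC x _ _ (hbig x hcase) h a hh ha hax
    have h4 : 0 ≤ L0 * x * Real.log (Real.log x) ^ 20 / Real.log x := by positivity
    linarith
  · push Not at hcase
    have h3 : ((QQ x h a).card : ℝ) ≤ x := by
      have : (QQ x h a).card ≤ x := by
        refine (Finset.card_filter_le _ _).trans ?_
        rw [Nat.card_Icc, Nat.add_sub_cancel]
      exact_mod_cast this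
    have h4 : (x : ℝ) ≤ L0 * x * Real.log (Real.log x) ^ 20 / Real.log x := by
      rw [le_div_iff₀ hlog]
      calc (x : ℝ) * Real.log x ≤ x * L0 := mul_le_mul_of_nonneg_left hcase.le hx0
        _ = L0 * x * 1 := by ring
        _ ≤ L0 * x * Real.log (Real.log x) ^ 20 :=
          mul_le_mul_of_nonneg_left h20 (by positivity)
    have h5 : 0 ≤ C * x * Real.log (Real.log x) ^ 20 / Real.log x := by positivity
    linarith

end Pool.Agent.TSP
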