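import Pool.Agent.TSP.Meas

/-!
# The spectral measure with all its constraints
-/

namespace Pool.Agent.TSP

open Finset Matrix Polynomial

variable {m : ℕ}

theorem exists_poly (s : Finset ℝ) (r : ℝ → ℝ) : ∃ g : ℝ[X], ∀ x ∈ s, g.eval x = r x := by
  refine ⟨Lagrange.interpolate s id r, fun x hx => ?_⟩
  have := Lagrange.eval_interpolate_at_node (s := s) (v := id) (r := r)
    (Set.injOn_id _) hx
  simpa using this

/-- The spectral measure `nu = Σ_j w_j δ_{t_j}` of `beta = S 1` with respect to `- A^2`,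
`A = S - beta(x) + beta(y)`, for a kernel `S` of a (weighted) tournament. -/
theorem spectral_measure (hm : 0 < m) (S : Fin m → Fin m → ℝ) (hS : ∀ i j, S j i = - S i j)
    (hb : ∀ i j, |S i j| ≤ 1) :
    ∃ w t : Fin m → ℝ, (∀ j, 0 ≤ w j) ∧ (∀ j, 0 ≤ t j) ∧
      (∀ p : ℝ[X], mom (aker S) (beta S) p = ∑ j, w j * p.eval (t j)) ∧
      (∑ j, w j = dee S) ∧
      (∀ j, t j ≤ 1 / 2 - dee S) ∧
      (∀ j k, t j ≠ t k → t j + t k ≤ 1 / 2 - dee S) ∧
      (∀ j, t j ≤ 4 / Real.pi ^ 2) ∧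
      (∀ s, 0 < s → 0 < ∑ j with s ≤ t j, w j → s + ∑ j with s ≤ t j, w j ≤ 4 / Real.pi ^ 2) ∧
      (∀ j, w j ≠ 0 → t j + w j ≤ 4 / Real.pi ^ 2) ∧
      (∑ j, w j / (4 / Real.pi ^ 2 - t j) ≤ 1) := by
  have hA := aker_anti S hS
  obtain ⟨E⟩ := eig_nonempty (aker S) hA
  have hhs : hs (aker S) ≤ 1 - 2 * dee S := by
    rw [hs_aker hm S hS]; linarith [hs_le S hb hm]
  have hq : 0 < 4 / Real.pi ^ 2 := by positivity
  have hD3 := dee_le S hS hb
  have hq3 : (1 : ℝ) / 3 ≤ 4 / Real.pi ^ 2 := by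
    have := Real.pi_lt_d2
    rw [div_le_div_iff₀ (by norm_num) (by positivity)]
    nlinarith [Real.pi_pos]
  have hw : ∀ j, 0 ≤ E.w (beta S) j := fun j => E.w_nonneg _ j
  have hsum : ∑ j, E.w (beta S) j = dee S := by
    have := E.mom_eq (beta S) 1
    simp only [eval_one, mul_one] at this
    rw [← this]; unfold mom; rw [pol_one]; rfl
  have hjoint : ∀ s, 0 < s → 0 < ∑ j with s ≤ E.lam j, E.w (beta S) j →
      s + ∑ j with s ≤ E.lam j, E.w (beta S) j ≤ 4 / Real.pi ^ 2 :=
    fun s h1 h2 => E.joint hm S hS hb s h1 h2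
  have hsingle : ∀ j, E.w (beta S) j ≠ 0 → E.lam j + E.w (beta S) j ≤ 4 / Real.pi ^ 2 := by
    intro j hj
    have hle : ∀ s, s ≤ E.lam j →
        E.w (beta S) j ≤ ∑ k with s ≤ E.lam k, E.w (beta S) k := by
      intro s hsj
      exact single_le_sum (f := fun k => E.w (beta S) k) (fun k _ => hw k)
        (by simp [hsj])
    rcases (E.lam_nonneg hA j).eq_or_lt with h0 | h0
    · rw [← h0, zero_add]
      have : E.w (beta S) j ≤ ∑ k, E.w (beta S) k :=
        single_le_sum (f := fun k => E.w (beta S) k) (fun k _ => hw k) (mem_univ j)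
      linarith
    · have h1 := hle (E.lam j) le_rfl
      have h2 : 0 < E.w (beta S) j := lt_of_le_of_ne (hw j) hj.symm
      have := hjoint (E.lam j) h0 (by linarith)
      linarith
  refine ⟨E.w (beta S), E.lam, hw, E.lam_nonneg hA, E.mom_eq _, hsum, ?_, ?_,
    E.lam_le_q hm S hS hb, hjoint, hsingle, ?_⟩
  · intro j; have := E.lam_le hA j; linarith
  · intro j k h; have := E.lam_pair_le hA j k h; linarith
  · set q := 4 / Real.pi ^ 2 with hqd
    obtain ⟨g, hg⟩ := exists_poly (univ.image E.lam) (fun x => - 1 / (q - x))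
    have hg' : ∀ j, g.eval (E.lam j) = - 1 / (q - E.lam j) := fun j =>
      hg _ (mem_image_of_mem _ (mem_univ j))
    have h := mom_c1 hm S hS hb g
    rw [E.mom_eq, E.mom_eq, ← hqd, mul_add, mul_one, mul_sum] at h
    have h2 : ∑ j, E.w (beta S) j * ((1 - X * g) ^ 2).eval (E.lam j) -
        ∑ j, q * (E.w (beta S) j * (X * g ^ 2).eval (E.lam j)) =
        q * ∑ j, E.w (beta S) j / (q - E.lam j) := by
      rw [← sum_sub_distrib, mul_sum]
      refine sum_congr rfl fun j _ => ?_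
      by_cases hj : E.w (beta S) j = 0
      · rw [hj]; simp
      have hlt : 0 < q - E.lam j := by
        have h1 := hsingle j hj
        have h2 : 0 < E.w (beta S) j := lt_of_le_of_ne (hw j) (Ne.symm hj)
        linarith
      simp only [eval_pow, eval_sub, eval_one, eval_mul, eval_X, hg']
      field_simp
      ring
    have h3 : q * ∑ j, E.w (beta S) j / (q - E.lam j) ≤ q * 1 := by linarith
    exact le_of_mul_le_mul_left h3 hq

end Pool.Agent.TSP
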