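import Mathlib

/-!
# Spectral measure of the score function of an antisymmetric kernel (MP_d27362_co)

`S` is an antisymmetric kernel on `Fin m`, everything is normalised by `1/m`.
`beta S = S 1`, `dee S = |beta|^2`, `aker S i j = S i j - beta i + beta j`,
`pol A p` is the polynomial `p` evaluated at `- A^2`.
-/

namespace Pool.Agent.TSP

open Finset Matrix Polynomial

variable {m : ℕ}

/-- normalised inner product -/
noncomputable def ip (f g : Fin m → ℝ) : ℝ := (∑ i, f i * g i) / m

/-- normalised kernel operator -/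
noncomputable def op (S : Fin m → Fin m → ℝ) (f : Fin m → ℝ) : Fin m → ℝ :=
  fun i => (∑ j, S i j * f j) / m

/-- the score function `S 1` -/
noncomputable def beta (S : Fin m → Fin m → ℝ) : Fin m → ℝ := op S (fun _ => 1)

/-- `|beta|^2` -/
noncomputable def dee (S : Fin m → Fin m → ℝ) : ℝ := ip (beta S) (beta S)

/-- the centred kernel -/
noncomputable def aker (S : Fin m → Fin m → ℝ) : Fin m → Fin m → ℝ :=
  fun i j => S i j - beta S i + beta S j

/-- matrix of the operator `op A` -/
noncomputable def mat (A : Fin m → Fin m → ℝ) : Matrix (Fin m) (Fin m) ℝ :=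
  (1 / (m : ℝ)) • Matrix.of A

/-- matrix of `- A^2` -/
noncomputable def nmat (A : Fin m → Fin m → ℝ) : Matrix (Fin m) (Fin m) ℝ :=
  - (mat A * mat A)

/-- `p(-A^2) f` -/
noncomputable def pol (A : Fin m → Fin m → ℝ) (p : ℝ[X]) (f : Fin m → ℝ) : Fin m → ℝ :=
  (aeval (nmat A) p) *ᵥ f

/-! ### the inner product -/

theorem ip_comm (f g : Fin m → ℝ) : ip f g = ip g f := by
  unfold ip; congr 1; exact sum_congr rfl fun i _ => mul_comm _ _

theorem ip_add_left (f g h : Fin m → ℝ) : ip (f + g) h = ip f h + ip g h := by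
  unfold ip; rw [← add_div, ← sum_add_distrib]; congr 1
  exact sum_congr rfl fun i _ => by simp [add_mul]

theorem ip_add_right (f g h : Fin m → ℝ) : ip f (g + h) = ip f g + ip f h := by
  rw [ip_comm, ip_add_left, ip_comm g, ip_comm h]

theorem ip_smul_left (c : ℝ) (f g : Fin m → ℝ) : ip (c • f) g = c * ip f g := by
  unfold ip; rw [mul_div_assoc', mul_sum]; congr 1
  exact sum_congr rfl fun i _ => by simp [mul_assoc]

theorem ip_smul_right (c : ℝ) (f g : Fin m → ℝ) : ip f (c • g) = c * ip f g := by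
  rw [ip_comm, ip_smul_left, ip_comm]

theorem ip_neg_left (f g : Fin m → ℝ) : ip (-f) g = - ip f g := by
  have := ip_smul_left (-1) f g; simpa using this

theorem ip_neg_right (f g : Fin m → ℝ) : ip f (-g) = - ip f g := by
  rw [ip_comm, ip_neg_left, ip_comm]

theorem ip_sub_left (f g h : Fin m → ℝ) : ip (f - g) h = ip f h - ip g h := by
  rw [sub_eq_add_neg, ip_add_left, ip_neg_left]; ring

theorem ip_sub_right (f g h : Fin m → ℝ) : ip f (g - h) = ip f g - ip f h := by
  rw [sub_eq_add_neg, ip_add_right, ip_neg_right]; ring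

theorem ip_self_nonneg (f : Fin m → ℝ) : 0 ≤ ip f f :=
  div_nonneg (sum_nonneg fun i _ => mul_self_nonneg _) (Nat.cast_nonneg _)

theorem ip_zero_left (g : Fin m → ℝ) : ip 0 g = 0 := by simp [ip]

theorem ip_zero_right (g : Fin m → ℝ) : ip g 0 = 0 := by simp [ip]

theorem ip_sum_left {ι : Type*} (s : Finset ι) (F : ι → Fin m → ℝ) (g : Fin m → ℝ) :
    ip (∑ a ∈ s, F a) g = ∑ a ∈ s, ip (F a) g := by
  classical
  induction s using Finset.induction_on with
  | empty => simp [ip_zero_left]
  | insert a s ha ih => rw [sum_insert ha, sum_insert ha, ip_add_left, ih]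

theorem ip_sum_right {ι : Type*} (s : Finset ι) (F : ι → Fin m → ℝ) (g : Fin m → ℝ) :
    ip g (∑ a ∈ s, F a) = ∑ a ∈ s, ip g (F a) := by
  rw [ip_comm, ip_sum_left]; exact sum_congr rfl fun a _ => ip_comm _ _

/-- Cauchy-Schwarz -/
theorem ip_sq_le (f g : Fin m → ℝ) : ip f g ^ 2 ≤ ip f f * ip g g := by
  unfold ip
  rw [div_pow, div_mul_div_comm, ← sq (m : ℝ)]
  apply div_le_div_of_nonneg_right _ (sq_nonneg _)
  have := sum_mul_sq_le_sq_mul_sq univ f g
  simpa [sq] using this

/-! ### the operator -/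

theorem op_add (A : Fin m → Fin m → ℝ) (f g : Fin m → ℝ) : op A (f + g) = op A f + op A g := by
  funext i; simp only [op, Pi.add_apply]; rw [← add_div, ← sum_add_distrib]; congr 1
  exact sum_congr rfl fun j _ => by ring

theorem op_smul (A : Fin m → Fin m → ℝ) (c : ℝ) (f : Fin m → ℝ) :
    op A (c • f) = c • op A f := by
  funext i; simp only [op, Pi.smul_apply, smul_eq_mul]; rw [mul_div_assoc', mul_sum]; congr 1
  exact sum_congr rfl fun j _ => by ring

theorem op_neg (A : Fin m → Fin m → ℝ) (f : Fin m → ℝ) : op A (-f) = - op A f := by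
  have := op_smul A (-1) f; simpa using this

theorem op_sub (A : Fin m → Fin m → ℝ) (f g : Fin m → ℝ) : op A (f - g) = op A f - op A g := by
  rw [sub_eq_add_neg, op_add, op_neg]; rfl

theorem op_zero (A : Fin m → Fin m → ℝ) : op A 0 = 0 := by
  funext i; simp [op]

theorem op_sum (A : Fin m → Fin m → ℝ) {ι : Type*} (s : Finset ι) (F : ι → Fin m → ℝ) :
    op A (∑ a ∈ s, F a) = ∑ a ∈ s, op A (F a) := by
  classical
  induction s using Finset.induction_on with
  | empty => simp [op_zero]
  | insert a s ha ih => rw [sum_insert ha, sum_insert ha, op_add, ih]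

theorem mat_mulVec (A : Fin m → Fin m → ℝ) (f : Fin m → ℝ) : mat A *ᵥ f = op A f := by
  funext i
  have h : ∀ j, mat A i j = A i j / m := fun j => by
    simp only [mat, Matrix.smul_apply, Matrix.of_apply, smul_eq_mul]; ring
  simp only [op, Matrix.mulVec, dotProduct, h]
  rw [sum_div]
  exact sum_congr rfl fun j _ => by ring

/-- antisymmetry in the form sense -/
theorem ip_op (A : Fin m → Fin m → ℝ) (hA : ∀ i j, A j i = - A i j) (f g : Fin m → ℝ) :
    ip f (op A g) = - ip (op A f) g := by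
  unfold ip op
  rw [← neg_div]; congr 1
  have h1 : ∑ i, f i * ((∑ j, A i j * g j) / m) = ∑ i, ∑ j, f i * A i j * g j / m := by
    refine sum_congr rfl fun i _ => ?_
    rw [mul_div_assoc', mul_sum, sum_div]
    exact sum_congr rfl fun j _ => by ring
  have h2 : -∑ i, (∑ j, A i j * f j) / m * g i = ∑ i, ∑ j, - (A i j * f j * g i / m) := by
    rw [← sum_neg_distrib]
    refine sum_congr rfl fun i _ => ?_
    rw [div_mul_eq_mul_div, sum_mul, sum_div, ← sum_neg_distrib]
  rw [h1, h2, sum_comm]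
  refine sum_congr rfl fun i _ => sum_congr rfl fun j _ => ?_
  rw [hA]; ring

theorem ip_op_self (A : Fin m → Fin m → ℝ) (hA : ∀ i j, A j i = - A i j) (f : Fin m → ℝ) :
    ip f (op A f) = 0 := by
  have h := ip_op A hA f f
  rw [ip_comm (op A f) f] at h; linarith

/-! ### polynomials in `-A^2` -/

theorem pol_add_poly (A : Fin m → Fin m → ℝ) (p q : ℝ[X]) (f : Fin m → ℝ) :
    pol A (p + q) f = pol A p f + pol A q f := by
  simp [pol, Matrix.add_mulVec]

theorem pol_sub_poly (A : Fin m → Fin m → ℝ) (p q : ℝ[X]) (f : Fin m → ℝ) :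
    pol A (p - q) f = pol A p f - pol A q f := by
  simp [pol, Matrix.sub_mulVec]

theorem pol_neg_poly (A : Fin m → Fin m → ℝ) (p : ℝ[X]) (f : Fin m → ℝ) :
    pol A (-p) f = - pol A p f := by
  simp [pol, Matrix.neg_mulVec]

theorem pol_zero_poly (A : Fin m → Fin m → ℝ) (f : Fin m → ℝ) : pol A 0 f = 0 := by
  simp [pol]

theorem pol_one (A : Fin m → Fin m → ℝ) (f : Fin m → ℝ) : pol A 1 f = f := by
  simp [pol]

theorem pol_C (A : Fin m → Fin m → ℝ) (c : ℝ) (f : Fin m → ℝ) : pol A (C c) f = c • f := by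
  simp only [pol, aeval_C, Algebra.algebraMap_eq_smul_one, Matrix.smul_mulVec, Matrix.one_mulVec]

theorem pol_mul (A : Fin m → Fin m → ℝ) (p q : ℝ[X]) (f : Fin m → ℝ) :
    pol A (p * q) f = pol A p (pol A q f) := by
  simp [pol, Matrix.mulVec_mulVec]

theorem pol_sum_poly (A : Fin m → Fin m → ℝ) {ι : Type*} (s : Finset ι) (P : ι → ℝ[X])
    (f : Fin m → ℝ) : pol A (∑ a ∈ s, P a) f = ∑ a ∈ s, pol A (P a) f := by
  classical
  induction s using Finset.induction_on with
  | empty => simp [pol_zero_poly]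
  | insert a s ha ih => rw [sum_insert ha, sum_insert ha, pol_add_poly, ih]

theorem pol_add (A : Fin m → Fin m → ℝ) (p : ℝ[X]) (f g : Fin m → ℝ) :
    pol A p (f + g) = pol A p f + pol A p g := by
  simp [pol, Matrix.mulVec_add]

theorem pol_smul (A : Fin m → Fin m → ℝ) (p : ℝ[X]) (c : ℝ) (f : Fin m → ℝ) :
    pol A p (c • f) = c • pol A p f := by
  simp [pol, Matrix.mulVec_smul]

theorem pol_neg (A : Fin m → Fin m → ℝ) (p : ℝ[X]) (f : Fin m → ℝ) :
    pol A p (-f) = - pol A p f := by
  simp [pol, Matrix.mulVec_neg]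

theorem pol_sum (A : Fin m → Fin m → ℝ) (p : ℝ[X]) {ι : Type*} (s : Finset ι)
    (F : ι → Fin m → ℝ) : pol A p (∑ a ∈ s, F a) = ∑ a ∈ s, pol A p (F a) := by
  simp [pol, Matrix.mulVec_sum]

theorem pol_X (A : Fin m → Fin m → ℝ) (f : Fin m → ℝ) : pol A X f = - op A (op A f) := by
  simp only [pol, aeval_X, nmat, Matrix.neg_mulVec, ← Matrix.mulVec_mulVec, mat_mulVec]

theorem pol_X_mul (A : Fin m → Fin m → ℝ) (p : ℝ[X]) (f : Fin m → ℝ) :
    pol A (X * p) f = - op A (op A (pol A p f)) := by
  rw [pol_mul, pol_X]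

/-- `A` commutes with `p(-A^2)` -/
theorem op_pol (A : Fin m → Fin m → ℝ) (p : ℝ[X]) (f : Fin m → ℝ) :
    op A (pol A p f) = pol A p (op A f) := by
  have hc : Commute (mat A) (nmat A) := by
    unfold nmat
    exact ((Commute.refl (mat A)).mul_right (Commute.refl (mat A))).neg_right
  have h : mat A * aeval (nmat A) p = aeval (nmat A) p * mat A := by
    induction p using Polynomial.induction_on' with
    | add p q hp hq => simp only [map_add, mul_add, add_mul, hp, hq]
    | monomial n a =>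
      rw [Polynomial.aeval_monomial]
      have h1 : Commute (mat A) (nmat A ^ n) := hc.pow_right n
      have h2 : Commute (mat A) (algebraMap ℝ (Matrix (Fin m) (Fin m) ℝ) a) :=
        (Algebra.commutes a (mat A)).symm
      exact (h2.mul_right h1)
  rw [← mat_mulVec, ← mat_mulVec]
  unfold pol
  rw [Matrix.mulVec_mulVec, Matrix.mulVec_mulVec, h]

theorem nmat_transpose (A : Fin m → Fin m → ℝ) (hA : ∀ i j, A j i = - A i j) :
    (nmat A)ᵀ = nmat A := by
  have h1 : (mat A)ᵀ = - mat A := by
    ext i j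
    simp only [mat, Matrix.transpose_apply, Matrix.smul_apply, Matrix.of_apply, smul_eq_mul,
      Matrix.neg_apply]
    rw [hA]; ring
  unfold nmat
  rw [Matrix.transpose_neg, Matrix.transpose_mul, h1]
  simp

theorem aeval_transpose (N : Matrix (Fin m) (Fin m) ℝ) (hN : Nᵀ = N) (p : ℝ[X]) :
    (aeval N p)ᵀ = aeval N p := by
  induction p using Polynomial.induction_on' with
  | add p q hp hq => simp only [map_add, Matrix.transpose_add, hp, hq]
  | monomial n a =>
    rw [Polynomial.aeval_monomial, Matrix.transpose_mul, Matrix.transpose_pow, hN]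
    have : (algebraMap ℝ (Matrix (Fin m) (Fin m) ℝ) a)ᵀ = algebraMap ℝ _ a := by
      rw [Algebra.algebraMap_eq_smul_one, Matrix.transpose_smul, Matrix.transpose_one]
    rw [this]
    exact (Algebra.commutes a _).symm

/-- `p(-A^2)` is symmetric -/
theorem ip_pol (A : Fin m → Fin m → ℝ) (hA : ∀ i j, A j i = - A i j) (p : ℝ[X])
    (f g : Fin m → ℝ) : ip f (pol A p g) = ip (pol A p f) g := by
  have h : ∀ f g : Fin m → ℝ, ip f g = (f ⬝ᵥ g) / m := fun f g => rfl
  rw [h, h]; congr 1
  unfold pol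
  rw [Matrix.dotProduct_mulVec, ← Matrix.mulVec_transpose,
    aeval_transpose _ (nmat_transpose A hA)]

/-- `A p(-A^2)` is antisymmetric -/
theorem ip_op_pol_self (A : Fin m → Fin m → ℝ) (hA : ∀ i j, A j i = - A i j) (p : ℝ[X])
    (f : Fin m → ℝ) : ip f (op A (pol A p f)) = 0 := by
  have h1 : ip f (op A (pol A p f)) = - ip (op A f) (pol A p f) := ip_op A hA _ _
  have h2 : ip f (op A (pol A p f)) = ip (pol A p f) (op A f) := by
    rw [op_pol, ip_pol A hA]
  rw [ip_comm (pol A p f)] at h2
  linarith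

/-- the positive functional `I(p) = <beta, p(-A^2) beta>` (for general `f`) -/
noncomputable def mom (A : Fin m → Fin m → ℝ) (f : Fin m → ℝ) (p : ℝ[X]) : ℝ := ip f (pol A p f)

theorem ip_pol_pol (A : Fin m → Fin m → ℝ) (hA : ∀ i j, A j i = - A i j) (p q : ℝ[X])
    (f : Fin m → ℝ) : ip (pol A p f) (pol A q f) = mom A f (p * q) := by
  unfold mom
  rw [pol_mul, ip_pol A hA p]

/-- the inner product of two states `(x + A y) f`, `(x' + A y') f` -/
theorem ip_state (A : Fin m → Fin m → ℝ) (hA : ∀ i j, A j i = - A i j) (x y x' y' : ℝ[X])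
    (f : Fin m → ℝ) :
    ip (pol A x f + op A (pol A y f)) (pol A x' f + op A (pol A y' f)) =
      mom A f (x * x' + X * (y * y')) := by
  have h1 : ip (pol A x f) (op A (pol A y' f)) = 0 := by
    have : ip (pol A x f) (op A (pol A y' f)) = ip f (op A (pol A (x * y') f)) := by
      rw [← ip_pol A hA, ← op_pol, ← pol_mul]
    rw [this, ip_op_pol_self A hA]
  have h2 : ip (op A (pol A y f)) (pol A x' f) = 0 := by
    have : ip (op A (pol A y f)) (pol A x' f) = ip f (op A (pol A (x' * y) f)) := by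
      rw [ip_comm, ← ip_pol A hA, ← op_pol, ← pol_mul]
    rw [this, ip_op_pol_self A hA]
  have h3 : ip (op A (pol A y f)) (op A (pol A y' f)) = mom A f (X * (y * y')) := by
    rw [ip_comm, ip_op A hA]
    have : mom A f (X * (y * y')) = ip f (pol A (y * (X * y')) f) := by
      unfold mom; congr 2; ring
    rw [this, pol_mul, pol_X_mul, ip_pol A hA y f (-op A (op A (pol A y' f))), ip_neg_right,
      ip_comm (pol A y f)]
  rw [ip_add_left, ip_add_right, ip_add_right, h1, h2, h3, ip_pol_pol A hA]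
  unfold mom
  rw [pol_add_poly, ip_add_right]
  ring

end Pool.Agent.TSP
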