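import Pool.Agent.TFL.Euler

/-!
# Torsion spectrum: lattices and a regular element (abstract part)
-/

set_option autoImplicit false

namespace Pool.Agent.TSP

open Submodule Pool.Agent.TFL Polynomial

variable {O : Type*} [CommRing O] [IsDomain O] [IsDiscreteValuationRing O]
variable {K : Type*} [Field K] [Algebra O K] [IsFractionRing O K]
variable {V : Type*} [AddCommGroup V] [Module K V] [Module O V] [IsScalarTower O K V]
variable {Γ : Type*} [Group Γ]

/-- a vector of a lattice divisible by all powers is zero -/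
theorem eq_zero_of_dvd {ϖ : O} (hϖ : Irreducible ϖ) (T : Submodule O V) (hfg : T.FG)
    (hspan : Submodule.span K (T : Set V) = ⊤) (y : V)
    (h : ∀ n : ℕ, ∃ z ∈ T, y = ϖ ^ n • z) : y = 0 := by
  obtain ⟨n, b, hb⟩ := exists_basis (K := K) T hfg hspan
  have h4 : ∀ z ∈ T, ∀ j, ∃ r : O, b.repr z j = algebraMap O K r := by
    intro z hz j
    rw [hb] at hz
    obtain ⟨d, hd⟩ := (Submodule.mem_span_range_iff_exists_fun O).1 hz
    refine ⟨d j, ?_⟩
    rw [← hd, map_sum, Finset.sum_apply', Finset.sum_eq_single j]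
    · rw [← algebraMap_smul K (d j), map_smul]
      simp [Algebra.algebraMap_eq_smul_one]
    · intro i _ hij
      rw [← algebraMap_smul K (d i), map_smul]
      simp [hij]
    · simp
  apply b.ext_elem
  intro j
  rw [map_zero, Finsupp.zero_apply]
  obtain ⟨z0, hz0, hy0⟩ := h 0
  rw [pow_zero, one_smul] at hy0
  obtain ⟨r, hr⟩ := h4 y (hy0 ▸ hz0) j
  have h5 : ∀ k : ℕ, ϖ ^ k ∣ r := by
    intro k
    obtain ⟨z, hz, hyz⟩ := h k
    obtain ⟨s, hs⟩ := h4 z hz j
    refine ⟨s, ?_⟩
    apply IsFractionRing.injective O K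
    rw [← hr, hyz, ← algebraMap_smul K (ϖ ^ k), map_smul, Finsupp.smul_apply, hs, smul_eq_mul,
      map_mul]
  have h6 : r = 0 := by
    by_contra hr0
    obtain ⟨m, u, hu⟩ := IsDiscreteValuationRing.eq_unit_mul_pow_irreducible hr0 hϖ
    obtain ⟨s, hs⟩ := h5 (m + 1)
    rw [hu, pow_succ, mul_assoc, mul_comm (u : O)] at hs
    have h7 := mul_left_cancel₀ (pow_ne_zero m hϖ.ne_zero) hs
    exact hϖ.not_isUnit (isUnit_of_dvd_unit ⟨s, h7⟩ u.isUnit)
  rw [hr, h6, map_zero]

/-- a scalar with all powers bounded is integral -/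
theorem isInt_of_pow (T : Submodule O V) (hfg : T.FG)
    (hspan : Submodule.span K (T : Set V) = ⊤) (y : V) (hy : y ≠ 0) (κ : K)
    (h : ∀ n : ℕ, κ ^ n • y ∈ T) : ∃ c : O, algebraMap O K c = κ := by
  obtain ⟨ϖ, hϖ⟩ := IsDiscreteValuationRing.exists_irreducible O
  rcases ValuationRing.isInteger_or_isInteger O κ with h1 | ⟨c, hc⟩
  · exact h1
  · by_contra hcon
    have hκ : κ ≠ 0 := by
      rintro rfl
      exact hcon ⟨0, map_zero _⟩
    have hcu : ¬ IsUnit c := by
      rintro ⟨u, rfl⟩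
      apply hcon
      refine ⟨(↑u⁻¹ : O), ?_⟩
      have h2 : algebraMap O K (↑u⁻¹ : O) * algebraMap O K (u : O) = 1 := by
        rw [← map_mul, Units.inv_mul, map_one]
      rw [hc] at h2
      field_simp at h2
      exact h2
    have h3 : c ∈ IsLocalRing.maximalIdeal O := hcu
    rw [hϖ.maximalIdeal_eq, Ideal.mem_span_singleton] at h3
    obtain ⟨c', hc'⟩ := h3
    apply hy
    apply eq_zero_of_dvd (K := K) hϖ T hfg hspan
    intro n
    refine ⟨c' ^ n • (κ ^ n • y), T.smul_mem _ (h n), ?_⟩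
    rw [smul_smul, ← mul_pow, ← hc', ← algebraMap_smul K (c ^ n), smul_smul, map_pow, hc,
      ← mul_pow, inv_mul_cancel₀ hκ, one_pow, one_smul]

/-- operators over `O` and over `K` -/
theorem aeval_res (F : V →ₗ[K] V) (Q : O[X]) (v : V) :
    (aeval (F.restrictScalars O) Q) v = (aeval F (Q.map (algebraMap O K))) v := by
  induction Q using Polynomial.induction_on' with
  | add p q hp hq =>
    rw [Polynomial.map_add, map_add, map_add, LinearMap.add_apply, LinearMap.add_apply, hp, hq]
  | monomial n a =>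
    have h : ∀ n : ℕ, ((F.restrictScalars O) ^ n) v = (F ^ n) v := by
      intro n
      induction n with
      | zero => simp
      | succ n ih =>
        rw [pow_succ', pow_succ', Module.End.mul_apply, Module.End.mul_apply, ih]
        rfl
    rw [map_monomial, aeval_monomial, aeval_monomial, Module.End.mul_apply,
      Module.End.mul_apply, Module.algebraMap_end_apply, Module.algebraMap_end_apply, h,
      algebraMap_smul]

/-- solving `(F - c) y ∈ S` -/
theorem mem_of_sub (F : V →ₗ[K] V) (S : Submodule O V) (hS : ∀ x ∈ S, F x ∈ S) (R : O[X])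
    (c : O) (hu : IsUnit (R.eval c)) (y : V)
    (hR : aeval F (R.map (algebraMap O K)) y = 0) (hy : F y - c • y ∈ S) : y ∈ S := by
  obtain ⟨Q, hQ⟩ := X_sub_C_dvd_sub_C_eval (a := c) (p := R)
  have h1 := congrArg (aeval (F.restrictScalars O)) hQ
  rw [map_sub, mul_comm, map_mul, map_sub, aeval_X, aeval_C, aeval_C] at h1
  have h2 := congrArg (fun f : V →ₗ[O] V => f y) h1
  simp only [LinearMap.sub_apply, Module.algebraMap_end_apply,
    Module.End.mul_apply, LinearMap.coe_restrictScalars] at h2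
  rw [aeval_res, hR, zero_sub] at h2
  have h3 := aeval_mem (F.restrictScalars O) S (fun x hx => hS x hx) Q _ hy
  rw [← h2] at h3
  have h4 := S.neg_mem h3
  rw [neg_neg] at h4
  obtain ⟨u, hu⟩ := hu
  have h5 := S.smul_mem (↑u⁻¹ : O) h4
  rwa [← hu, smul_smul, Units.inv_mul, one_smul] at h5

variable {ι : Type*} [Fintype ι] [DecidableEq ι]

/-- the regular element -/
structure Reg (ρ : Γ →* (V →ₗ[K] V)) (a : Γ →* Oˣ) (g₀ : Γ) (b : Module.Basis ι K V)
    (lam : ι → O) (i₀ : ι) : Prop where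
  eig : ∀ s, ρ g₀ (b s) = lam s • b s
  ev : lam i₀ = a g₀
  reg : ∀ S : Finset ι, S.Nonempty → i₀ ∉ S → IsUnit (∏ s ∈ S, lam s - lam i₀ ^ S.card)

section

variable {ρ : Γ →* (V →ₗ[K] V)} {a : Γ →* Oˣ} {g₀ : Γ} {b : Module.Basis ι K V} {lam : ι → O}
  {i₀ : ι}

/-- the polynomial with roots the other eigenvalues -/
noncomputable def RR (lam : ι → O) (i₀ : ι) : O[X] := ∏ s ∈ Finset.univ.erase i₀, (X - C (lam s))

theorem RR_eval (lam : ι → O) (i₀ : ι) (c : O) :
    (RR lam i₀).eval c = ∏ s ∈ Finset.univ.erase i₀, (c - lam s) := by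
  simp [RR, eval_prod]

theorem Reg.isUnit (hr : Reg ρ a g₀ b lam i₀) : IsUnit ((RR lam i₀).eval (lam i₀)) := by
  rw [RR_eval]
  refine IsUnit.prod_iff.2 ?_
  intro s hs
  have h1 := hr.reg {s} (Finset.singleton_nonempty s) (by
    rw [Finset.mem_singleton]
    exact fun h => (Finset.ne_of_mem_erase hs) h.symm)
  rw [Finset.prod_singleton, Finset.card_singleton, pow_one] at h1
  have h2 := h1.neg
  rwa [neg_sub] at h2

theorem aeval_eig (F : V →ₗ[K] V) (v : V) (c : O) (h : F v = c • v) (Q : O[X]) :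
    aeval F (Q.map (algebraMap O K)) v = Q.eval c • v := by
  induction Q using Polynomial.induction_on' with
  | add p q hp hq =>
    rw [Polynomial.map_add, map_add, LinearMap.add_apply, hp, hq, eval_add, add_smul]
  | monomial n r =>
    have h1 : ∀ n : ℕ, (F ^ n) v = c ^ n • v := by
      intro n
      induction n with
      | zero => simp
      | succ n ih =>
        rw [pow_succ', Module.End.mul_apply, ih, ← algebraMap_smul K (c ^ n), map_smul, h,
          algebraMap_smul, smul_smul, pow_succ]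
    rw [map_monomial, aeval_monomial, Module.End.mul_apply, Module.algebraMap_end_apply, h1,
      eval_monomial, algebraMap_smul, smul_smul]

theorem Reg.aeval_apply (hr : Reg ρ a g₀ b lam i₀) (x : V) :
    aeval (ρ g₀) ((RR lam i₀).map (algebraMap O K)) x =
      (RR lam i₀).eval (lam i₀) • (b.repr x i₀ • b i₀) := by
  conv_lhs => rw [← b.sum_repr x, map_sum]
  rw [Finset.sum_eq_single i₀]
  · rw [map_smul, aeval_eig _ _ _ (hr.eig i₀), smul_comm]
  · intro s _ hs
    rw [map_smul, aeval_eig _ _ _ (hr.eig s)]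
    have h1 : (RR lam i₀).eval (lam s) = 0 := by
      rw [RR_eval]
      apply Finset.prod_eq_zero (i := s)
      · exact Finset.mem_erase.2 ⟨hs, Finset.mem_univ _⟩
      · exact sub_self _
    rw [h1, zero_smul, smul_zero]
  · intro h
    exact absurd (Finset.mem_univ _) h

/-- stable submodules contain the components of their elements -/
theorem Reg.proj_mem (hr : Reg ρ a g₀ b lam i₀) (T : Submodule O V)
    (hT : ∀ x ∈ T, ρ g₀ x ∈ T) (x : V) (hx : x ∈ T) : b.repr x i₀ • b i₀ ∈ T := by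
  have h1 := aeval_mem ((ρ g₀).restrictScalars O) T (fun x hx => hT x hx) (RR lam i₀) x hx
  rw [aeval_res, hr.aeval_apply] at h1
  obtain ⟨u, hu⟩ := hr.isUnit
  have h2 := T.smul_mem (↑u⁻¹ : O) h1
  rwa [← hu, smul_smul, Units.inv_mul, one_smul] at h2

/-- the component of a vector with invariant class -/
theorem Reg.inv_mem (hr : Reg ρ a g₀ b lam i₀) (T : Submodule O V)
    (hT : ∀ x ∈ T, ρ g₀ x ∈ T) (v : V) (hv : ρ g₀ v - ((a g₀ : Oˣ) : O) • v ∈ T) :
    v - b.repr v i₀ • b i₀ ∈ T := by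
  apply mem_of_sub (ρ g₀) T hT (RR lam i₀) (lam i₀) hr.isUnit
  · rw [map_sub, hr.aeval_apply, map_smul, aeval_eig _ _ _ (hr.eig i₀), smul_comm, sub_self]
  · have h1 : ρ g₀ (v - b.repr v i₀ • b i₀) - lam i₀ • (v - b.repr v i₀ • b i₀) =
        ρ g₀ v - ((a g₀ : Oˣ) : O) • v := by
      rw [map_sub, map_smul, hr.eig i₀, hr.ev, smul_sub, smul_comm]
      abel
    rw [h1]
    exact hv

end

end Pool.Agent.TSP
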