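import Pool.Agent.TSP.A

/-!
# Torsion spectrum: the lattices with torsion term `O / ϖ^i`
-/

set_option autoImplicit false

namespace Pool.Agent.TSP

open Submodule Pool.Agent.TFL Polynomial

variable {O : Type*} [CommRing O] [IsDomain O] [IsDiscreteValuationRing O]
variable {K : Type*} [Field K] [Algebra O K] [IsFractionRing O K]
variable {V : Type*} [AddCommGroup V] [Module K V] [Module O V] [IsScalarTower O K V]
variable {Γ : Type*} [Group Γ]
variable {ι : Type*} [Fintype ι] [DecidableEq ι]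

/-- the diagonal coefficient of `ρ g` at the distinguished basis vector -/
noncomputable def co (ρ : Γ →* (V →ₗ[K] V)) (b : Module.Basis ι K V) (i₀ : ι) (g : Γ) : K :=
  b.repr (ρ g (b i₀)) i₀

/-- the vectors whose class modulo `T` is an eigenvector with character `a` -/
def InvM (ρ : Γ →* (V →ₗ[K] V)) (a : Γ →* Oˣ) (T : Submodule O V) : Submodule O V :=
  ⨅ σ, T.comap (Nm ρ a σ)

theorem mem_InvM {ρ : Γ →* (V →ₗ[K] V)} {a : Γ →* Oˣ} {T : Submodule O V} {v : V} :
    v ∈ InvM ρ a T ↔ ∀ σ, ρ σ v - ((a σ : Oˣ) : O) • v ∈ T := by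
  simp only [InvM, Submodule.mem_iInf, Submodule.mem_comap, Nm_apply]

theorem le_InvM {ρ : Γ →* (V →ₗ[K] V)} {a : Γ →* Oˣ} {T : Submodule O V}
    (hT : ∀ σ, ∀ x ∈ T, ρ σ x ∈ T) : T ≤ InvM ρ a T := by
  intro x hx
  rw [mem_InvM]
  exact fun σ => T.sub_mem (hT σ x hx) (T.smul_mem _ hx)

/-- the irreducibility of the representation -/
def Irr (ρ : Γ →* (V →ₗ[K] V)) : Prop :=
  ∀ W : Submodule K V, (∀ σ, ∀ x ∈ W, ρ σ x ∈ W) → W = ⊥ ∨ W = ⊤

section

variable {ρ : Γ →* (V →ₗ[K] V)} {a : Γ →* Oˣ} {g₀ : Γ} {b : Module.Basis ι K V} {lam : ι → O}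
  {i₀ : ι}

/-- integrality of the coefficient -/
theorem Reg.co_int (hr : Reg ρ a g₀ b lam i₀) (T : Submodule O V) (hfg : T.FG)
    (hspan : Submodule.span K (T : Set V) = ⊤) (hT : ∀ σ, ∀ x ∈ T, ρ σ x ∈ T) (g : Γ) :
    ∃ c : O, algebraMap O K c = co ρ b i₀ g := by
  obtain ⟨ϖ, hϖ⟩ := IsDiscreteValuationRing.exists_irreducible O
  obtain ⟨m, hm⟩ := exists_pow_mem (K := K) hϖ T hspan (b i₀)
  have hne : ϖ ^ m • b i₀ ≠ 0 := by
    intro h0
    apply b.ne_zero i₀
    apply smul_inj (K := K) hϖ m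
    rw [h0, smul_zero]
  apply isInt_of_pow T hfg hspan _ hne
  intro n
  induction n with
  | zero => simpa using hm
  | succ n ih =>
    have h1 := hr.proj_mem T (hT g₀) _ (hT g _ ih)
    have h2 : b.repr (ρ g (co ρ b i₀ g ^ n • ϖ ^ m • b i₀)) i₀ • b i₀ =
        co ρ b i₀ g ^ (n + 1) • ϖ ^ m • b i₀ := by
      rw [map_smul, ← algebraMap_smul K (ϖ ^ m), map_smul, map_smul, map_smul,
        Finsupp.smul_apply, Finsupp.smul_apply, smul_eq_mul, smul_eq_mul, smul_smul]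
      change (co ρ b i₀ g ^ n * (algebraMap O K (ϖ ^ m) * co ρ b i₀ g)) • b i₀ = _
      congr 1
      ring
    rwa [h2] at h1

/-- the congruence modulo `ϖ^i` -/
def Cong (ϖ : O) (ρ : Γ →* (V →ₗ[K] V)) (a : Γ →* Oˣ) (b : Module.Basis ι K V) (i₀ : ι)
    (i : ℕ) : Prop :=
  ∀ g, ∃ r : O, co ρ b i₀ g - algebraMap O K ((a g : Oˣ) : O) = algebraMap O K (ϖ ^ i * r)

/-- the off-diagonal part of the module generated by the distinguished vector -/
def CC (O : Type*) [CommRing O] [Module O V] (ρ : Γ →* (V →ₗ[K] V)) (b : Module.Basis ι K V)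
    (i₀ : ι) : Submodule O V :=
  Submodule.span O (Set.range fun g => ρ g (b i₀) - co ρ b i₀ g • b i₀)

/-- the module generated by the distinguished vector -/
def T1 (O : Type*) [CommRing O] [Module O V] (ρ : Γ →* (V →ₗ[K] V)) (b : Module.Basis ι K V)
    (i₀ : ι) : Submodule O V :=
  Submodule.span O (Set.range fun g => ρ g (b i₀))

theorem CC_repr {y : V} (hy : y ∈ CC O ρ b i₀) : b.repr y i₀ = 0 := by
  induction hy using Submodule.span_induction with
  | mem y hy =>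
    obtain ⟨g, rfl⟩ := hy
    simp [co]
  | zero => simp
  | add x y _ _ hx hy => rw [map_add, Finsupp.add_apply, hx, hy, add_zero]
  | smul c y _ hy =>
    rw [← algebraMap_smul K c, map_smul, Finsupp.smul_apply, hy, smul_zero]

theorem CC_stab (hco : ∀ g, ∃ c : O, algebraMap O K c = co ρ b i₀ g) (g : Γ) {y : V}
    (hy : y ∈ CC O ρ b i₀) : ρ g y - b.repr (ρ g y) i₀ • b i₀ ∈ CC O ρ b i₀ := by
  induction hy using Submodule.span_induction with
  | mem y hy =>
    obtain ⟨h, rfl⟩ := hy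
    obtain ⟨c, hc⟩ := hco h
    have h1 : (ρ (g * h) (b i₀) - co ρ b i₀ (g * h) • b i₀) -
        c • (ρ g (b i₀) - co ρ b i₀ g • b i₀) ∈ CC O ρ b i₀ :=
      Submodule.sub_mem _ (Submodule.subset_span ⟨_, rfl⟩)
        (Submodule.smul_mem _ _ (Submodule.subset_span ⟨_, rfl⟩))
    convert h1 using 1
    have h2 : ρ g (ρ h (b i₀)) = ρ (g * h) (b i₀) := by rw [map_mul]; rfl
    simp only [map_sub, map_smul, Finsupp.sub_apply, Finsupp.smul_apply, smul_eq_mul, h2]
    rw [← algebraMap_smul K c, hc]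
    change _ - (co ρ b i₀ (g * h) - co ρ b i₀ h * co ρ b i₀ g) • b i₀ = _
    module
  | zero => simp
  | add x y _ _ hx hy =>
    have := Submodule.add_mem _ hx hy
    convert this using 1
    simp only [map_add, Finsupp.add_apply]
    module
  | smul c y _ hy =>
    have := Submodule.smul_mem _ c hy
    convert this using 1
    rw [← algebraMap_smul K c y, map_smul, map_smul, Finsupp.smul_apply, smul_eq_mul,
      ← algebraMap_smul K c]
    module

theorem Cong.repr {ϖ : O} {i : ℕ} (hC : Cong ϖ ρ a b i₀ i) (g : Γ) {y : V}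
    (hy : y ∈ CC O ρ b i₀) : ∃ r : O, b.repr (ρ g y) i₀ = algebraMap O K (ϖ ^ i * r) := by
  induction hy using Submodule.span_induction with
  | mem y hy =>
    obtain ⟨h, rfl⟩ := hy
    obtain ⟨r1, h1⟩ := hC g
    obtain ⟨r2, h2⟩ := hC h
    obtain ⟨r3, h3⟩ := hC (g * h)
    have h4 : ρ g (ρ h (b i₀)) = ρ (g * h) (b i₀) := by rw [map_mul]; rfl
    rw [map_sub, map_smul, h4, map_sub, map_smul, Finsupp.sub_apply, Finsupp.smul_apply,
      smul_eq_mul]
    change ∃ r : O, co ρ b i₀ (g * h) - co ρ b i₀ h * co ρ b i₀ g = _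
    refine ⟨r3 - r1 * a h - r2 * a g - ϖ ^ i * r1 * r2, ?_⟩
    have e1 : co ρ b i₀ g = algebraMap O K (a g) + algebraMap O K (ϖ ^ i * r1) := by
      rw [← h1]; ring
    have e2 : co ρ b i₀ h = algebraMap O K (a h) + algebraMap O K (ϖ ^ i * r2) := by
      rw [← h2]; ring
    have e3 : co ρ b i₀ (g * h) = algebraMap O K (a (g * h)) + algebraMap O K (ϖ ^ i * r3) := by
      rw [← h3]; ring
    rw [e1, e2, e3, map_mul a, Units.val_mul]
    simp only [map_mul, map_sub, map_pow]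
    ring
  | zero => exact ⟨0, by simp⟩
  | add x y _ _ hx hy =>
    obtain ⟨r, hr⟩ := hx
    obtain ⟨s, hs⟩ := hy
    refine ⟨r + s, ?_⟩
    rw [map_add, map_add, Finsupp.add_apply, hr, hs, ← map_add, mul_add]
  | smul c y _ hy =>
    obtain ⟨r, hr⟩ := hy
    refine ⟨c * r, ?_⟩
    rw [← algebraMap_smul K c y, map_smul, map_smul, Finsupp.smul_apply, hr, smul_eq_mul,
      ← map_mul]
    congr 1
    ring

/-- the lattice with torsion term `O / ϖ^i` -/
def TI (ϖ : O) (ρ : Γ →* (V →ₗ[K] V)) (b : Module.Basis ι K V) (i₀ : ι) (i : ℕ) :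
    Submodule O V where
  carrier := {x | (∃ c : O, algebraMap O K c = b.repr x i₀) ∧
    ϖ ^ i • (x - b.repr x i₀ • b i₀) ∈ CC O ρ b i₀}
  add_mem' := by
    rintro x y ⟨⟨c, hc⟩, hx⟩ ⟨⟨d, hd⟩, hy⟩
    refine ⟨⟨c + d, by rw [map_add, map_add, Finsupp.add_apply, hc, hd]⟩, ?_⟩
    have := Submodule.add_mem _ hx hy
    convert this using 1
    rw [← smul_add]
    congr 1
    simp only [map_add, Finsupp.add_apply]
    module
  zero_mem' := ⟨⟨0, by simp⟩, by simp⟩
  smul_mem' := by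
    rintro r x ⟨⟨c, hc⟩, hx⟩
    refine ⟨⟨r * c, ?_⟩, ?_⟩
    · rw [← algebraMap_smul K r, map_smul, Finsupp.smul_apply, smul_eq_mul, map_mul, hc]
    · have := Submodule.smul_mem _ r hx
      convert this using 1
      rw [smul_comm r]
      congr 1
      rw [← algebraMap_smul K r x, map_smul, Finsupp.smul_apply, smul_eq_mul,
        ← algebraMap_smul K r]
      module

theorem mem_TI {ϖ : O} {i : ℕ} {x : V} : x ∈ TI ϖ ρ b i₀ i ↔
    (∃ c : O, algebraMap O K c = b.repr x i₀) ∧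
      ϖ ^ i • (x - b.repr x i₀ • b i₀) ∈ CC O ρ b i₀ := Iff.rfl

theorem TI_stab (hco : ∀ g, ∃ c : O, algebraMap O K c = co ρ b i₀ g) {ϖ : O}
    (hϖ : Irreducible ϖ) {i : ℕ} (hC : Cong ϖ ρ a b i₀ i) (g : Γ) {x : V}
    (hx : x ∈ TI ϖ ρ b i₀ i) : ρ g x ∈ TI ϖ ρ b i₀ i := by
  obtain ⟨⟨c, hc⟩, hx⟩ := hx
  set y := x - b.repr x i₀ • b i₀ with hy
  have hxy : x = c • b i₀ + y := by
    rw [hy, ← hc, algebraMap_smul]
    abel
  obtain ⟨r, hr⟩ := hC.repr g hx
  have h1 : b.repr (ρ g y) i₀ = algebraMap O K r := by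
    rw [← algebraMap_smul K (ϖ ^ i) y, map_smul, map_smul, Finsupp.smul_apply, smul_eq_mul,
      map_mul] at hr
    exact mul_left_cancel₀ ((map_ne_zero_iff _ (IsFractionRing.injective O K)).2
      (pow_ne_zero i hϖ.ne_zero)) hr
  obtain ⟨d, hd⟩ := hco g
  have h2 : b.repr (ρ g x) i₀ = algebraMap O K (c * d + r) := by
    rw [hxy, map_add, map_add, Finsupp.add_apply, h1, ← algebraMap_smul K c, map_smul, map_smul,
      Finsupp.smul_apply, smul_eq_mul]
    change algebraMap O K c * co ρ b i₀ g + _ = _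
    rw [← hd, map_add, map_mul]
  refine ⟨⟨_, h2.symm⟩, ?_⟩
  have h3 : ρ g x - b.repr (ρ g x) i₀ • b i₀ = c • (ρ g (b i₀) - co ρ b i₀ g • b i₀) +
      (ρ g y - b.repr (ρ g y) i₀ • b i₀) := by
    rw [h2, h1, hxy, map_add, ← algebraMap_smul K c, map_smul, ← hd, map_add, map_mul,
      ← algebraMap_smul K c (_ - _)]
    module
  rw [h3, smul_add]
  refine Submodule.add_mem _ (Submodule.smul_mem _ _ (Submodule.smul_mem _ _
    (Submodule.subset_span ⟨g, rfl⟩))) ?_
  have h4 := CC_stab hco g hx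
  rw [← algebraMap_smul K (ϖ ^ i) y, map_smul, map_smul, Finsupp.smul_apply, smul_eq_mul,
    mul_smul, algebraMap_smul, algebraMap_smul, ← smul_sub] at h4
  exact h4

theorem mem_TI_gen (hco : ∀ g, ∃ c : O, algebraMap O K c = co ρ b i₀ g) (ϖ : O) (i : ℕ)
    (g : Γ) : ρ g (b i₀) ∈ TI ϖ ρ b i₀ i :=
  ⟨hco g, Submodule.smul_mem _ _ (Submodule.subset_span ⟨g, rfl⟩)⟩

theorem gen_mem_T1 (g : Γ) : ρ g (b i₀) ∈ T1 O ρ b i₀ := Submodule.subset_span ⟨g, rfl⟩

theorem e_mem_T1 : b i₀ ∈ T1 O ρ b i₀ := by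
  have := gen_mem_T1 (O := O) (ρ := ρ) (b := b) (i₀ := i₀) 1
  simpa using this

theorem CC_le_T1 (hco : ∀ g, ∃ c : O, algebraMap O K c = co ρ b i₀ g) :
    CC O ρ b i₀ ≤ T1 O ρ b i₀ := by
  refine Submodule.span_le.2 ?_
  rintro _ ⟨g, rfl⟩
  obtain ⟨c, hc⟩ := hco g
  refine Submodule.sub_mem _ (gen_mem_T1 g) ?_
  change co ρ b i₀ g • b i₀ ∈ _
  rw [← hc, algebraMap_smul]
  exact Submodule.smul_mem _ _ e_mem_T1

theorem TI_le (hco : ∀ g, ∃ c : O, algebraMap O K c = co ρ b i₀ g) (ϖ : O) (i : ℕ) {x : V}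
    (hx : x ∈ TI ϖ ρ b i₀ i) : ϖ ^ i • x ∈ T1 O ρ b i₀ := by
  obtain ⟨⟨c, hc⟩, hx⟩ := hx
  have h1 := CC_le_T1 hco hx
  rw [← hc, algebraMap_smul] at h1
  have h2 : ϖ ^ i • x = ϖ ^ i • (x - c • b i₀) + (ϖ ^ i * c) • b i₀ := by
    rw [smul_sub, mul_smul]
    abel
  rw [h2]
  exact Submodule.add_mem _ h1 (Submodule.smul_mem _ _ e_mem_T1)

theorem T1_fg (T : Submodule O V) (hfg : T.FG) (hspan : Submodule.span K (T : Set V) = ⊤)
    (hT : ∀ σ, ∀ x ∈ T, ρ σ x ∈ T) : (T1 O ρ b i₀).FG := by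
  obtain ⟨ϖ, hϖ⟩ := IsDiscreteValuationRing.exists_irreducible O
  obtain ⟨m, hm⟩ := exists_pow_mem (K := K) hϖ T hspan (b i₀)
  apply fg_of_bounded (K := K) hϖ T _ hfg m
  intro y hy
  induction hy using Submodule.span_induction with
  | mem y hy =>
    obtain ⟨g, rfl⟩ := hy
    have := hT g _ hm
    rwa [smul_comm_rho] at this
  | zero => simp
  | add x y _ _ hx hy => rw [smul_add]; exact T.add_mem hx hy
  | smul c y _ hy => rw [smul_comm]; exact T.smul_mem c hy

theorem TI_fg (hco : ∀ g, ∃ c : O, algebraMap O K c = co ρ b i₀ g) {ϖ : O}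
    (hϖ : Irreducible ϖ) (i : ℕ) (h1 : (T1 O ρ b i₀).FG) : (TI ϖ ρ b i₀ i).FG :=
  fg_of_bounded (K := K) hϖ _ _ h1 i fun _ hy => TI_le hco ϖ i hy

theorem span_gen (hirr : Irr ρ) (S : Submodule O V) (hS : ∀ g, ρ g (b i₀) ∈ S) :
    Submodule.span K (S : Set V) = ⊤ := by
  have h1 : Submodule.span K (Set.range fun g => ρ g (b i₀)) = ⊤ := by
    rcases hirr (Submodule.span K (Set.range fun g => ρ g (b i₀))) (by
      intro σ x hx
      induction hx using Submodule.span_induction with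
      | mem x hx =>
        obtain ⟨g, rfl⟩ := hx
        apply Submodule.subset_span
        refine ⟨σ * g, ?_⟩
        simp only [map_mul]
        rfl
      | zero => simp
      | add x y _ _ hx hy => rw [map_add]; exact Submodule.add_mem _ hx hy
      | smul c y _ hy => rw [map_smul]; exact Submodule.smul_mem _ c hy) with h | h
    · exfalso
      have h2 : b i₀ ∈ Submodule.span K (Set.range fun g => ρ g (b i₀)) := by
        apply Submodule.subset_span
        exact ⟨1, by simp⟩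
      rw [h, Submodule.mem_bot] at h2
      exact b.ne_zero i₀ h2
    · exact h
  rw [eq_top_iff, ← h1]
  apply Submodule.span_mono
  rintro _ ⟨g, rfl⟩
  exact hS g

/-- in dimension at least two the off-diagonal part is not zero -/
theorem CC_ne (hirr : Irr ρ) {j : ι} (hj : j ≠ i₀) :
    ∃ g, ρ g (b i₀) - co ρ b i₀ g • b i₀ ≠ 0 := by
  by_contra hcon
  push Not at hcon
  rcases hirr (Submodule.span K {b i₀}) (by
    intro σ x hx
    obtain ⟨c, rfl⟩ := Submodule.mem_span_singleton.1 hx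
    rw [map_smul, sub_eq_zero.1 (hcon σ), smul_smul]
    exact Submodule.mem_span_singleton.2 ⟨_, rfl⟩) with h | h
  · rw [Submodule.span_singleton_eq_bot] at h
    exact b.ne_zero i₀ h
  · have h2 : b j ∈ Submodule.span K {b i₀} := by rw [h]; trivial
    obtain ⟨c, hc⟩ := Submodule.mem_span_singleton.1 h2
    have h3 := congrArg (fun v => b.repr v j) hc
    simp [hj] at h3

end

end Pool.Agent.TSP
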