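import Pool.Agent.TSP.B

/-!
# Torsion spectrum: the torsion term of a lattice
-/

set_option autoImplicit false

namespace Pool.Agent.TSP

open Submodule Pool.Agent.TFL Polynomial

variable {O : Type*} [CommRing O] [IsDomain O] [IsDiscreteValuationRing O]
variable {K : Type*} [Field K] [Algebra O K] [IsFractionRing O K]
variable {V : Type*} [AddCommGroup V] [Module K V] [Module O V] [IsScalarTower O K V]
variable {Γ : Type*} [Group Γ]
variable {ι : Type*} [Fintype ι] [DecidableEq ι]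

theorem quot_equiv (T S : Submodule O V) (w : V) (hS : S = T ⊔ Submodule.span O {w}) (c0 : O)
    (hw : ∀ c : O, c • w ∈ T ↔ c0 ∣ c) :
    Nonempty (S.map T.mkQ ≃ₗ[O] O ⧸ Ideal.span {c0}) := by
  have hwS : ∀ c : O, c • w ∈ S := by
    intro c
    rw [hS]
    exact Submodule.mem_sup_right (Submodule.smul_mem _ _ (Submodule.mem_span_singleton_self w))
  let f : O →ₗ[O] S.map T.mkQ :=
    { toFun := fun c => ⟨T.mkQ (c • w), ⟨_, hwS c, rfl⟩⟩
      map_add' := fun x y => by
        apply Subtype.ext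
        simp [add_smul]
      map_smul' := fun x y => by
        apply Subtype.ext
        simp [mul_smul] }
  have hf : Function.Surjective f := by
    rintro ⟨_, ⟨s, hs, rfl⟩⟩
    have hs' : s ∈ T ⊔ Submodule.span O {w} := hS ▸ hs
    obtain ⟨t, ht, z, hz, rfl⟩ := Submodule.mem_sup.1 hs'
    obtain ⟨c, rfl⟩ := Submodule.mem_span_singleton.1 hz
    refine ⟨c, ?_⟩
    apply Subtype.ext
    change T.mkQ (c • w) = T.mkQ (t + c • w)
    rw [map_add, (Submodule.Quotient.mk_eq_zero T).2 ht |> (id : T.mkQ t = 0 → T.mkQ t = 0),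
      zero_add]
  have hk : LinearMap.ker f = Ideal.span {c0} := by
    ext c
    rw [LinearMap.mem_ker, Ideal.mem_span_singleton, ← hw c]
    constructor
    · intro h
      have h1 := congrArg Subtype.val h
      exact (Submodule.Quotient.mk_eq_zero T).1 h1
    · intro h
      apply Subtype.ext
      exact (Submodule.Quotient.mk_eq_zero T).2 h
  exact ⟨(f.quotKerEquivOfSurjective hf).symm.trans (Submodule.quotEquivOfEq _ _ hk)⟩

theorem exists_gen (L : Submodule O K) (h : L.FG) : ∃ x : K, L = Submodule.span O {x} := by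
  let J : FractionalIdeal (nonZeroDivisors O) K := ⟨L, FractionalIdeal.isFractional_of_fg h⟩
  obtain ⟨x, hx⟩ := FractionalIdeal.isPrincipal J
  exact ⟨x, hx⟩

section

variable {ρ : Γ →* (V →ₗ[K] V)} {a : Γ →* Oˣ} {g₀ : Γ} {b : Module.Basis ι K V} {lam : ι → O}
  {i₀ : ι}

/-- the multiples of the distinguished vector in a submodule -/
noncomputable def Lin (b : Module.Basis ι K V) (i₀ : ι) (T : Submodule O V) : Submodule O K :=
  T.comap ((LinearMap.toSpanSingleton K V (b i₀)).restrictScalars O)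

theorem mem_Lin {T : Submodule O V} {κ : K} : κ ∈ Lin b i₀ T ↔ κ • b i₀ ∈ T := Iff.rfl

theorem Lin_fg (T : Submodule O V) (hfg : T.FG) : (Lin b i₀ T).FG := by
  have : Module.Finite O T := Module.Finite.iff_fg.2 hfg
  have hnoeth : IsNoetherian O T := inferInstance
  let f : Lin b i₀ T →ₗ[O] T :=
    { toFun := fun y => ⟨(y : K) • b i₀, y.2⟩
      map_add' := fun x y => by apply Subtype.ext; simp [add_smul]
      map_smul' := fun a x => by apply Subtype.ext; simp [smul_assoc] }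
  have hf : Function.Injective f := by
    intro x y hxy
    apply Subtype.ext
    exact smul_left_injective K (b.ne_zero i₀) (congrArg Subtype.val hxy)
  have : IsNoetherian O (Lin b i₀ T) := isNoetherian_of_injective f hf
  exact Module.Finite.iff_fg.1 inferInstance

theorem Reg.sub_mem_Lin (hr : Reg ρ a g₀ b lam i₀) {T : Submodule O V}
    (hT : ∀ σ, ∀ x ∈ T, ρ σ x ∈ T) {κ : K} (hκ : κ ∈ Lin b i₀ (InvM ρ a T)) (g : Γ) :
    (co ρ b i₀ g - algebraMap O K ((a g : Oˣ) : O)) * κ ∈ Lin b i₀ T := by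
  rw [mem_Lin] at hκ ⊢
  rw [mem_InvM] at hκ
  have h1 := hr.proj_mem T (hT g₀) _ (hκ g)
  have h2 : b.repr (ρ g (κ • b i₀) - ((a g : Oˣ) : O) • κ • b i₀) i₀ =
      (co ρ b i₀ g - algebraMap O K ((a g : Oˣ) : O)) * κ := by
    rw [map_smul, map_sub, map_smul, ← algebraMap_smul K ((a g : Oˣ) : O), map_smul, map_smul,
      Finsupp.sub_apply, Finsupp.smul_apply, Finsupp.smul_apply, Finsupp.smul_apply, b.repr_self,
      Finsupp.single_eq_same]
    simp only [smul_eq_mul]
    change κ * co ρ b i₀ g - _ = _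
    ring
  rwa [h2] at h1

/-- the torsion term of a stable lattice -/
theorem Reg.torsion_term (hr : Reg ρ a g₀ b lam i₀) {ϖ : O} (hϖ : Irreducible ϖ)
    (T : Submodule O V) (hfg : T.FG) (hspan : Submodule.span K (T : Set V) = ⊤)
    (hT : ∀ σ, ∀ x ∈ T, ρ σ x ∈ T) (g : Γ)
    (hg : co ρ b i₀ g ≠ algebraMap O K ((a g : Oˣ) : O)) :
    ∃ i : ℕ, Cong ϖ ρ a b i₀ i ∧
      Nonempty ((InvM ρ a T).map T.mkQ ≃ₗ[O] O ⧸ Ideal.span {ϖ ^ i}) := by
  have hle : T ≤ InvM ρ a T := le_InvM hT
  obtain ⟨l, hl⟩ := exists_gen (Lin b i₀ T) (Lin_fg T hfg)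
  have hI : (Lin b i₀ (InvM ρ a T)).FG := by
    have h1 : (Submodule.map (LinearMap.lsmul K K
        (co ρ b i₀ g - algebraMap O K ((a g : Oˣ) : O)) |>.restrictScalars O)
        (Lin b i₀ (InvM ρ a T))) ≤ Lin b i₀ T := by
      rintro _ ⟨κ, hκ, rfl⟩
      exact hr.sub_mem_Lin hT hκ g
    have h2 : Module.Finite O (Lin b i₀ T) := Module.Finite.iff_fg.2 (Lin_fg T hfg)
    have h3 : IsNoetherian O (Lin b i₀ T) := inferInstance
    apply Submodule.fg_of_fg_map_injective
      (LinearMap.lsmul K K (co ρ b i₀ g - algebraMap O K ((a g : Oˣ) : O)) |>.restrictScalars O)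
    · intro x y hxy
      exact mul_left_cancel₀ (sub_ne_zero.2 hg) hxy
    · have h4 := (isNoetherian_submodule.1 h3) _ h1
      exact h4
  obtain ⟨k, hk⟩ := exists_gen _ hI
  obtain ⟨m, hm⟩ := exists_pow_mem (K := K) hϖ T hspan (b i₀)
  have hm' : algebraMap O K (ϖ ^ m) ∈ Lin b i₀ T := by
    rw [mem_Lin, algebraMap_smul]
    exact hm
  have hϖK : ∀ n, algebraMap O K (ϖ ^ n) ≠ 0 := fun n =>
    (map_ne_zero_iff _ (IsFractionRing.injective O K)).2 (pow_ne_zero n hϖ.ne_zero)
  have hLI : Lin b i₀ T ≤ Lin b i₀ (InvM ρ a T) := Submodule.comap_mono hle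
  have hk0 : k ≠ 0 := by
    rintro rfl
    have h5 := hLI hm'
    rw [hk, Submodule.span_zero_singleton, Submodule.mem_bot] at h5
    exact hϖK m h5
  have hl0 : l ≠ 0 := by
    rintro rfl
    rw [hl, Submodule.span_zero_singleton, Submodule.mem_bot] at hm'
    exact hϖK m hm'
  have hlI : l ∈ Lin b i₀ (InvM ρ a T) := hLI (by
    rw [hl]; exact Submodule.mem_span_singleton_self l)
  rw [hk] at hlI
  obtain ⟨c, hc⟩ := Submodule.mem_span_singleton.1 hlI
  have hc0 : c ≠ 0 := by
    rintro rfl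
    rw [zero_smul] at hc
    exact hl0 hc.symm
  obtain ⟨i, u, hu⟩ := IsDiscreteValuationRing.eq_unit_mul_pow_irreducible hc0 hϖ
  have hmem : ∀ d : K, d * k ∈ Lin b i₀ T ↔ ∃ r : O, d = algebraMap O K (ϖ ^ i * r) := by
    intro d
    rw [hl, Submodule.mem_span_singleton]
    constructor
    · rintro ⟨r, hr'⟩
      refine ⟨u * r, ?_⟩
      rw [← hc, smul_smul, Algebra.smul_def] at hr'
      have h6 := mul_right_cancel₀ hk0 hr'
      rw [← h6, hu]
      congr 1
      ring
    · rintro ⟨r, rfl⟩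
      refine ⟨(↑u⁻¹ : O) * r, ?_⟩
      rw [← hc, smul_smul, Algebra.smul_def]
      congr 2
      rw [hu]
      have h7 : (↑u⁻¹ : O) * u = 1 := Units.inv_mul u
      linear_combination (r * ϖ ^ i) * h7
  have hkI : k ∈ Lin b i₀ (InvM ρ a T) := by
    rw [hk]; exact Submodule.mem_span_singleton_self k
  refine ⟨i, fun g => ?_, ?_⟩
  · exact (hmem _).1 (hr.sub_mem_Lin hT hkI g)
  · apply quot_equiv T _ (k • b i₀)
    · apply le_antisymm
      · intro v hv
        have h8 := hr.inv_mem T (hT g₀) v (mem_InvM.1 hv g₀)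
        have h9 : b.repr v i₀ ∈ Lin b i₀ (InvM ρ a T) := by
          rw [mem_Lin]
          have := (InvM ρ a T).sub_mem hv (hle h8)
          simpa using this
        rw [hk] at h9
        obtain ⟨d, hd⟩ := Submodule.mem_span_singleton.1 h9
        have h10 : v = (v - b.repr v i₀ • b i₀) + d • k • b i₀ := by
          rw [← hd, smul_assoc]
          abel
        rw [h10]
        exact Submodule.add_mem_sup h8
          (Submodule.smul_mem _ _ (Submodule.mem_span_singleton_self _))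
      · refine sup_le hle ?_
        rw [Submodule.span_singleton_le_iff_mem]
        exact hkI
    · intro d
      have h11 : d • k • b i₀ ∈ T ↔ algebraMap O K d * k ∈ Lin b i₀ T := by
        rw [mem_Lin, mul_smul, algebraMap_smul]
      rw [h11, hmem]
      constructor
      · rintro ⟨r, hr'⟩
        exact ⟨r, IsFractionRing.injective O K hr'⟩
      · rintro ⟨r, rfl⟩
        exact ⟨r, rfl⟩

/-- the lattices `TI` -/
theorem Reg.TI_term (hr : Reg ρ a g₀ b lam i₀) {ϖ : O} (hϖ : Irreducible ϖ) (hirr : Irr ρ)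
    {j : ι} (hj : j ≠ i₀) (T : Submodule O V) (hfg : T.FG)
    (hspan : Submodule.span K (T : Set V) = ⊤)
    (hT : ∀ σ, ∀ x ∈ T, ρ σ x ∈ T) (i : ℕ) (hC : Cong ϖ ρ a b i₀ i) :
    ∃ T' : Submodule O V, T'.FG ∧ Submodule.span K (T' : Set V) = ⊤ ∧
      (∀ σ, ∀ x ∈ T', ρ σ x ∈ T') ∧
      Nonempty ((InvM ρ a T').map T'.mkQ ≃ₗ[O] O ⧸ Ideal.span {ϖ ^ i}) := by
  have hco := hr.co_int T hfg hspan hT
  have hT1 : (T1 O ρ b i₀).FG := T1_fg T hfg hspan hT
  have hst : ∀ σ, ∀ x ∈ TI ϖ ρ b i₀ i, ρ σ x ∈ TI ϖ ρ b i₀ i :=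
    fun σ x hx => TI_stab hco hϖ hC σ hx
  have hle := le_InvM (a := a) hst
  have hϖK : algebraMap O K (ϖ ^ i) ≠ 0 :=
    (map_ne_zero_iff _ (IsFractionRing.injective O K)).2 (pow_ne_zero i hϖ.ne_zero)
  have hspan1 : Submodule.span K (T1 O ρ b i₀ : Set V) = ⊤ :=
    span_gen hirr _ (fun g => gen_mem_T1 g)
  refine ⟨TI ϖ ρ b i₀ i, TI_fg hco hϖ i hT1, span_gen hirr _ (mem_TI_gen hco ϖ i), hst, ?_⟩
  -- scalar multiples of the distinguished vector
  have hL : ∀ κ : K, κ • b i₀ ∈ TI ϖ ρ b i₀ i ↔ ∃ c : O, algebraMap O K c = κ := by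
    intro κ
    rw [mem_TI]
    simp
  set w : V := (algebraMap O K (ϖ ^ i))⁻¹ • b i₀ with hw
  have hwI : w ∈ InvM ρ a (TI ϖ ρ b i₀ i) := by
    rw [mem_InvM]
    intro g
    obtain ⟨r, hr'⟩ := hC g
    have h1 : ρ g w - ((a g : Oˣ) : O) • w = (algebraMap O K (ϖ ^ i))⁻¹ •
        (ρ g (b i₀) - co ρ b i₀ g • b i₀) + r • b i₀ := by
      have h2 : co ρ b i₀ g = algebraMap O K ((a g : Oˣ) : O) + algebraMap O K (ϖ ^ i * r) := by
        rw [← hr']; ring
      have h3 : (algebraMap O K (ϖ ^ i))⁻¹ * algebraMap O K (ϖ ^ i * r) = algebraMap O K r := by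
        rw [map_mul, inv_mul_cancel_left₀ hϖK]
      rw [hw, map_smul, h2, ← algebraMap_smul K ((a g : Oˣ) : O), ← algebraMap_smul K r, ← h3]
      module
    rw [h1]
    refine Submodule.add_mem _ ?_ ?_
    · rw [mem_TI]
      have h4 : b.repr ((algebraMap O K (ϖ ^ i))⁻¹ • (ρ g (b i₀) - co ρ b i₀ g • b i₀)) i₀
          = 0 := by
        rw [map_smul, Finsupp.smul_apply,
          CC_repr (O := O) (Submodule.subset_span ⟨g, rfl⟩), smul_zero]
      rw [h4]
      refine ⟨⟨0, map_zero _⟩, ?_⟩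
      rw [zero_smul, sub_zero, ← algebraMap_smul K (ϖ ^ i), smul_smul, mul_inv_cancel₀ hϖK,
        one_smul]
      exact Submodule.subset_span ⟨g, rfl⟩
    · rw [← algebraMap_smul K r]
      exact (hL _).2 ⟨r, rfl⟩
  have hIn : ∀ κ : K, κ • b i₀ ∈ InvM ρ a (TI ϖ ρ b i₀ i) →
      ∃ c : O, algebraMap O K c = algebraMap O K (ϖ ^ i) * κ := by
    intro κ hκ
    rw [mem_InvM] at hκ
    obtain ⟨g1, hg1⟩ := CC_ne (i₀ := i₀) hirr hj
    apply isInt_of_pow (T1 O ρ b i₀) hT1 hspan1 _ hg1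
    have h5 : ∀ y ∈ CC O ρ b i₀, (algebraMap O K (ϖ ^ i) * κ) • y ∈ CC O ρ b i₀ := by
      intro y hy
      induction hy using Submodule.span_induction with
      | mem y hy =>
        obtain ⟨g, rfl⟩ := hy
        have h6 := (hκ g).2
        have h7 : b.repr (ρ g (κ • b i₀) - ((a g : Oˣ) : O) • κ • b i₀) i₀ =
            κ * co ρ b i₀ g - algebraMap O K ((a g : Oˣ) : O) * κ := by
          rw [map_sub, map_smul, ← algebraMap_smul K ((a g : Oˣ) : O), map_smul, map_smul,
            map_smul, Finsupp.sub_apply, Finsupp.smul_apply, Finsupp.smul_apply,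
            Finsupp.smul_apply, b.repr_self, Finsupp.single_eq_same]
          simp [co]
        rw [h7] at h6
        convert h6 using 1
        rw [map_smul, ← algebraMap_smul K ((a g : Oˣ) : O), ← algebraMap_smul K (ϖ ^ i)]
        module
      | zero => simp
      | add x y _ _ hx hy => rw [smul_add]; exact Submodule.add_mem _ hx hy
      | smul c y _ hy => rw [smul_comm]; exact Submodule.smul_mem _ c hy
    intro n
    apply CC_le_T1 hco
    induction n with
    | zero =>
      rw [pow_zero, one_smul]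
      exact Submodule.subset_span ⟨g1, rfl⟩
    | succ n ih =>
      rw [pow_succ', mul_smul]
      exact h5 _ ih
  apply quot_equiv _ _ w
  · apply le_antisymm
    · intro v hv
      have h8 := hr.inv_mem _ (hst g₀) v (mem_InvM.1 hv g₀)
      have h9 : b.repr v i₀ • b i₀ ∈ InvM ρ a (TI ϖ ρ b i₀ i) := by
        have := (InvM ρ a (TI ϖ ρ b i₀ i)).sub_mem hv (hle h8)
        simpa using this
      obtain ⟨c, hc⟩ := hIn _ h9
      have h10 : v = (v - b.repr v i₀ • b i₀) + c • w := by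
        rw [hw, ← algebraMap_smul K c, smul_smul, hc, mul_comm, ← mul_assoc,
          inv_mul_cancel₀ hϖK, one_mul]
        abel
      rw [h10]
      exact Submodule.add_mem_sup h8
        (Submodule.smul_mem _ _ (Submodule.mem_span_singleton_self _))
    · refine sup_le hle ?_
      rw [Submodule.span_singleton_le_iff_mem]
      exact hwI
  · intro c
    have h11 : c • w = (algebraMap O K c * (algebraMap O K (ϖ ^ i))⁻¹) • b i₀ := by
      rw [hw, ← algebraMap_smul K c, smul_smul]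
    rw [h11, hL]
    constructor
    · rintro ⟨r, hr'⟩
      refine ⟨r, ?_⟩
      apply IsFractionRing.injective O K
      rw [map_mul, hr', mul_comm, mul_assoc, inv_mul_cancel₀ hϖK, mul_one]
    · rintro ⟨r, rfl⟩
      refine ⟨r, ?_⟩
      rw [map_mul, mul_comm, inv_mul_cancel_left₀ hϖK]

end

end Pool.Agent.TSP
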