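import Pool.Agent.TSP.C

/-!
# Torsion spectrum: the congruences and the characteristic polynomials
-/

set_option autoImplicit false

namespace Pool.Agent.TSP

open Submodule Pool.Agent.TFL Polynomial Module

variable {O : Type*} [CommRing O] [IsDomain O] [IsDiscreteValuationRing O]
variable {K : Type*} [Field K] [Algebra O K] [IsFractionRing O K]
variable {V : Type*} [AddCommGroup V] [Module K V] [Module O V] [IsScalarTower O K V]
variable {Γ : Type*} [Group Γ]
variable {ι : Type*} [Fintype ι] [DecidableEq ι]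

/-- the elements `ϖ^i r` with `r` in `O` -/
def Dv (K : Type*) [Field K] [Algebra O K] (ϖ : O) (i : ℕ) (x : K) : Prop :=
  ∃ r : O, x = algebraMap O K (ϖ ^ i * r)

omit [IsDomain O] [IsDiscreteValuationRing O] [IsFractionRing O K] in
theorem Dv.add {ϖ : O} {i : ℕ} {x y : K} (hx : Dv K ϖ i x) (hy : Dv K ϖ i y) :
    Dv K ϖ i (x + y) := by
  obtain ⟨r, rfl⟩ := hx
  obtain ⟨s, rfl⟩ := hy
  exact ⟨r + s, by rw [mul_add, map_add]⟩

omit [IsDomain O] [IsDiscreteValuationRing O] [IsFractionRing O K] in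
theorem Dv.smul {ϖ : O} {i : ℕ} {x : K} (c : O) (hx : Dv K ϖ i x) :
    Dv K ϖ i (algebraMap O K c * x) := by
  obtain ⟨r, rfl⟩ := hx
  exact ⟨c * r, by rw [← map_mul]; congr 1; ring⟩

omit [IsDomain O] [IsDiscreteValuationRing O] [IsFractionRing O K] in
theorem combo {ϖ : O} {i : ℕ} {α : Type*} (s : Finset α) (Λ : α → O) (A : α → K)
    (h : ∀ n : ℕ, Dv K ϖ i (∑ x ∈ s, algebraMap O K (Λ x ^ n) * A x)) (Q : O[X]) :
    Dv K ϖ i (∑ x ∈ s, algebraMap O K (Q.eval (Λ x)) * A x) := by
  induction Q using Polynomial.induction_on' with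
  | add p q hp hq =>
    simp only [eval_add, map_add, add_mul, Finset.sum_add_distrib]
    exact hp.add hq
  | monomial n r =>
    simp only [eval_monomial, map_mul, mul_assoc, ← Finset.mul_sum]
    exact (h n).smul r

omit [IsDomain O] [IsDiscreteValuationRing O] [IsFractionRing O K] in
/-- separation of the exponentials -/
theorem separate {ϖ : O} {i : ℕ} {α : Type*} [DecidableEq α] (s s0 : Finset α) (hs : s0 ⊆ s)
    (Λ : α → O) (A : α → K) (c : O)
    (h : ∀ n : ℕ, Dv K ϖ i (∑ x ∈ s, algebraMap O K (Λ x ^ n) * A x))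
    (h0 : ∀ x ∈ s0, Λ x = c) (h1 : ∀ x ∈ s, x ∉ s0 → IsUnit (c - Λ x)) :
    Dv K ϖ i (∑ x ∈ s0, A x) := by
  have hQ := combo s Λ A h (∏ y ∈ s \ s0, (X - C (Λ y)))
  have hu : IsUnit (eval c (∏ y ∈ s \ s0, (X - C (Λ y)))) := by
    rw [eval_prod]
    refine IsUnit.prod_iff.2 ?_
    intro y hy
    rw [eval_sub, eval_X, eval_C]
    exact h1 y (Finset.mem_sdiff.1 hy).1 (Finset.mem_sdiff.1 hy).2
  have h2 : ∑ x ∈ s, algebraMap O K (eval (Λ x) (∏ y ∈ s \ s0, (X - C (Λ y)))) * A x =
      algebraMap O K (eval c (∏ y ∈ s \ s0, (X - C (Λ y)))) * ∑ x ∈ s0, A x := by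
    rw [Finset.mul_sum, ← Finset.sum_subset hs]
    · exact Finset.sum_congr rfl fun x hx => by rw [h0 x hx]
    · intro x hx hx0
      have h3 : eval (Λ x) (∏ y ∈ s \ s0, (X - C (Λ y))) = 0 := by
        rw [eval_prod]
        apply Finset.prod_eq_zero (i := x) (Finset.mem_sdiff.2 ⟨hx, hx0⟩)
        simp
      rw [h3, map_zero, zero_mul]
  rw [h2] at hQ
  obtain ⟨u, hu⟩ := hu
  have h4 := hQ.smul (↑u⁻¹ : O)
  rwa [← hu, ← mul_assoc, ← map_mul, Units.inv_mul, map_one, one_mul] at h4

omit [Algebra O K] [IsFractionRing O K] [IsDomain O] [IsDiscreteValuationRing O] [CommRing O] in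
/-- the expansion of the determinant -/
theorem det_expand (G : Matrix ι ι K) (x : K) (y : ι → K) :
    (Matrix.scalar ι x - Matrix.diagonal y * G).det =
      ∑ S : Finset ι, (∏ j, if j ∈ S then x else -y j) *
        Matrix.det (S.piecewise (1 : Matrix ι ι K) G) := by
  have h1 : (Matrix.scalar ι x - Matrix.diagonal y * G : Matrix ι ι K) =
      ((fun j => x • (1 : Matrix ι ι K) j) + (fun j => (-y j) • G j) : ι → ι → K) := by
    ext j k
    simp only [Matrix.sub_apply, Matrix.scalar_apply, Matrix.diagonal_mul, Pi.add_apply,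
      Pi.smul_apply, smul_eq_mul, Matrix.diagonal_apply, Matrix.one_apply]
    split_ifs <;> ring
  rw [h1]
  have h2 := (Matrix.detRowAlternating (R := K) (n := ι)).map_add_univ
    (fun j => x • (1 : Matrix ι ι K) j) (fun j => (-y j) • G j)
  refine h2.trans (Finset.sum_congr rfl fun S _ => ?_)
  have h3 : S.piecewise (fun j => x • (1 : Matrix ι ι K) j) (fun j => (-y j) • G j) =
      fun j => (if j ∈ S then x else -y j) • (S.piecewise (1 : Matrix ι ι K) G) j := by
    ext j k
    by_cases hj : j ∈ S <;> simp [hj]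
  rw [h3, AlternatingMap.map_smul_univ]
  rfl

omit [Algebra O K] [IsFractionRing O K] [IsDomain O] [IsDiscreteValuationRing O] [CommRing O] in
theorem det_erase (G : Matrix ι ι K) (i₀ : ι) :
    Matrix.det ((Finset.univ.erase i₀).piecewise (1 : Matrix ι ι K) G) = G i₀ i₀ := by
  have h1 : (Finset.univ.erase i₀).piecewise (1 : Matrix ι ι K) G =
      (1 : Matrix ι ι K).updateRow i₀ (G i₀) := by
    ext j k
    by_cases hj : j = i₀
    · subst hj
      simp
    · simp [hj]
  rw [h1, ← Matrix.cramer_transpose_apply, Matrix.transpose_one, Matrix.cramer_one]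
  rfl

section

variable {ρ : Γ →* (V →ₗ[K] V)} {a : Γ →* Oˣ} {g₀ : Γ} {b : Module.Basis ι K V} {lam : ι → O}
  {i₀ : ι}

theorem Reg.toMatrix_pow (hr : Reg ρ a g₀ b lam i₀) (n : ℕ) (g : Γ) :
    LinearMap.toMatrix b b (ρ (g₀ ^ n * g)) =
      Matrix.diagonal (fun j => algebraMap O K (lam j ^ n)) * LinearMap.toMatrix b b (ρ g) := by
  induction n generalizing g with
  | zero => simp
  | succ n ih =>
    rw [pow_succ, mul_assoc, ih (g₀ * g), map_mul]
    have h1 : LinearMap.toMatrix b b (ρ g₀) = Matrix.diagonal (fun j => algebraMap O K (lam j)) := by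
      ext s t
      rw [LinearMap.toMatrix_apply, hr.eig, ← algebraMap_smul K (lam t), map_smul,
        Finsupp.smul_apply, b.repr_self, Matrix.diagonal_apply, Finsupp.single_apply]
      by_cases hst : s = t
      · subst hst; simp
      · simp [hst, Ne.symm hst]
    have h2 : LinearMap.toMatrix b b (ρ g₀ * ρ g) =
        LinearMap.toMatrix b b (ρ g₀) * LinearMap.toMatrix b b (ρ g) :=
      LinearMap.toMatrix_mul b _ _
    rw [h2, h1, ← Matrix.mul_assoc, Matrix.diagonal_mul_diagonal]
    congr 2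
    ext j
    rw [pow_succ, map_mul]

/-- the value `det (a(g) - ρ(g))` -/
noncomputable def val [FiniteDimensional K V] (ρ : Γ →* (V →ₗ[K] V)) (a : Γ →* Oˣ) (g : Γ) : K :=
  (ρ g).charpoly.eval (algebraMap O K ((a g : Oˣ) : O))

theorem prod_unit (hr : Reg ρ a g₀ b lam i₀) (S : Finset ι) (hS1 : S ≠ Finset.univ)
    (hS2 : S ≠ Finset.univ.erase i₀) :
    IsUnit (lam i₀ ^ Fintype.card ι - ∏ j, if j ∈ S then lam i₀ else lam j) := by
  set U := (Finset.univ \ S).erase i₀ with hU
  have h1 : (∏ j, if j ∈ S then lam i₀ else lam j) =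
      (∏ j ∈ U, lam j) * lam i₀ ^ (Fintype.card ι - U.card) := by
    have h2 : (∏ j, if j ∈ S then lam i₀ else lam j) = ∏ j, if j ∈ U then lam j else lam i₀ := by
      refine Finset.prod_congr rfl fun j _ => ?_
      by_cases hj : j ∈ S
      · simp [hj, hU]
      · by_cases hj0 : j = i₀
        · subst hj0; simp [hU]
        · simp [hj, hj0, hU]
    rw [h2, Finset.prod_ite, Finset.prod_const]
    congr 1
    · refine Finset.prod_congr ?_ fun _ _ => rfl
      ext j; simp
    · congr 1
      have h3 : (Finset.univ.filter fun j => j ∉ U) = Finset.univ \ U := by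
        ext j; simp
      rw [h3, Finset.card_sdiff_of_subset (Finset.subset_univ _), Finset.card_univ]
  have hUn : U.Nonempty := by
    rw [Finset.nonempty_iff_ne_empty]
    intro h0
    have h4 : ∀ j, j ∉ S → j = i₀ := by
      intro j hj
      by_contra hj0
      have : j ∈ U := by simp [hU, hj, hj0]
      rw [h0] at this
      simp at this
    by_cases hi : i₀ ∈ S
    · apply hS1
      ext j
      simp only [Finset.mem_univ, iff_true]
      by_contra hj
      exact hj (h4 j hj ▸ hi)
    · apply hS2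
      ext j
      simp only [Finset.mem_erase, Finset.mem_univ, and_true]
      constructor
      · rintro hj rfl
        exact hi hj
      · intro hj
        by_contra hj'
        exact hj (h4 j hj')
  have hcard : U.card ≤ Fintype.card ι := Finset.card_le_univ U
  have h5 := (hr.reg U hUn (by simp [hU])).neg
  have h6 : lam i₀ ^ Fintype.card ι = lam i₀ ^ U.card * lam i₀ ^ (Fintype.card ι - U.card) := by
    rw [← pow_add, Nat.add_sub_cancel' hcard]
  have h7 : IsUnit (lam i₀) := by rw [hr.ev]; exact Units.isUnit _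
  rw [h1, h6, ← sub_mul]
  refine IsUnit.mul ?_ (h7.pow _)
  rwa [neg_sub] at h5

variable [FiniteDimensional K V]

/-- the characteristic polynomials determine the congruences -/
theorem Reg.cong_of_val (hr : Reg ρ a g₀ b lam i₀) {ϖ : O} {i : ℕ}
    (h : ∀ g, Dv K ϖ i (val ρ a g)) : Cong ϖ ρ a b i₀ i := by
  intro g
  set G := LinearMap.toMatrix b b (ρ g) with hG
  set x : K := algebraMap O K ((a g : Oˣ) : O) with hx
  set Λ : Finset ι → O := fun S => ∏ j, if j ∈ S then lam i₀ else lam j with hΛ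
  set A : Finset ι → K := fun S => (∏ j, if j ∈ S then x else -1) *
    Matrix.det (S.piecewise (1 : Matrix ι ι K) G) with hA
  have hexp : ∀ n : ℕ, val ρ a (g₀ ^ n * g) =
      ∑ S ∈ (Finset.univ : Finset (Finset ι)), algebraMap O K (Λ S ^ n) * A S := by
    intro n
    rw [val, ← LinearMap.charpoly_toMatrix (ρ (g₀ ^ n * g)) b, Matrix.eval_charpoly,
      hr.toMatrix_pow, det_expand]
    refine Finset.sum_congr rfl fun S _ => ?_
    rw [hA, ← mul_assoc]
    congr 1
    rw [hΛ, map_pow, map_prod, ← Finset.prod_pow, ← Finset.prod_mul_distrib]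
    refine Finset.prod_congr rfl fun j _ => ?_
    by_cases hj : j ∈ S
    · simp only [hj, if_true]
      rw [map_mul, map_pow, Units.val_mul, Units.val_pow_eq_pow_val, ← hr.ev, map_mul, map_pow]
    · simp [hj]
  have hne : (Finset.univ : Finset ι) ≠ Finset.univ.erase i₀ := by
    intro h0
    have : i₀ ∈ Finset.univ.erase i₀ := h0 ▸ Finset.mem_univ i₀
    simp at this
  have hsep := separate (K := K) (ϖ := ϖ) (i := i) (Finset.univ : Finset (Finset ι))
    {Finset.univ, Finset.univ.erase i₀} (Finset.subset_univ _) Λ A (lam i₀ ^ Fintype.card ι)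
    (fun n => by rw [← hexp]; exact h _)
    (by
      intro S hS
      simp only [Finset.mem_insert, Finset.mem_singleton] at hS
      rcases hS with rfl | rfl
      · simp [hΛ]
      · rw [hΛ]
        rw [← Finset.card_univ, ← Finset.prod_const]
        refine Finset.prod_congr rfl fun j _ => ?_
        by_cases hj : j = i₀
        · subst hj; simp
        · simp [hj])
    (by
      intro S _ hS
      simp only [Finset.mem_insert, Finset.mem_singleton, not_or] at hS
      exact prod_unit hr S hS.1 hS.2)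
  rw [Finset.sum_pair hne] at hsep
  have hA1 : A Finset.univ = x ^ Fintype.card ι := by
    simp [hA]
  have hA2 : A (Finset.univ.erase i₀) = -(x ^ (Fintype.card ι - 1)) * co ρ b i₀ g := by
    rw [hA]
    simp only
    rw [det_erase, hG, LinearMap.toMatrix_apply]
    have h8 : (∏ j, if j ∈ Finset.univ.erase i₀ then x else -1) = -(x ^ (Fintype.card ι - 1)) := by
      rw [← Finset.mul_prod_erase Finset.univ _ (Finset.mem_univ i₀)]
      rw [if_neg (by simp)]
      rw [Finset.prod_congr rfl (g := fun _ => x) (fun j hj => if_pos hj), Finset.prod_const,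
        Finset.card_erase_of_mem (Finset.mem_univ _), Finset.card_univ]
      ring
    rw [h8]
    rfl
  have hcard : 0 < Fintype.card ι := Fintype.card_pos_iff.2 ⟨i₀⟩
  rw [hA1, hA2] at hsep
  have h9 : x ^ Fintype.card ι + -(x ^ (Fintype.card ι - 1)) * co ρ b i₀ g =
      x ^ (Fintype.card ι - 1) * (x - co ρ b i₀ g) := by
    obtain ⟨m, hm⟩ : ∃ m, Fintype.card ι = m + 1 := ⟨Fintype.card ι - 1, by omega⟩
    rw [hm, Nat.add_sub_cancel, pow_succ]
    ring
  rw [h9] at hsep
  have h10 := hsep.smul (-(((a g)⁻¹ : Oˣ) : O) ^ (Fintype.card ι - 1))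
  have h11 : algebraMap O K (-(((a g)⁻¹ : Oˣ) : O) ^ (Fintype.card ι - 1)) *
      (x ^ (Fintype.card ι - 1) * (x - co ρ b i₀ g)) = co ρ b i₀ g - x := by
    have h12 : algebraMap O K (((a g)⁻¹ : Oˣ) : O) * x = 1 := by
      rw [hx, ← map_mul, Units.inv_mul, map_one]
    rw [map_neg, map_pow, ← mul_assoc, neg_mul, ← mul_pow, h12, one_pow]
    ring
  rw [h11] at h10
  exact h10

omit [DecidableEq ι] in
/-- characteristic polynomials have coefficients in `O` -/
theorem charpoly_int (F : V →ₗ[K] V) (T : Submodule O V) (hfg : T.FG)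
    (hspan : Submodule.span K (T : Set V) = ⊤) (hF : ∀ x ∈ T, F x ∈ T) :
    ∃ P : O[X], F.charpoly = P.map (algebraMap O K) := by
  obtain ⟨n, b, hb⟩ := exists_basis (K := K) T hfg hspan
  have h4 : ∀ z ∈ T, ∀ j, ∃ r : O, b.repr z j = algebraMap O K r := by
    intro z hz j
    rw [hb] at hz
    obtain ⟨d, hd⟩ := (Submodule.mem_span_range_iff_exists_fun O).1 hz
    refine ⟨d j, ?_⟩
    rw [← hd, map_sum, Finset.sum_apply', Finset.sum_eq_single j]
    · rw [← algebraMap_smul K (d j), map_smul]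
      simp [Algebra.algebraMap_eq_smul_one]
    · intro i _ hij
      rw [← algebraMap_smul K (d i), map_smul]
      simp [hij]
    · simp
  choose N hN using fun (j k : Fin n) => h4 (F (b k)) (hF _ (by
    rw [hb]; exact Submodule.subset_span ⟨k, rfl⟩)) j
  refine ⟨(Matrix.of N).charpoly, ?_⟩
  rw [← LinearMap.charpoly_toMatrix F b, ← Matrix.charpoly_map]
  congr 1
  ext j k
  rw [LinearMap.toMatrix_apply, hN]
  rfl

/-- the torsion term of a lattice is killed by the values -/
theorem val_of_term {ϖ : O} (T : Submodule O V) (hfg : T.FG)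
    (hspan : Submodule.span K (T : Set V) = ⊤) (hT : ∀ σ, ∀ x ∈ T, ρ σ x ∈ T) (i : ℕ)
    (he : Nonempty ((InvM ρ a T).map T.mkQ ≃ₗ[O] O ⧸ Ideal.span {ϖ ^ i})) (g : Γ) :
    Dv K ϖ i (val ρ a g) := by
  obtain ⟨P, hP⟩ := charpoly_int (ρ g) T hfg hspan (hT g)
  obtain ⟨e⟩ := he
  have h1 : val ρ a g = algebraMap O K (P.eval ((a g : Oˣ) : O)) := by
    rw [val, hP, eval_map_apply]
  have h2 : ∀ x : (InvM ρ a T).map T.mkQ, P.eval ((a g : Oˣ) : O) • x = 0 := by
    rintro ⟨_, ⟨v, hv, rfl⟩⟩
    apply Subtype.ext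
    change P.eval ((a g : Oˣ) : O) • T.mkQ v = 0
    rw [← map_smul]
    exact (Submodule.Quotient.mk_eq_zero T).2
      (eval_smul_mem (ρ g) P hP T (hT g) _ v (mem_InvM.1 hv g))
  have h3 := h2 (e.symm (Ideal.Quotient.mk _ 1))
  rw [← map_smul, LinearEquiv.map_eq_zero_iff] at h3
  have h4 : Ideal.Quotient.mk (Ideal.span {ϖ ^ i}) (P.eval ((a g : Oˣ) : O)) = 0 := by
    have h5 : Ideal.Quotient.mk (Ideal.span {ϖ ^ i}) (P.eval ((a g : Oˣ) : O)) =
        P.eval ((a g : Oˣ) : O) • Ideal.Quotient.mk (Ideal.span {ϖ ^ i}) 1 := by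
      rw [Algebra.smul_def, map_one, mul_one]
      rfl
    rw [h5, h3]
  rw [Ideal.Quotient.eq_zero_iff_mem, Ideal.mem_span_singleton] at h4
  obtain ⟨r, hr⟩ := h4
  exact ⟨r, by rw [h1, hr]⟩

end

end Pool.Agent.TSP
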