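import Pool.Agent.TSP.D

/-!
# Torsion spectrum: the abstract theorem
-/

set_option autoImplicit false

namespace Pool.Agent.TSP

open Submodule Pool.Agent.TFL Polynomial Module

variable {O : Type*} [CommRing O] [IsDomain O] [IsDiscreteValuationRing O]
variable {K : Type*} [Field K] [Algebra O K] [IsFractionRing O K]
variable {V : Type*} [AddCommGroup V] [Module K V] [Module O V] [IsScalarTower O K V]
variable {Γ : Type*} [Group Γ]
variable {ι : Type*} [Fintype ι] [DecidableEq ι]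

section

variable {ρ : Γ →* (V →ₗ[K] V)} {a : Γ →* Oˣ} {g₀ : Γ} {b : Module.Basis ι K V} {lam : ι → O}
  {i₀ : ι}

omit [IsDomain O] [IsDiscreteValuationRing O] [IsFractionRing O K] [Fintype ι]
  [DecidableEq ι] [Module O V] [IsScalarTower O K V] in
theorem Cong.mono {ϖ : O} {i j : ℕ} (hij : i ≤ j) (h : Cong ϖ ρ a b i₀ j) :
    Cong ϖ ρ a b i₀ i := by
  intro g
  obtain ⟨r, hr⟩ := h g
  refine ⟨ϖ ^ (j - i) * r, ?_⟩
  rw [hr, ← mul_assoc, ← pow_add, Nat.add_sub_cancel' hij]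

/-- the diagonal coefficient is not the character -/
theorem exists_co_ne (hirr : Irr ρ) {j : ι} (hj : j ≠ i₀) :
    ∃ g, co ρ b i₀ g ≠ algebraMap O K ((a g : Oˣ) : O) := by
  by_contra hcon
  push Not at hcon
  have hst : ∀ σ, ∀ x ∈ Submodule.span K (Set.range fun g => ρ g (b i₀) - co ρ b i₀ g • b i₀),
      ρ σ x ∈ Submodule.span K (Set.range fun g => ρ g (b i₀) - co ρ b i₀ g • b i₀) := by
    intro σ x hx
    induction hx using Submodule.span_induction with
    | mem x hx =>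
      obtain ⟨g, rfl⟩ := hx
      have h1 : ρ σ (ρ g (b i₀) - co ρ b i₀ g • b i₀) =
          (ρ (σ * g) (b i₀) - co ρ b i₀ (σ * g) • b i₀) -
            co ρ b i₀ g • (ρ σ (b i₀) - co ρ b i₀ σ • b i₀) := by
        have h2 : co ρ b i₀ (σ * g) = co ρ b i₀ g * co ρ b i₀ σ := by
          rw [hcon, hcon, hcon, map_mul, Units.val_mul, map_mul, mul_comm]
        have h3 : ρ (σ * g) (b i₀) = ρ σ (ρ g (b i₀)) := by rw [map_mul]; rfl
        rw [h2, h3, map_sub, map_smul]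
        module
      simp only [h1]
      exact Submodule.sub_mem _ (Submodule.subset_span ⟨_, rfl⟩)
        (Submodule.smul_mem _ _ (Submodule.subset_span ⟨_, rfl⟩))
    | zero => simp
    | add x y _ _ hx hy => rw [map_add]; exact Submodule.add_mem _ hx hy
    | smul c y _ hy => rw [map_smul]; exact Submodule.smul_mem _ c hy
  rcases hirr _ hst with h | h
  · obtain ⟨g, hg⟩ := CC_ne (i₀ := i₀) hirr hj
    apply hg
    have : ρ g (b i₀) - co ρ b i₀ g • b i₀ ∈
        Submodule.span K (Set.range fun g => ρ g (b i₀) - co ρ b i₀ g • b i₀) :=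
      Submodule.subset_span ⟨g, rfl⟩
    rwa [h, Submodule.mem_bot] at this
  · have h4 : ∀ x ∈ Submodule.span K (Set.range fun g => ρ g (b i₀) - co ρ b i₀ g • b i₀),
        b.repr x i₀ = 0 := by
      intro x hx
      induction hx using Submodule.span_induction with
      | mem x hx =>
        obtain ⟨g, rfl⟩ := hx
        simp [co]
      | zero => simp
      | add x y _ _ hx hy => rw [map_add, Finsupp.add_apply, hx, hy, add_zero]
      | smul c y _ hy => rw [map_smul, Finsupp.smul_apply, hy, smul_zero]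
    have h5 := h4 (b i₀) (by rw [h]; trivial)
    simp at h5

theorem Reg.exists_bound (hr : Reg ρ a g₀ b lam i₀) {ϖ : O} (hϖ : Irreducible ϖ) (hirr : Irr ρ)
    {j : ι} (hj : j ≠ i₀) (T : Submodule O V) (hfg : T.FG)
    (hspan : Submodule.span K (T : Set V) = ⊤) (hT : ∀ σ, ∀ x ∈ T, ρ σ x ∈ T) :
    ∃ h : ℕ, ∀ i, Cong ϖ ρ a b i₀ i ↔ i ≤ h := by
  have h0 : Cong ϖ ρ a b i₀ 0 := by
    intro g
    obtain ⟨c, hc⟩ := hr.co_int T hfg hspan hT g
    exact ⟨c - ((a g : Oˣ) : O), by rw [pow_zero, one_mul, map_sub, hc]⟩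
  have h1 : ∃ i, ¬ Cong ϖ ρ a b i₀ i := by
    by_contra hcon
    push Not at hcon
    obtain ⟨g, hg⟩ := exists_co_ne (a := a) (i₀ := i₀) hirr hj (b := b)
    obtain ⟨c, hc⟩ := hr.co_int T hfg hspan hT g
    have h2 : ∀ i : ℕ, ϖ ^ i ∣ c - ((a g : Oˣ) : O) := by
      intro i
      obtain ⟨r, hr'⟩ := hcon i g
      refine ⟨r, IsFractionRing.injective O K ?_⟩
      rw [← hr', map_sub, hc]
    have h3 : c - ((a g : Oˣ) : O) = 0 := by
      by_contra h0
      obtain ⟨m, u, hu⟩ := IsDiscreteValuationRing.eq_unit_mul_pow_irreducible h0 hϖ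
      obtain ⟨s, hs⟩ := h2 (m + 1)
      rw [hu, pow_succ, mul_assoc, mul_comm (u : O)] at hs
      have h7 := mul_left_cancel₀ (pow_ne_zero m hϖ.ne_zero) hs
      exact hϖ.not_isUnit (isUnit_of_dvd_unit ⟨s, h7⟩ u.isUnit)
    apply hg
    rw [← hc, sub_eq_zero.1 h3]
  classical
  have h4 : Nat.find h1 ≠ 0 := by
    intro h5
    have h6 := Nat.find_spec h1
    rw [h5] at h6
    exact h6 h0
  refine ⟨Nat.find h1 - 1, fun i => ⟨fun hi => ?_, fun hi => ?_⟩⟩
  · by_contra hlt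
    exact Nat.find_spec h1 (hi.mono (by omega))
  · have := Nat.find_min h1 (m := i) (by omega)
    push Not at this
    exact this

end

section

variable [FiniteDimensional K V]

/-- congruent operators have congruent characteristic polynomials -/
theorem val_congr {ϖ : O} (T : Submodule O V) (hfg : T.FG)
    (hspan : Submodule.span K (T : Set V) = ⊤) (F F' : V →ₗ[K] V) (hF : ∀ x ∈ T, F x ∈ T)
    (hF' : ∀ x ∈ T, F' x ∈ T) (i : ℕ) (h : ∀ x ∈ T, ∃ y ∈ T, F x - F' x = ϖ ^ i • y)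
    (c c' : O) (hc : ϖ ^ i ∣ c - c') :
    Dv K ϖ i (F.charpoly.eval (algebraMap O K c) - F'.charpoly.eval (algebraMap O K c')) := by
  obtain ⟨n, b, hb⟩ := exists_basis (K := K) T hfg hspan
  have h4 : ∀ z ∈ T, ∀ j, ∃ r : O, b.repr z j = algebraMap O K r := by
    intro z hz j
    rw [hb] at hz
    obtain ⟨d, hd⟩ := (Submodule.mem_span_range_iff_exists_fun O).1 hz
    refine ⟨d j, ?_⟩
    rw [← hd, map_sum, Finset.sum_apply', Finset.sum_eq_single j]
    · rw [← algebraMap_smul K (d j), map_smul]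
      simp [Algebra.algebraMap_eq_smul_one]
    · intro i _ hij
      rw [← algebraMap_smul K (d i), map_smul]
      simp [hij]
    · simp
  have hbT : ∀ k, b k ∈ T := fun k => by rw [hb]; exact Submodule.subset_span ⟨k, rfl⟩
  choose N hN using fun (j k : Fin n) => h4 (F (b k)) (hF _ (hbT k)) j
  choose N' hN' using fun (j k : Fin n) => h4 (F' (b k)) (hF' _ (hbT k)) j
  have e1 : ∀ (F : V →ₗ[K] V) (N : Fin n → Fin n → O)
      (_ : ∀ j k, b.repr (F (b k)) j = algebraMap O K (N j k)) (c : O),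
      F.charpoly.eval (algebraMap O K c) =
        algebraMap O K (Matrix.scalar (Fin n) c - Matrix.of N).det := by
    intro F N hN c
    rw [← LinearMap.charpoly_toMatrix F b]
    have h5 : LinearMap.toMatrix b b F = (Matrix.of N).map (algebraMap O K) := by
      ext j k
      rw [LinearMap.toMatrix_apply, hN]
      rfl
    rw [h5, Matrix.charpoly_map, eval_map_apply, Matrix.eval_charpoly]
  rw [e1 F N hN, e1 F' N' hN', ← map_sub]
  have h6 : ϖ ^ i ∣ (Matrix.scalar (Fin n) c - Matrix.of N).det -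
      (Matrix.scalar (Fin n) c' - Matrix.of N').det := by
    rw [← Ideal.mem_span_singleton, ← Ideal.Quotient.eq, RingHom.map_det, RingHom.map_det]
    congr 1
    ext j k
    simp only [RingHom.mapMatrix_apply, Matrix.map_apply, Matrix.sub_apply, Matrix.of_apply,
      Matrix.scalar_apply, Matrix.diagonal_apply]
    rw [Ideal.Quotient.eq, Ideal.mem_span_singleton]
    have h7 : ϖ ^ i ∣ N j k - N' j k := by
      obtain ⟨y, hy, hy'⟩ := h (b k) (hbT k)
      obtain ⟨r, hr⟩ := h4 y hy j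
      refine ⟨r, IsFractionRing.injective O K ?_⟩
      rw [map_sub, ← hN, ← hN', ← Finsupp.sub_apply, ← map_sub, hy', ← algebraMap_smul K (ϖ ^ i),
        map_smul, Finsupp.smul_apply, hr, smul_eq_mul, map_mul]
    have h8 : ϖ ^ i ∣ (if j = k then c else 0) - (if j = k then c' else 0) := by
      split_ifs
      · exact hc
      · simp
    have h9 := dvd_sub h8 h7
    convert h9 using 1
    ring
  obtain ⟨r, hr⟩ := h6
  exact ⟨r, by rw [hr]⟩

/-- **The torsion spectrum**, abstract form -/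
theorem spectrum_abs {ρ : Γ →* (V →ₗ[K] V)} {a : Γ →* Oˣ} {g₀ : Γ} {b : Module.Basis ι K V}
    {lam : ι → O} {i₀ : ι} (hr : Reg ρ a g₀ b lam i₀) {ϖ : O} (hϖ : Irreducible ϖ)
    (hirr : Irr ρ) (hdim : 2 ≤ finrank K V) (T₀ : Submodule O V) (hfg : T₀.FG)
    (hspan : Submodule.span K (T₀ : Set V) = ⊤) (hT : ∀ σ, ∀ x ∈ T₀, ρ σ x ∈ T₀)
    (D : Set Γ) (hD : ∀ (g : Γ) (n : ℕ), ∃ φ ∈ D, ϖ ^ n ∣ ((a g : Oˣ) : O) - ((a φ : Oˣ) : O) ∧
      ∀ x ∈ T₀, ∃ y ∈ T₀, ρ g x - ρ φ x = ϖ ^ n • y) :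
    ∃ h : ℕ,
      (∀ T : Submodule O V, T.FG → Submodule.span K (T : Set V) = ⊤ →
        (∀ σ, ∀ x ∈ T, ρ σ x ∈ T) → ∃ i, i ≤ h ∧
          Nonempty ((InvM ρ a T).map T.mkQ ≃ₗ[O] O ⧸ Ideal.span {ϖ ^ i})) ∧
      (∀ i, i ≤ h → ∃ T : Submodule O V, T.FG ∧ Submodule.span K (T : Set V) = ⊤ ∧
        (∀ σ, ∀ x ∈ T, ρ σ x ∈ T) ∧
          Nonempty ((InvM ρ a T).map T.mkQ ≃ₗ[O] O ⧸ Ideal.span {ϖ ^ i})) ∧
      (∀ i, i ≤ h ↔ ∀ φ ∈ D, Dv K ϖ i (val ρ a φ)) := by
  have hcard : 2 ≤ Fintype.card ι := by rwa [finrank_eq_card_basis b] at hdim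
  obtain ⟨j, hj⟩ : ∃ j, j ≠ i₀ := by
    have := Fintype.one_lt_card_iff.1 (by omega : 1 < Fintype.card ι)
    obtain ⟨x, y, hxy⟩ := this
    by_cases hx : x = i₀
    · exact ⟨y, fun hy => hxy (hx.trans hy.symm)⟩
    · exact ⟨x, hx⟩
  obtain ⟨h, hh⟩ := hr.exists_bound hϖ hirr hj T₀ hfg hspan hT
  obtain ⟨g, hg⟩ := exists_co_ne (a := a) (i₀ := i₀) hirr hj (b := b)
  refine ⟨h, ?_, ?_, ?_⟩
  · intro T hfgT hspanT hTT
    obtain ⟨i, hi, he⟩ := hr.torsion_term hϖ T hfgT hspanT hTT g hg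
    exact ⟨i, (hh i).1 hi, he⟩
  · intro i hi
    exact hr.TI_term hϖ hirr hj T₀ hfg hspan hT i ((hh i).2 hi)
  · intro i
    constructor
    · intro hi φ _
      obtain ⟨T, h1, h2, h3, h4⟩ := hr.TI_term hϖ hirr hj T₀ hfg hspan hT i ((hh i).2 hi)
      exact val_of_term T h1 h2 h3 i h4 φ
    · intro hφ
      rw [← hh]
      apply hr.cong_of_val
      intro g
      obtain ⟨φ, hφD, hφa, hφ'⟩ := hD g i
      have h1 := val_congr T₀ hfg hspan (ρ g) (ρ φ) (hT g) (hT φ) i hφ' _ _ hφa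
      have h2 := h1.add (hφ φ hφD)
      rw [val, sub_add_cancel] at h2
      exact h2

end

end Pool.Agent.TSP
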