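import Pool.Agent.TSP.E

/-!
# Torsion spectrum: representations of the absolute Galois group of the rational numbers
-/

set_option autoImplicit false

namespace Pool.Agent.TSP

open Submodule Pool.Agent.TFL Polynomial Module

/-- the vectors `v` of `V` whose class in `V / T` is fixed by the action of `ρ` twisted by the
`t`-th power of the cyclotomic character -/
noncomputable def Inv (q : ℕ) [Fact q.Prime] {O K V : Type*} [CommRing O] [Algebra ℤ_[q] O]
    [Field K] [Algebra O K] [AddCommGroup V] [Module K V] [Module O V] [IsScalarTower O K V]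
    (ρ : GQ →* (V →ₗ[K] V)) (t : ℤ) (T : Submodule O V) : Submodule O V where
  carrier := {v | ∀ σ, (((eps q O σ) ^ t : Oˣ) : O) • ρ σ v - v ∈ T}
  add_mem' := by
    intro v w hv hw σ
    have h := T.add_mem (hv σ) (hw σ)
    convert h using 1
    rw [map_add, smul_add]
    abel
  zero_mem' := by
    intro σ
    simp
  smul_mem' := by
    intro c v hv σ
    have h := T.smul_mem c (hv σ)
    convert h using 1
    rw [← algebraMap_smul K c v, map_smul, smul_sub, algebraMap_smul, algebraMap_smul,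
      smul_comm c]

/-- `H⁰(ℚ, T(t) ⊗ A)`: the classes of these vectors in `V / T = T ⊗ A` -/
noncomputable def H0 (q : ℕ) [Fact q.Prime] {O K V : Type*} [CommRing O] [Algebra ℤ_[q] O]
    [Field K] [Algebra O K] [AddCommGroup V] [Module K V] [Module O V] [IsScalarTower O K V]
    (ρ : GQ →* (V →ₗ[K] V)) (t : ℤ) (T : Submodule O V) : Submodule O (V ⧸ T) :=
  (Inv q ρ t T).map T.mkQ

/-- `g₀` acts on `V` with a basis of eigenvectors `b j`, eigenvalues `lam j` in `O`, the
eigenvalue `lam i₀` is the `(-t)`-th power of the cyclotomic character of `g₀`, and for no nonempty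
set `S` of indices `j ≠ i₀` is the product of the `lam j`, `j` in `S`, congruent to
`lam i₀ ^ |S|` modulo the maximal ideal -/
structure Regular (q : ℕ) [Fact q.Prime] {O K V ι : Type*} [CommRing O] [Algebra ℤ_[q] O]
    [Field K] [Algebra O K] [AddCommGroup V] [Module K V] [Module O V]
    (ρ : GQ →* (V →ₗ[K] V)) (t : ℤ) (g₀ : GQ) (b : Module.Basis ι K V) (lam : ι → O)
    (i₀ : ι) : Prop where
  eig : ∀ j, ρ g₀ (b j) = lam j • b j
  ev : lam i₀ = (((eps q O g₀) ^ (-t) : Oˣ) : O)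
  reg : ∀ S : Finset ι, S.Nonempty → i₀ ∉ S → IsUnit (∏ j ∈ S, lam j - lam i₀ ^ S.card)

/-- for `p` in the set `S`, `fr p` is a geometric Frobenius element at `p`, as far as the
cyclotomic character is concerned, and every element of the Galois group is close to some
`fr p` in its action on the lattice `T₀` and on the roots of unity of `q`-power order -/
structure DenseFrobenii (q : ℕ) [Fact q.Prime] {O K V : Type*} [CommRing O] [Algebra ℤ_[q] O]
    [Field K] [AddCommGroup V] [Module K V] [Module O V] (ϖ : O)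
    (ρ : GQ →* (V →ₗ[K] V)) (T₀ : Submodule O V) (S : Set ℕ) (fr : ℕ → GQ) : Prop where
  eps_inv : ∀ p ∈ S, ((eps q O (fr p)⁻¹ : Oˣ) : O) = (p : O)
  dense : ∀ (σ : GQ) (n : ℕ), ∃ p ∈ S,
    ϖ ^ n ∣ ((eps q O σ : Oˣ) : O) - ((eps q O (fr p) : Oˣ) : O) ∧
      ∀ x ∈ T₀, ∃ y ∈ T₀, ρ σ x - ρ (fr p) x = ϖ ^ n • y

section

variable {q : ℕ} [Fact q.Prime]
variable {O : Type*} [CommRing O] [IsDomain O] [IsDiscreteValuationRing O] [Algebra ℤ_[q] O]
variable {K : Type*} [Field K] [Algebra O K] [IsFractionRing O K]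
variable {V : Type*} [AddCommGroup V] [Module K V] [Module O V] [IsScalarTower O K V]
variable {ι : Type*} [Fintype ι] [DecidableEq ι]

/-- the character `eps ^ (-t)` -/
noncomputable def chi (q : ℕ) [Fact q.Prime] (O : Type*) [CommRing O] [Algebra ℤ_[q] O]
    (t : ℤ) : GQ →* Oˣ where
  toFun σ := (eps q O σ) ^ (-t)
  map_one' := by simp
  map_mul' σ τ := by rw [map_mul, mul_zpow]

theorem Inv_eq (ρ : GQ →* (V →ₗ[K] V)) (t : ℤ) (T : Submodule O V) :
    Inv q ρ t T = InvM ρ (chi q O t) T := by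
  ext v
  rw [mem_InvM]
  have h1 : ∀ σ, (((eps q O σ) ^ t : Oˣ) : O) * ((chi q O t σ : Oˣ) : O) = 1 := by
    intro σ
    change (((eps q O σ) ^ t : Oˣ) : O) * (((eps q O σ) ^ (-t) : Oˣ) : O) = 1
    rw [← Units.val_mul, ← zpow_add, add_neg_cancel, zpow_zero, Units.val_one]
  constructor
  · intro hv σ
    have h2 := T.smul_mem ((chi q O t σ : Oˣ) : O) (hv σ)
    rw [smul_sub, smul_smul, mul_comm, h1, one_smul] at h2
    exact h2
  · intro hv σ
    have h2 := T.smul_mem (((eps q O σ) ^ t : Oˣ) : O) (hv σ)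
    rw [smul_sub, smul_smul, h1, one_smul] at h2
    exact h2

omit [IsDomain O] [IsDiscreteValuationRing O] in
theorem zpow_congr (u v : Oˣ) (c : O) (h : c ∣ (u : O) - (v : O)) (t : ℤ) :
    c ∣ ((u ^ t : Oˣ) : O) - ((v ^ t : Oˣ) : O) := by
  rw [← Ideal.mem_span_singleton, ← Ideal.Quotient.eq] at h ⊢
  have h1 : Units.map (Ideal.Quotient.mk (Ideal.span {c})).toMonoidHom u =
      Units.map (Ideal.Quotient.mk (Ideal.span {c})).toMonoidHom v := Units.ext h
  have h2 : Units.map (Ideal.Quotient.mk (Ideal.span {c})).toMonoidHom (u ^ t) =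
      Units.map (Ideal.Quotient.mk (Ideal.span {c})).toMonoidHom (v ^ t) := by
    rw [map_zpow, map_zpow, h1]
  exact congrArg Units.val h2

/-- **The torsion spectrum.** -/
theorem spectrum [FiniteDimensional K V] {ρ : GQ →* (V →ₗ[K] V)} {t : ℤ} {g₀ : GQ}
    {b : Module.Basis ι K V} {lam : ι → O} {i₀ : ι} (hr : Regular q ρ t g₀ b lam i₀) {ϖ : O}
    (hϖ : Irreducible ϖ) (hirr : Irr ρ) (hdim : 2 ≤ finrank K V) (T₀ : Submodule O V)
    (hT₀ : StableLattice ρ T₀) (S : Set ℕ) (fr : ℕ → GQ)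
    (hS : DenseFrobenii q ϖ ρ T₀ S fr) :
    ∃ h : ℕ,
      (∀ T : Submodule O V, StableLattice ρ T →
        ∃ i, i ≤ h ∧ Nonempty (H0 q ρ t T ≃ₗ[O] O ⧸ Ideal.span {ϖ ^ i})) ∧
      (∀ i, i ≤ h → ∃ T : Submodule O V, StableLattice ρ T ∧
        Nonempty (H0 q ρ t T ≃ₗ[O] O ⧸ Ideal.span {ϖ ^ i})) ∧
      ∀ i, i ≤ h ↔ ∀ p ∈ S, ∃ r : O,
        (ρ (fr p)).charpoly.eval ((p : K) ^ t) = algebraMap O K (ϖ ^ i * r) := by
  have hr' : Reg ρ (chi q O t) g₀ b lam i₀ := ⟨hr.eig, hr.ev, hr.reg⟩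
  obtain ⟨h, h1, h2, h3⟩ := spectrum_abs hr' hϖ hirr hdim T₀ hT₀.fg hT₀.span hT₀.stab
    (fr '' S) (by
      intro g n
      obtain ⟨p, hp, hp1, hp2⟩ := hS.dense g n
      exact ⟨fr p, ⟨p, hp, rfl⟩, zpow_congr _ _ _ hp1 (-t), hp2⟩)
  have hv : ∀ p ∈ S, val ρ (chi q O t) (fr p) = (ρ (fr p)).charpoly.eval ((p : K) ^ t) := by
    intro p hp
    rw [val]
    congr 1
    have e1 : (chi q O t (fr p) : Oˣ) = (eps q O (fr p)⁻¹) ^ t := by
      change (eps q O (fr p)) ^ (-t) = _
      rw [map_inv, inv_zpow, zpow_neg]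
    have e2 : Units.map (algebraMap O K).toMonoidHom (eps q O (fr p)⁻¹) =
        Units.mk0 (p : K) (by
          rw [← map_natCast (algebraMap O K), ← hS.eps_inv p hp]
          exact ((Units.isUnit _).map (algebraMap O K)).ne_zero) := by
      apply Units.ext
      rw [Units.val_mk0, ← map_natCast (algebraMap O K), ← hS.eps_inv p hp]
      rfl
    have e3 : algebraMap O K ((chi q O t (fr p) : Oˣ) : O) =
        ((Units.map (algebraMap O K).toMonoidHom (chi q O t (fr p)) : Kˣ) : K) := rfl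
    rw [e3, e1, map_zpow, e2, Units.val_zpow_eq_zpow_val, Units.val_mk0]
  refine ⟨h, ?_, ?_, ?_⟩
  · intro T hT
    obtain ⟨i, hi, he⟩ := h1 T hT.fg hT.span hT.stab
    refine ⟨i, hi, ?_⟩
    rw [H0, Inv_eq]
    exact he
  · intro i hi
    obtain ⟨T, hT1, hT2, hT3, he⟩ := h2 i hi
    refine ⟨T, ⟨hT1, hT2, hT3⟩, ?_⟩
    rw [H0, Inv_eq]
    exact he
  · intro i
    rw [h3]
    constructor
    · intro hi p hp
      obtain ⟨r, hr''⟩ := hi (fr p) ⟨p, hp, rfl⟩
      exact ⟨r, by rw [← hv p hp, hr'']⟩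
    · rintro hi _ ⟨p, hp, rfl⟩
      obtain ⟨r, hr''⟩ := hi p hp
      exact ⟨r, by rw [hv p hp, hr'']⟩

end

end Pool.Agent.TSP
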