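import Mathlib

/-!
# The Fourier series of `|sin x|` and the zonogon inequality
-/

namespace Pool.Agent.TSP

open MeasureTheory

local instance factPi : Fact (0 < Real.pi) := ⟨Real.pi_pos⟩

/-- `|sin x|` on the circle of length `π` -/
noncomputable def sinC : C(AddCircle Real.pi, ℂ) where
  toFun := Function.Periodic.lift (f := fun x : ℝ => ((|Real.sin x| : ℝ) : ℂ)) (c := Real.pi)
    (by intro x; simp [Real.sin_add_pi, abs_neg])
  continuous_toFun := by
    apply continuous_coinduced_dom.mpr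
    have : Continuous fun x : ℝ => ((|Real.sin x| : ℝ) : ℂ) :=
      Complex.continuous_ofReal.comp (continuous_abs.comp Real.continuous_sin)
    exact this

theorem sinC_coe (x : ℝ) : sinC (x : AddCircle Real.pi) = ((|Real.sin x| : ℝ) : ℂ) := rfl

theorem four_sq_ne (n : ℤ) : (1 : ℂ) - 4 * (n : ℂ) ^ 2 ≠ 0 := by
  intro h
  have h2 : (1 : ℤ) - 4 * n ^ 2 = 0 := by exact_mod_cast h
  omega

theorem coeff_sinC (n : ℤ) : fourierCoeff sinC n = ((2 / Real.pi / (1 - 4 * (n : ℝ) ^ 2) : ℝ) : ℂ) := by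
  rw [fourierCoeff_eq_intervalIntegral _ _ 0, zero_add]
  have hpi : (Real.pi : ℂ) ≠ 0 := by exact_mod_cast Real.pi_ne_zero
  have h1 : ∫ x in (0:ℝ)..Real.pi, fourier (-n) (x : AddCircle Real.pi) • sinC (x : AddCircle Real.pi)
      = ∫ x in (0:ℝ)..Real.pi, ((1 / (2 * Complex.I)) * Complex.exp ((Complex.I * (1 - 2 * n)) * x)
        - (1 / (2 * Complex.I)) * Complex.exp ((-(Complex.I * (1 + 2 * n))) * x)) := by
    apply intervalIntegral.integral_congr
    intro x hx
    rw [Set.uIcc_of_le Real.pi_pos.le] at hx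
    have hs : 0 ≤ Real.sin x := Real.sin_nonneg_of_nonneg_of_le_pi hx.1 hx.2
    simp only [sinC_coe, abs_of_nonneg hs, fourier_coe_apply, smul_eq_mul]
    have e1 : 2 * (Real.pi : ℂ) * Complex.I * ((-n : ℤ) : ℂ) * (x : ℂ) / (Real.pi : ℂ)
        = -(2 * n * x * Complex.I) := by
      push_cast; field_simp
    rw [e1, Complex.ofReal_sin, Complex.sin]
    have e2 : Complex.exp ((Complex.I * (1 - 2 * n)) * x) =
        Complex.exp (-(2 * n * x * Complex.I)) * Complex.exp (x * Complex.I) := by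
      rw [← Complex.exp_add]; congr 1; ring
    have e3 : Complex.exp ((-(Complex.I * (1 + 2 * n))) * x) =
        Complex.exp (-(2 * n * x * Complex.I)) * Complex.exp (-x * Complex.I) := by
      rw [← Complex.exp_add]; congr 1; ring
    rw [e2, e3]
    have hI : Complex.I * Complex.I = -1 := Complex.I_mul_I
    field_simp
    ring_nf
    simp only [Complex.I_sq]
    ring
  have hc1 : (Complex.I * (1 - 2 * n) : ℂ) ≠ 0 := by
    apply mul_ne_zero Complex.I_ne_zero
    intro h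
    have : (1 : ℤ) - 2 * n = 0 := by exact_mod_cast h
    omega
  have hc2 : (-(Complex.I * (1 + 2 * n)) : ℂ) ≠ 0 := by
    apply neg_ne_zero.mpr
    apply mul_ne_zero Complex.I_ne_zero
    intro h
    have : (1 : ℤ) + 2 * n = 0 := by exact_mod_cast h
    omega
  rw [h1, intervalIntegral.integral_sub, intervalIntegral.integral_const_mul,
    intervalIntegral.integral_const_mul, integral_exp_mul_complex hc1, integral_exp_mul_complex hc2]
  · have x1 : Complex.exp ((Complex.I * (1 - 2 * n)) * (Real.pi : ℂ)) = -1 := by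
      have : (Complex.I * (1 - 2 * n)) * (Real.pi : ℂ) = Real.pi * Complex.I +
          ((-n : ℤ) : ℂ) * (2 * Real.pi * Complex.I) := by push_cast; ring
      rw [this, Complex.exp_add, Complex.exp_int_mul_two_pi_mul_I, Complex.exp_pi_mul_I]; ring
    have x2 : Complex.exp ((-(Complex.I * (1 + 2 * n))) * (Real.pi : ℂ)) = -1 := by
      have : (-(Complex.I * (1 + 2 * n))) * (Real.pi : ℂ) = Real.pi * Complex.I +
          ((-n - 1 : ℤ) : ℂ) * (2 * Real.pi * Complex.I) := by push_cast; ring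
      rw [this, Complex.exp_add, Complex.exp_int_mul_two_pi_mul_I, Complex.exp_pi_mul_I]; ring
    rw [x1, x2]
    have h3 := four_sq_ne n
    have h4 : (1 - 2 * n : ℂ) ≠ 0 := right_ne_zero_of_mul hc1
    have h5 : (1 + 2 * n : ℂ) ≠ 0 := by
      have := neg_ne_zero.mp hc2
      exact right_ne_zero_of_mul this
    have h6 : (1 : ℂ) - 4 * (n : ℂ) ^ 2 = (1 - 2 * n) * (1 + 2 * n) := by ring
    simp only [Complex.ofReal_zero, mul_zero, Complex.exp_zero, Complex.real_smul]
    push_cast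
    rw [h6]
    field_simp
    ring_nf
    simp only [Complex.I_sq]
    ring
  · apply Continuous.intervalIntegrable; fun_prop
  · apply Continuous.intervalIntegrable; fun_prop

/-- the coefficients -/
noncomputable def cf (n : ℤ) : ℝ := 2 / Real.pi / (1 - 4 * (n : ℝ) ^ 2)

theorem cf_zero : cf 0 = 2 / Real.pi := by simp [cf]

theorem cf_nonpos (n : ℤ) (hn : n ≠ 0) : cf n ≤ 0 := by
  unfold cf
  apply div_nonpos_of_nonneg_of_nonpos (by positivity)
  have : (1 : ℝ) ≤ (n : ℝ) ^ 2 := by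
    have h : (1 : ℤ) ≤ n ^ 2 := by
      have := sq_pos_of_ne_zero hn; omega
    exact_mod_cast h
  linarith

theorem summable_cf : Summable cf := by
  have h1 : Summable fun n : ℤ => 1 / (n : ℝ) ^ 2 := by
    have := Real.summable_one_div_int_pow (p := 2)
    exact this.mpr (by norm_num)
  refine Summable.of_norm_bounded_eventually (g := fun n : ℤ => 1 / (n : ℝ) ^ 2) h1 ?_
  have h2 : ∀ᶠ n : ℤ in Filter.cofinite, n ≠ 0 := by
    rw [Filter.eventually_cofinite]
    simp
  filter_upwards [h2] with n hn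
  have h3 : (1 : ℝ) ≤ (n : ℝ) ^ 2 := by
    have h : (1 : ℤ) ≤ n ^ 2 := by
      have := sq_pos_of_ne_zero hn; omega
    exact_mod_cast h
  unfold cf
  rw [Real.norm_eq_abs, abs_div, abs_of_pos (by positivity : (0:ℝ) < 2 / Real.pi),
    abs_of_neg (by linarith : (1 : ℝ) - 4 * (n : ℝ) ^ 2 < 0)]
  rw [div_le_div_iff₀ (by linarith) (by linarith)]
  have hpi : 2 / Real.pi ≤ 1 := by
    rw [div_le_one Real.pi_pos]; exact Real.two_le_pi
  nlinarith

theorem hasSum_abs_sin (x : ℝ) :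
    HasSum (fun n : ℤ => cf n * Real.cos (2 * n * x)) |Real.sin x| := by
  have hs : Summable (fourierCoeff sinC) := by
    have : fourierCoeff sinC = fun n => ((cf n : ℝ) : ℂ) := by
      funext n; exact coeff_sinC n
    rw [this]
    exact (Complex.hasSum_ofReal.mpr summable_cf.hasSum).summable
  have h := has_pointwise_sum_fourier_series_of_summable hs (x : AddCircle Real.pi)
  have h2 := Complex.hasSum_re h
  rw [sinC_coe, Complex.ofReal_re] at h2
  convert h2 using 1
  funext n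
  rw [coeff_sinC, fourier_coe_apply, smul_eq_mul]
  have e1 : 2 * (Real.pi : ℂ) * Complex.I * (n : ℂ) * (x : ℂ) / (Real.pi : ℂ)
      = ((2 * n * x : ℝ) : ℂ) * Complex.I := by
    have hpi : (Real.pi : ℂ) ≠ 0 := by exact_mod_cast Real.pi_ne_zero
    push_cast; field_simp
  rw [e1, Complex.re_ofReal_mul, Complex.exp_ofReal_mul_I_re]
  rfl

/-- the kernel `|sin (a - b)|` is `2/π` minus a positive definite kernel -/
theorem sum_abs_sin_le {ι : Type*} (s : Finset ι) (r th : ι → ℝ) :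
    ∑ i ∈ s, ∑ j ∈ s, r i * r j * |Real.sin (th i - th j)| ≤
      2 / Real.pi * (∑ i ∈ s, r i) ^ 2 := by
  have h1 : HasSum (fun n : ℤ => ∑ i ∈ s, ∑ j ∈ s, r i * r j *
      (cf n * Real.cos (2 * n * (th i - th j))))
      (∑ i ∈ s, ∑ j ∈ s, r i * r j * |Real.sin (th i - th j)|) :=
    hasSum_sum fun i _ => hasSum_sum fun j _ => (hasSum_abs_sin _).mul_left _
  have h2 : HasSum (fun n : ℤ => if n = 0 then 2 / Real.pi * (∑ i ∈ s, r i) ^ 2 else 0)
      (2 / Real.pi * (∑ i ∈ s, r i) ^ 2) := hasSum_ite_eq 0 _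
  refine hasSum_le (fun n => ?_) h1 h2
  have h3 : ∑ i ∈ s, ∑ j ∈ s, r i * r j * (cf n * Real.cos (2 * n * (th i - th j))) =
      cf n * ((∑ i ∈ s, r i * Real.cos (2 * n * th i)) ^ 2 +
        (∑ i ∈ s, r i * Real.sin (2 * n * th i)) ^ 2) := by
    rw [sq, sq, Finset.sum_mul_sum, Finset.sum_mul_sum, ← Finset.sum_add_distrib, Finset.mul_sum]
    refine Finset.sum_congr rfl fun i _ => ?_
    rw [← Finset.sum_add_distrib, Finset.mul_sum]
    refine Finset.sum_congr rfl fun j _ => ?_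
    rw [mul_sub, Real.cos_sub]; ring
  rw [h3]
  by_cases hn : n = 0
  · subst hn
    simp [cf_zero]
  · rw [if_neg hn]
    exact mul_nonpos_of_nonpos_of_nonneg (cf_nonpos n hn) (by positivity)

/-- the isoperimetric inequality for zonogons -/
theorem zonogon {ι : Type*} (s : Finset ι) (a b : ι → ℝ) :
    ∑ i ∈ s, ∑ j ∈ s, |a i * b j - a j * b i| ≤
      2 / Real.pi * (∑ i ∈ s, Real.sqrt (a i ^ 2 + b i ^ 2)) ^ 2 := by
  have h := sum_abs_sin_le s (fun i => Real.sqrt (a i ^ 2 + b i ^ 2))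
    (fun i => Complex.arg ⟨a i, b i⟩)
  refine le_trans (le_of_eq ?_) h
  refine Finset.sum_congr rfl fun i _ => Finset.sum_congr rfl fun j _ => ?_
  have hr : ∀ i, Real.sqrt (a i ^ 2 + b i ^ 2) = ‖(⟨a i, b i⟩ : ℂ)‖ := by
    intro i
    rw [Complex.norm_eq_sqrt_sq_add_sq]
  have hc : ∀ i, Real.sqrt (a i ^ 2 + b i ^ 2) * Real.cos (Complex.arg ⟨a i, b i⟩) = a i := by
    intro i
    rw [hr, Complex.norm_mul_cos_arg]
  have hs : ∀ i, Real.sqrt (a i ^ 2 + b i ^ 2) * Real.sin (Complex.arg ⟨a i, b i⟩) = b i := by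
    intro i
    rw [hr, Complex.norm_mul_sin_arg]
  have hn : ∀ i, 0 ≤ Real.sqrt (a i ^ 2 + b i ^ 2) := fun i => Real.sqrt_nonneg _
  have key : a i * b j - a j * b i = - (Real.sqrt (a i ^ 2 + b i ^ 2) *
      Real.sqrt (a j ^ 2 + b j ^ 2) *
      Real.sin (Complex.arg ⟨a i, b i⟩ - Complex.arg ⟨a j, b j⟩)) := by
    rw [Real.sin_sub]
    calc a i * b j - a j * b i = (Real.sqrt (a i ^ 2 + b i ^ 2) * Real.cos (Complex.arg ⟨a i, b i⟩)) * (Real.sqrt (a j ^ 2 + b j ^ 2) * Real.sin (Complex.arg ⟨a j, b j⟩)) - (Real.sqrt (a j ^ 2 + b j ^ 2) * Real.cos (Complex.arg ⟨a j, b j⟩)) * (Real.sqrt (a i ^ 2 + b i ^ 2) * Real.sin (Complex.arg ⟨a i, b i⟩)) := by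
          rw [hc, hs, hc, hs]
      _ = _ := by ring
  rw [key, abs_neg, abs_mul, abs_mul, abs_of_nonneg (hn i), abs_of_nonneg (hn j)]

end Pool.Agent.TSP
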