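import Pool.Agent.TSP.Basic
import Pool.Agent.TSP.SinF

/-!
# Bounds for the operator: `|S f| ≤ (2/π) |f|`, `D ≤ 1/3`, Hilbert-Schmidt norm of `A`
-/

namespace Pool.Agent.TSP

open Finset Matrix Polynomial

variable {m : ℕ}

theorem ip_op_le (S : Fin m → Fin m → ℝ) (hS : ∀ i j, S j i = - S i j)
    (hb : ∀ i j, |S i j| ≤ 1) (f g : Fin m → ℝ) :
    ip g (op S f) ≤ 1 / Real.pi * (ip f f + ip g g) := by
  rcases Nat.eq_zero_or_pos m with hm | hm
  · subst hm; simp [ip]
  have hm' : (0 : ℝ) < m := by exact_mod_cast hm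
  have h1 : ip g (op S f) = (∑ i, ∑ j, S i j * (g i * f j - g j * f i)) / (2 * m ^ 2) := by
    unfold ip op
    have e1 : ∑ i, g i * ((∑ j, S i j * f j) / m) = (∑ i, ∑ j, S i j * (g i * f j)) / m := by
      rw [sum_div]
      refine sum_congr rfl fun i _ => ?_
      rw [mul_div_assoc', mul_sum]
      congr 1
      exact sum_congr rfl fun j _ => by ring
    have e2 : ∑ i, ∑ j, S i j * (g j * f i) = - ∑ i, ∑ j, S i j * (g i * f j) := by
      rw [sum_comm, ← sum_neg_distrib]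
      refine sum_congr rfl fun i _ => ?_
      rw [← sum_neg_distrib]
      refine sum_congr rfl fun j _ => ?_
      rw [hS]; ring
    have e3 : ∑ i, ∑ j, S i j * (g i * f j - g j * f i) = 2 * ∑ i, ∑ j, S i j * (g i * f j) := by
      simp only [mul_sub, sum_sub_distrib]
      rw [e2]; ring
    rw [e1, e3]
    field_simp
  have h2 : ∑ i, ∑ j, S i j * (g i * f j - g j * f i) ≤
      ∑ i, ∑ j, |g i * f j - g j * f i| := by
    refine sum_le_sum fun i _ => sum_le_sum fun j _ => ?_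
    calc S i j * (g i * f j - g j * f i) ≤ |S i j * (g i * f j - g j * f i)| := le_abs_self _
      _ = |S i j| * |g i * f j - g j * f i| := abs_mul _ _
      _ ≤ 1 * |g i * f j - g j * f i| := mul_le_mul_of_nonneg_right (hb i j) (abs_nonneg _)
      _ = _ := one_mul _
  have h3 := zonogon (univ : Finset (Fin m)) g f
  have h4 : (∑ i, Real.sqrt (g i ^ 2 + f i ^ 2)) ^ 2 ≤ m * ∑ i, (g i ^ 2 + f i ^ 2) := by
    have := sq_sum_le_card_mul_sum_sq (s := (univ : Finset (Fin m)))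
      (f := fun i => Real.sqrt (g i ^ 2 + f i ^ 2))
    rw [card_univ, Fintype.card_fin] at this
    refine this.trans (le_of_eq ?_)
    congr 1
    exact sum_congr rfl fun i _ => Real.sq_sqrt (by positivity)
  have h5 : ip f f + ip g g = (∑ i, (g i ^ 2 + f i ^ 2)) / m := by
    unfold ip
    rw [← add_div, ← sum_add_distrib]; congr 1
    exact sum_congr rfl fun i _ => by ring
  have hpi := Real.pi_pos
  rw [h1, h5, div_le_iff₀ (by positivity)]
  calc ∑ i, ∑ j, S i j * (g i * f j - g j * f i) ≤ ∑ i, ∑ j, |g i * f j - g j * f i| := h2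
    _ ≤ 2 / Real.pi * (∑ i, Real.sqrt (g i ^ 2 + f i ^ 2)) ^ 2 := h3
    _ ≤ 2 / Real.pi * (m * ∑ i, (g i ^ 2 + f i ^ 2)) := by
        apply mul_le_mul_of_nonneg_left h4 (by positivity)
    _ = 1 / Real.pi * ((∑ i, (g i ^ 2 + f i ^ 2)) / m) * (2 * m ^ 2) := by
        field_simp

/-- `|S f|^2 ≤ (4/π²) |f|^2` -/
theorem op_norm (S : Fin m → Fin m → ℝ) (hS : ∀ i j, S j i = - S i j)
    (hb : ∀ i j, |S i j| ≤ 1) (f : Fin m → ℝ) :
    ip (op S f) (op S f) ≤ 4 / Real.pi ^ 2 * ip f f := by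
  have h := ip_op_le S hS hb f ((Real.pi / 2) • op S f)
  rw [ip_smul_left, ip_smul_left, ip_smul_right] at h
  have hpi := Real.pi_pos
  have h2 : 1 / Real.pi * (ip f f + Real.pi / 2 * (Real.pi / 2 * ip (op S f) (op S f))) =
      ip f f / Real.pi + Real.pi / 4 * ip (op S f) (op S f) := by
    field_simp; ring
  rw [h2] at h
  have h3 : Real.pi / 4 * ip (op S f) (op S f) ≤ ip f f / Real.pi := by linarith
  rw [le_div_iff₀ hpi] at h3
  rw [div_mul_eq_mul_div, le_div_iff₀ (by positivity)]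
  nlinarith

/-- `D ≤ 1/3` -/
theorem dee_le (S : Fin m → Fin m → ℝ) (hS : ∀ i j, S j i = - S i j)
    (hb : ∀ i j, |S i j| ≤ 1) : dee S ≤ 1 / 3 := by
  rcases Nat.eq_zero_or_pos m with hm | hm
  · subst hm; simp [dee, ip]
  have hm' : (0 : ℝ) < m := by exact_mod_cast hm
  have h1 : dee S = (∑ i, ∑ j, ∑ k, S i j * S i k) / m ^ 3 := by
    unfold dee ip beta op
    rw [eq_div_iff (by positivity), div_mul_eq_mul_div, div_eq_iff (by positivity), sum_mul,
      sum_mul]
    refine sum_congr rfl fun i _ => ?_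
    simp only [mul_one]
    rw [← sum_mul_sum, div_mul_div_comm, div_mul_eq_mul_div, div_eq_iff (by positivity)]
    ring
  have h2 : ∑ i, ∑ j, ∑ k, S i j * S i k = ∑ i, ∑ j, ∑ k, S j i * S j k := by
    rw [sum_comm]
  have h3 : ∑ i, ∑ j, ∑ k, S i j * S i k = ∑ i, ∑ j, ∑ k, S k i * S k j := by
    rw [sum_comm]
    have : ∀ F : Fin m → Fin m → Fin m → ℝ, ∑ j, ∑ i, ∑ k, F i j k = ∑ i, ∑ j, ∑ k, F k i j := by
      intro F
      refine sum_congr rfl fun j _ => ?_
      rw [sum_comm]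
    rw [this]
  have h4 : 3 * ∑ i, ∑ j, ∑ k, S i j * S i k ≤ (m : ℝ) ^ 3 := by
    have e : 3 * ∑ i, ∑ j, ∑ k, S i j * S i k =
        ∑ i, ∑ j, ∑ k, (S i j * S i k + S j i * S j k + S k i * S k j) := by
      simp only [sum_add_distrib]
      rw [← h2, ← h3]; ring
    rw [e]
    have c : ∀ i j k, S i j * S i k + S j i * S j k + S k i * S k j ≤ 1 := by
      intro i j k
      have a1 := abs_le.mp (hb i j)
      have a2 := abs_le.mp (hb j k)
      have a3 := abs_le.mp (hb k i)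
      rw [show S i k = - S k i from hS k i, show S j i = - S i j from hS i j,
        show S k j = - S j k from hS j k]
      nlinarith [mul_nonneg (sub_nonneg.2 a1.2) (sub_nonneg.2 a2.2),
        mul_nonneg (sub_nonneg.2 a1.2) (by linarith [a2.1] : (0:ℝ) ≤ S j k + 1),
        mul_nonneg (by linarith [a1.1] : (0:ℝ) ≤ S i j + 1) (sub_nonneg.2 a2.2),
        mul_nonneg (by linarith [a1.1] : (0:ℝ) ≤ S i j + 1) (by linarith [a2.1] : (0:ℝ) ≤ S j k + 1),
        mul_nonneg (sub_nonneg.2 a1.2) (sub_nonneg.2 a3.2),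
        mul_nonneg (sub_nonneg.2 a1.2) (by linarith [a3.1] : (0:ℝ) ≤ S k i + 1),
        mul_nonneg (by linarith [a1.1] : (0:ℝ) ≤ S i j + 1) (sub_nonneg.2 a3.2),
        mul_nonneg (by linarith [a1.1] : (0:ℝ) ≤ S i j + 1) (by linarith [a3.1] : (0:ℝ) ≤ S k i + 1),
        mul_nonneg (sub_nonneg.2 a2.2) (sub_nonneg.2 a3.2),
        mul_nonneg (sub_nonneg.2 a2.2) (by linarith [a3.1] : (0:ℝ) ≤ S k i + 1),
        mul_nonneg (by linarith [a2.1] : (0:ℝ) ≤ S j k + 1) (sub_nonneg.2 a3.2),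
        mul_nonneg (by linarith [a2.1] : (0:ℝ) ≤ S j k + 1) (by linarith [a3.1] : (0:ℝ) ≤ S k i + 1)]
    calc ∑ i, ∑ j, ∑ k, (S i j * S i k + S j i * S j k + S k i * S k j)
        ≤ ∑ i : Fin m, ∑ j : Fin m, ∑ k : Fin m, (1 : ℝ) :=
          sum_le_sum fun i _ => sum_le_sum fun j _ => sum_le_sum fun k _ => c i j k
      _ = (m : ℝ) ^ 3 := by simp; ring
  rw [h1, div_le_iff₀ (by positivity)]
  linarith

end Pool.Agent.TSP
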