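import Pool.Agent.TSP.Spec
import Pool.Agent.TSP.OpB

/-!
# The spectral measure of `beta` with respect to `-A^2` and its constraints
-/

namespace Pool.Agent.TSP

open Finset Matrix Polynomial

variable {m : ℕ}

/-! ### elementary facts on `beta` and `A` -/

/-- the constant function one -/
def one : Fin m → ℝ := fun _ => 1

theorem ip_one_one (hm : 0 < m) : ip (one : Fin m → ℝ) one = 1 := by
  have hm' : (m : ℝ) ≠ 0 := by exact_mod_cast hm.ne'
  simp [ip, one, hm']

theorem ip_one_beta (S : Fin m → Fin m → ℝ) (hS : ∀ i j, S j i = - S i j) :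
    ip one (beta S) = 0 := by
  exact ip_op_self S hS one

theorem ip_one (f : Fin m → ℝ) : ip one f = (∑ i, f i) / m := by simp [ip, one]

theorem ip_beta (S : Fin m → Fin m → ℝ) (f : Fin m → ℝ) :
    ip (beta S) f = (∑ i, beta S i * f i) / m := rfl

theorem aker_anti (S : Fin m → Fin m → ℝ) (hS : ∀ i j, S j i = - S i j) :
    ∀ i j, aker S j i = - aker S i j := by
  intro i j; unfold aker; rw [hS]; ring

/-- `A f = S f - <1,f> beta + <beta,f> 1` -/
theorem op_aker (hm : 0 < m) (S : Fin m → Fin m → ℝ) (f : Fin m → ℝ) :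
    op (aker S) f = op S f - ip one f • beta S + ip (beta S) f • one := by
  have hm' : (m : ℝ) ≠ 0 := by exact_mod_cast hm.ne'
  funext i
  have h1 : op (aker S) f i = (∑ j, S i j * f j) / m - (∑ j, f j) / m * beta S i +
      (∑ j, beta S j * f j) / m := by
    unfold op aker
    rw [← sub_add_cancel ((∑ j, S i j * f j) / m) 0]
    have : ∑ j, (S i j - beta S i + beta S j) * f j =
        ∑ j, S i j * f j - (∑ j, f j) * beta S i + ∑ j, beta S j * f j := by
      rw [sum_mul, ← sum_sub_distrib, ← sum_add_distrib]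
      exact sum_congr rfl fun j _ => by ring
    rw [this]; ring
  rw [h1, ip_one, ip_beta]
  simp [op, one]

theorem op_aker_one (hm : 0 < m) (S : Fin m → Fin m → ℝ) (hS : ∀ i j, S j i = - S i j) :
    op (aker S) one = 0 := by
  rw [op_aker hm, ip_one_one hm, ip_comm, ip_one_beta S hS]
  have : op S one = beta S := rfl
  rw [this]; simp

/-- for mean zero `f`: `S f = A f - <beta, f> 1` -/
theorem op_S_of_mean (hm : 0 < m) (S : Fin m → Fin m → ℝ) (f : Fin m → ℝ)
    (hf : ip one f = 0) : op S f = op (aker S) f - ip (beta S) f • one := by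
  rw [op_aker hm, hf]; simp

theorem ip_one_opA (hm : 0 < m) (S : Fin m → Fin m → ℝ) (hS : ∀ i j, S j i = - S i j)
    (f : Fin m → ℝ) : ip one (op (aker S) f) = 0 := by
  rw [ip_op _ (aker_anti S hS), op_aker_one hm S hS, ip_zero_left, neg_zero]

/-- Hilbert-Schmidt norm squared -/
noncomputable def hs (A : Fin m → Fin m → ℝ) : ℝ := (∑ i, ∑ j, A i j ^ 2) / m ^ 2

theorem hs_aker (hm : 0 < m) (S : Fin m → Fin m → ℝ) (hS : ∀ i j, S j i = - S i j) :
    hs (aker S) = hs S - 2 * dee S := by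
  have hm' : (m : ℝ) ≠ 0 := by exact_mod_cast hm.ne'
  have h0 : ∑ i, beta S i = 0 := by
    have := ip_one_beta S hS
    rw [ip_one, div_eq_zero_iff] at this
    exact this.resolve_right hm'
  have h1 : ∀ i, ∑ j, S i j = m * beta S i := by
    intro i; unfold beta op; simp only [mul_one]; field_simp
  have h2 : ∀ j, ∑ i, S i j = - (m * beta S j) := by
    intro j; rw [← h1, ← sum_neg_distrib]; exact sum_congr rfl fun i _ => hS j i
  have hD : ∑ i, beta S i ^ 2 = m * dee S := by
    unfold dee ip; simp only [← sq]; field_simp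
  have e : ∑ i, ∑ j, aker S i j ^ 2 = ∑ i, ∑ j, S i j ^ 2 - 2 * (∑ i, beta S i * ∑ j, S i j)
      + 2 * (∑ j, beta S j * ∑ i, S i j) + m * (∑ i, beta S i ^ 2) - 2 * (∑ i, beta S i) * (∑ j, beta S j)
      + m * (∑ j, beta S j ^ 2) := by
    have a1 : ∑ i, ∑ j, aker S i j ^ 2 = ∑ i, ∑ j, (S i j ^ 2 - 2 * (beta S i * S i j)
        + 2 * (beta S j * S i j) + beta S i ^ 2 - 2 * (beta S i * beta S j) + beta S j ^ 2) := by
      refine sum_congr rfl fun i _ => sum_congr rfl fun j _ => ?_
      unfold aker; ring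
    rw [a1]
    simp only [sum_add_distrib, sum_sub_distrib]
    have a2 : ∑ i, ∑ j, 2 * (beta S i * S i j) = 2 * ∑ i, beta S i * ∑ j, S i j := by
      simp only [mul_sum]
    have a3 : ∑ i, ∑ j, 2 * (beta S j * S i j) = 2 * ∑ j, beta S j * ∑ i, S i j := by
      rw [sum_comm]; simp only [mul_sum]
    have a4 : ∑ i : Fin m, ∑ j : Fin m, beta S i ^ 2 = m * ∑ i, beta S i ^ 2 := by
      simp [mul_sum]
    have a5 : ∑ i : Fin m, ∑ j : Fin m, beta S j ^ 2 = m * ∑ j, beta S j ^ 2 := by
      simp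
    have a6 : ∑ i, ∑ j, 2 * (beta S i * beta S j) = 2 * (∑ i, beta S i) * (∑ j, beta S j) := by
      rw [mul_assoc, sum_mul_sum, mul_sum]
      exact sum_congr rfl fun i _ => by rw [mul_sum]
    rw [a2, a3, a4, a5, a6]
  unfold hs
  rw [e, h0]
  simp only [h1, h2]
  have e2 : ∑ x, beta S x * (↑m * beta S x) = m * (m * dee S) := by
    rw [← hD, mul_sum]; exact sum_congr rfl fun i _ => by ring
  have e3 : ∑ x, beta S x * -(↑m * beta S x) = - (m * (m * dee S)) := by
    rw [← hD, mul_sum, ← sum_neg_distrib]; exact sum_congr rfl fun i _ => by ring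
  rw [e2, e3, hD]
  field_simp
  ring

theorem hs_le (S : Fin m → Fin m → ℝ) (hb : ∀ i j, |S i j| ≤ 1) (hm : 0 < m) : hs S ≤ 1 := by
  have hm' : (0 : ℝ) < m := by exact_mod_cast hm
  unfold hs
  rw [div_le_one (by positivity)]
  calc ∑ i, ∑ j, S i j ^ 2 ≤ ∑ i : Fin m, ∑ j : Fin m, (1 : ℝ) := by
        refine sum_le_sum fun i _ => sum_le_sum fun j _ => ?_
        have := abs_le.mp (hb i j)
        nlinarith
    _ = (m : ℝ) ^ 2 := by simp; ring

/-! ### the measure -/

/-- everything about the eigenbasis in one place -/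
structure Eig (A : Fin m → Fin m → ℝ) where
  v : Fin m → Fin m → ℝ
  lam : Fin m → ℝ
  orth : ∀ j k, ∑ i, v j i * v k i = if j = k then 1 else 0
  compl : ∀ i k, ∑ j, v j i * v j k = if i = k then 1 else 0
  eig : ∀ j, nmat A *ᵥ v j = lam j • v j

theorem eig_nonempty (A : Fin m → Fin m → ℝ) (hA : ∀ i j, A j i = - A i j) :
    Nonempty (Eig A) := by
  obtain ⟨v, lam, h1, h2, h3⟩ := exists_eig A hA
  exact ⟨⟨v, lam, h1, h2, h3⟩⟩

/-- the coefficients of `f` -/
def Eig.co {A : Fin m → Fin m → ℝ} (E : Eig A) (f : Fin m → ℝ) (j : Fin m) : ℝ :=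
  ∑ i, E.v j i * f i

theorem Eig.expand {A : Fin m → Fin m → ℝ} (E : Eig A) (f : Fin m → ℝ) :
    f = ∑ j, E.co f j • E.v j := by
  funext k
  simp only [Finset.sum_apply, Pi.smul_apply, smul_eq_mul, Eig.co]
  have : ∑ j, (∑ i, E.v j i * f i) * E.v j k = ∑ i, f i * ∑ j, E.v j i * E.v j k := by
    simp only [sum_mul, mul_sum]
    rw [sum_comm]
    exact sum_congr rfl fun i _ => sum_congr rfl fun j _ => by ring
  rw [this]
  simp only [E.compl]
  simp

theorem Eig.ip_v {A : Fin m → Fin m → ℝ} (E : Eig A) (j k : Fin m) :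
    ip (E.v j) (E.v k) = (if j = k then 1 else 0) / m := by
  unfold ip; rw [E.orth]

theorem Eig.ip_left {A : Fin m → Fin m → ℝ} (E : Eig A) (f : Fin m → ℝ) (j : Fin m) :
    ip f (E.v j) = E.co f j / m := by
  unfold ip Eig.co; congr 1; exact sum_congr rfl fun i _ => mul_comm _ _

theorem Eig.pol_expand {A : Fin m → Fin m → ℝ} (E : Eig A) (f : Fin m → ℝ) (p : ℝ[X]) :
    pol A p f = ∑ j, (E.co f j * p.eval (E.lam j)) • E.v j := by
  conv_lhs => rw [E.expand f]
  rw [pol_sum]
  refine sum_congr rfl fun j _ => ?_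
  rw [pol_smul, pol_eig A _ _ (E.eig j), smul_smul]

/-- the weights -/
noncomputable def Eig.w {A : Fin m → Fin m → ℝ} (E : Eig A) (f : Fin m → ℝ) (j : Fin m) : ℝ :=
  E.co f j ^ 2 / m

theorem Eig.w_nonneg {A : Fin m → Fin m → ℝ} (E : Eig A) (f : Fin m → ℝ) (j : Fin m) :
    0 ≤ E.w f j := div_nonneg (sq_nonneg _) (Nat.cast_nonneg _)

theorem Eig.mom_eq {A : Fin m → Fin m → ℝ} (E : Eig A) (f : Fin m → ℝ) (p : ℝ[X]) :
    mom A f p = ∑ j, E.w f j * p.eval (E.lam j) := by
  unfold mom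
  rw [E.pol_expand, ip_sum_right]
  refine sum_congr rfl fun j _ => ?_
  rw [ip_smul_right, E.ip_left, Eig.w]; ring

theorem Eig.lam_ip {A : Fin m → Fin m → ℝ} (hA : ∀ i j, A j i = - A i j) (E : Eig A)
    (j : Fin m) : E.lam j = m * ip (op A (E.v j)) (op A (E.v j)) := by
  rcases Nat.eq_zero_or_pos m with hm | hm
  · subst hm; exact j.elim0
  have hm' : (m : ℝ) ≠ 0 := by exact_mod_cast hm.ne'
  have h1 : ip (op A (E.v j)) (op A (E.v j)) = ip (E.v j) (pol A X (E.v j)) := by
    rw [pol_X, ip_neg_right, ip_op A hA (E.v j), neg_neg]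
  rw [h1, pol_eig A _ _ (E.eig j), eval_X, ip_smul_right, E.ip_v]
  simp; field_simp

theorem Eig.lam_nonneg {A : Fin m → Fin m → ℝ} (hA : ∀ i j, A j i = - A i j) (E : Eig A)
    (j : Fin m) : 0 ≤ E.lam j := by
  rw [E.lam_ip hA]; exact mul_nonneg (Nat.cast_nonneg _) (ip_self_nonneg _)

theorem Eig.trace {A : Fin m → Fin m → ℝ} (hA : ∀ i j, A j i = - A i j) (E : Eig A) :
    ∑ j, E.lam j = hs A := by
  rcases Nat.eq_zero_or_pos m with hm | hm
  · subst hm; simp [hs]
  have hm' : (m : ℝ) ≠ 0 := by exact_mod_cast hm.ne'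
  have h1 : ∀ j, E.lam j = ∑ i, ∑ k, E.v j i * (nmat A i k * E.v j k) := by
    intro j
    have e1 : ∑ i, E.v j i * (nmat A *ᵥ E.v j) i = E.lam j := by
      rw [E.eig j]
      simp only [Pi.smul_apply, smul_eq_mul]
      have : ∑ i, E.v j i * (E.lam j * E.v j i) = E.lam j * ∑ i, E.v j i * E.v j i := by
        rw [mul_sum]; exact sum_congr rfl fun i _ => by ring
      rw [this, E.orth]; simp
    rw [← e1]
    refine sum_congr rfl fun i _ => ?_
    simp only [Matrix.mulVec, dotProduct, mul_sum]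
  have h2 : ∑ j, E.lam j = ∑ i, ∑ k, nmat A i k * ∑ j, E.v j i * E.v j k := by
    simp only [h1]
    rw [sum_comm]
    refine sum_congr rfl fun i _ => ?_
    rw [sum_comm]
    refine sum_congr rfl fun k _ => ?_
    rw [mul_sum]
    exact sum_congr rfl fun j _ => by ring
  rw [h2]
  simp only [E.compl]
  simp only [mul_ite, mul_one, mul_zero, sum_ite_eq, mem_univ, if_true]
  unfold hs
  rw [sum_div]
  refine sum_congr rfl fun i _ => ?_
  simp only [nmat, Matrix.neg_apply, Matrix.mul_apply]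
  rw [← sum_neg_distrib, sum_div]
  refine sum_congr rfl fun k _ => ?_
  have h : ∀ i j, mat A i j = A i j / m := fun i j => by
    simp only [mat, Matrix.smul_apply, Matrix.of_apply, smul_eq_mul]; ring
  rw [h, h, hA i k]
  field_simp

/-- the nonzero eigenvalues have even multiplicity -/
theorem Eig.partner {A : Fin m → Fin m → ℝ} (hA : ∀ i j, A j i = - A i j) (E : Eig A)
    (j : Fin m) (hj : E.lam j ≠ 0) : ∃ k, k ≠ j ∧ E.lam k = E.lam j := by
  by_contra hcon
  push Not at hcon
  have hm : 0 < m := j.pos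
  have hm' : (m : ℝ) ≠ 0 := by exact_mod_cast hm.ne'
  set u := op A (E.v j) with hu
  have h1 : pol A X u = E.lam j • u := by
    rw [hu, ← op_pol, pol_eig A _ _ (E.eig j), eval_X, op_smul]
  have h2 : ∀ k, k ≠ j → E.co u k = 0 := by
    intro k hk
    have e1 : ip (E.v k) (pol A X u) = E.lam k * ip (E.v k) u := by
      rw [ip_pol A hA, pol_eig A _ _ (E.eig k), eval_X, ip_smul_left]
    rw [h1, ip_smul_right] at e1
    have e2 : (E.lam j - E.lam k) * ip (E.v k) u = 0 := by linarith
    have e3 : ip (E.v k) u = 0 := by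
      rcases mul_eq_zero.mp e2 with h | h
      · exact absurd (by linarith) (hcon k hk)
      · exact h
    rw [ip_comm, E.ip_left] at e3
    exact (div_eq_zero_iff.mp e3).resolve_right hm'
  have h3 : E.co u j = 0 := by
    have : ip (E.v j) u = 0 := ip_op_self A hA _
    rw [ip_comm, E.ip_left] at this
    exact (div_eq_zero_iff.mp this).resolve_right hm'
  have h4 : u = 0 := by
    rw [E.expand u]
    apply sum_eq_zero
    intro k _
    by_cases hk : k = j
    · rw [hk, h3, zero_smul]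
    · rw [h2 k hk, zero_smul]
  apply hj
  rw [E.lam_ip hA, ← hu, h4, ip_zero_left, mul_zero]

theorem Eig.lam_le {A : Fin m → Fin m → ℝ} (hA : ∀ i j, A j i = - A i j) (E : Eig A)
    (j : Fin m) : 2 * E.lam j ≤ hs A := by
  rw [← E.trace hA]
  by_cases hj : E.lam j = 0
  · rw [hj, mul_zero]; exact sum_nonneg fun k _ => E.lam_nonneg hA k
  obtain ⟨k, hk, e⟩ := E.partner hA j hj
  have : ∑ i ∈ ({j, k} : Finset (Fin m)), E.lam i ≤ ∑ i, E.lam i :=
    sum_le_sum_of_subset_of_nonneg (subset_univ _) fun i _ _ => E.lam_nonneg hA i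
  rw [sum_pair hk.symm, e] at this
  linarith

theorem Eig.lam_pair_le {A : Fin m → Fin m → ℝ} (hA : ∀ i j, A j i = - A i j) (E : Eig A)
    (j k : Fin m) (hjk : E.lam j ≠ E.lam k) : 2 * (E.lam j + E.lam k) ≤ hs A := by
  by_cases hj : E.lam j = 0
  · rw [hj, zero_add]; exact E.lam_le hA k
  by_cases hk : E.lam k = 0
  · rw [hk, add_zero]; exact E.lam_le hA j
  rw [← E.trace hA]
  obtain ⟨j', hj', ej⟩ := E.partner hA j hj
  obtain ⟨k', hk', ek⟩ := E.partner hA k hk
  have n1 : j ≠ k := fun h => hjk (by rw [h])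
  have n2 : j ≠ k' := fun h => hjk (by rw [h, ek])
  have n3 : j' ≠ k := fun h => hjk (by rw [← ej, h])
  have n4 : j' ≠ k' := fun h => hjk (by rw [← ej, h, ek])
  have : ∑ i ∈ ({j, j', k, k'} : Finset (Fin m)), E.lam i ≤ ∑ i, E.lam i :=
    sum_le_sum_of_subset_of_nonneg (subset_univ _) fun i _ _ => E.lam_nonneg hA i
  rw [sum_insert (by simp [hj'.symm, n1, n2]), sum_insert (by simp [n3, n4]),
    sum_pair hk'.symm, ej, ek] at this
  linarith

/-! ### constraints from `|S f| ≤ (2/π) |f|` -/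

/-- helper31's constraint (C1), polynomial form -/
theorem mom_c1 (hm : 0 < m) (S : Fin m → Fin m → ℝ) (hS : ∀ i j, S j i = - S i j)
    (hb : ∀ i j, |S i j| ≤ 1) (g : ℝ[X]) :
    mom (aker S) (beta S) ((1 - X * g) ^ 2) ≤
      4 / Real.pi ^ 2 * (1 + mom (aker S) (beta S) (X * g ^ 2)) := by
  have hA := aker_anti S hS
  set A := aker S with hAd
  set b := beta S with hbd
  have h := op_norm S hS hb (one + op A (pol A g b))
  have hm0 : ip one (op A (pol A g b)) = 0 := ip_one_opA hm S hS _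
  have hbo : ip b (op A (pol A g b)) = 0 := ip_op_pol_self A hA g b
  have e1 : op S (one + op A (pol A g b)) = pol A (1 - X * g) b := by
    rw [op_add, op_S_of_mean hm S _ hm0, ← hbd, ← hAd, hbo, pol_sub_poly, pol_one, pol_X_mul]
    have : op S one = b := rfl
    rw [this]; simp
  have e2 : ip (one + op A (pol A g b)) (one + op A (pol A g b)) =
      1 + mom A b (X * g ^ 2) := by
    rw [ip_add_left, ip_add_right, ip_add_right, ip_one_one hm, hm0, ip_comm _ one, hm0]
    have := ip_state A hA 0 g 0 g b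
    rw [pol_zero_poly, zero_add] at this
    rw [this]
    have e : (0 * 0 + X * (g * g) : ℝ[X]) = X * g ^ 2 := by ring
    rw [e]; ring
  rw [e1, e2] at h
  have e3 : ip (pol A (1 - X * g) b) (pol A (1 - X * g) b) = mom A b ((1 - X * g) ^ 2) := by
    rw [ip_pol_pol A hA]; congr 1; ring
  rw [e3] at h
  exact h

theorem Eig.mean_zero (hm : 0 < m) (S : Fin m → Fin m → ℝ) (hS : ∀ i j, S j i = - S i j)
    (E : Eig (aker S)) (j : Fin m) (hj : E.lam j ≠ 0) : ip one (E.v j) = 0 := by
  have h1 : E.lam j * ip one (E.v j) = 0 := by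
    have : pol (aker S) X (E.v j) = E.lam j • E.v j := by
      rw [pol_eig _ _ _ (E.eig j), eval_X]
    rw [← ip_smul_right, ← this, pol_X, ip_neg_right, ip_one_opA hm S hS, neg_zero]
  exact (mul_eq_zero.mp h1).resolve_left hj

/-- joint bound: mass on `[s, ∞)` plus `s` is at most `4/π²` -/
theorem Eig.joint (hm : 0 < m) (S : Fin m → Fin m → ℝ) (hS : ∀ i j, S j i = - S i j)
    (hb : ∀ i j, |S i j| ≤ 1) (E : Eig (aker S)) (s : ℝ) (hs0 : 0 < s)
    (hpos : 0 < ∑ j with s ≤ E.lam j, E.w (beta S) j) :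
    s + ∑ j with s ≤ E.lam j, E.w (beta S) j ≤ 4 / Real.pi ^ 2 := by
  have hA := aker_anti S hS
  set b := beta S with hbd
  set J := (univ : Finset (Fin m)).filter (fun j => s ≤ E.lam j) with hJ
  set W := ∑ j ∈ J, E.w b j with hW
  have hmR : (m : ℝ) ≠ 0 := by exact_mod_cast hm.ne'
  set f : Fin m → ℝ := ∑ j ∈ J, E.co b j • E.v j with hf
  have hmean : ip one f = 0 := by
    rw [hf, ip_sum_right]
    apply sum_eq_zero
    intro j hj
    have : s ≤ E.lam j := (mem_filter.mp hj).2
    rw [ip_smul_right, E.mean_zero hm S hS j (by linarith), mul_zero]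
  have hbf : ip b f = W := by
    rw [hf, ip_sum_right, hW]
    refine sum_congr rfl fun j _ => ?_
    rw [ip_smul_right, E.ip_left, Eig.w]; ring
  have hff : ip f f = W := by
    rw [hf, ip_sum_right, hW]
    refine sum_congr rfl fun j hj => ?_
    rw [ip_smul_right, ip_sum_left]
    have : ∑ a ∈ J, ip (E.co b a • E.v a) (E.v j) = E.co b j / m := by
      rw [sum_eq_single j]
      · rw [ip_smul_left, E.ip_v]; simp; field_simp
      · intro a _ ha
        rw [ip_smul_left, E.ip_v, if_neg ha]; simp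
      · intro h; exact absurd hj h
    rw [this, Eig.w]; ring
  have hAA : s * W ≤ ip (op (aker S) f) (op (aker S) f) := by
    have e1 : ip (op (aker S) f) (op (aker S) f) = ip f (pol (aker S) X f) := by
      rw [pol_X, ip_neg_right, ip_op (aker S) hA f, neg_neg]
    have e2 : pol (aker S) X f = ∑ j ∈ J, (E.co b j * E.lam j) • E.v j := by
      rw [hf, pol_sum]
      refine sum_congr rfl fun j _ => ?_
      rw [pol_smul, pol_eig (aker S) _ _ (E.eig j), eval_X, smul_smul]
    rw [e1, e2, ip_sum_right, hW, mul_sum]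
    refine sum_le_sum fun j hj => ?_
    have hjs : s ≤ E.lam j := (mem_filter.mp hj).2
    have e3 : ip f (E.v j) = E.co b j / m := by
      rw [hf, ip_sum_left, sum_eq_single j]
      · rw [ip_smul_left, E.ip_v]; simp; field_simp
      · intro a _ ha
        rw [ip_smul_left, E.ip_v, if_neg ha]; simp
      · intro h; exact absurd hj h
    rw [ip_smul_right, e3]
    have e4 : E.co b j * E.lam j * (E.co b j / m) = E.lam j * E.w b j := by
      rw [Eig.w]; ring
    rw [e4]
    exact mul_le_mul_of_nonneg_right hjs (E.w_nonneg b j)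
  have h := op_norm S hS hb f
  rw [op_S_of_mean hm S f hmean, ← hbd, hbf, hff] at h
  have e5 : ip (op (aker S) f - W • one) (op (aker S) f - W • one) = ip (op (aker S) f) (op (aker S) f) + W ^ 2 := by
    rw [ip_sub_left, ip_sub_right, ip_sub_right, ip_smul_right, ip_smul_left, ip_smul_left,
      ip_smul_right, ip_one_one hm, ip_comm (op (aker S) f) one, ip_one_opA hm S hS]
    ring
  rw [e5] at h
  have h6 : (s + W) * W ≤ 4 / Real.pi ^ 2 * W := by nlinarith
  exact le_of_mul_le_mul_right h6 hpos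

theorem Eig.lam_le_q (hm : 0 < m) (S : Fin m → Fin m → ℝ) (hS : ∀ i j, S j i = - S i j)
    (hb : ∀ i j, |S i j| ≤ 1) (E : Eig (aker S)) (j : Fin m) :
    E.lam j ≤ 4 / Real.pi ^ 2 := by
  by_cases hj : E.lam j = 0
  · rw [hj]; positivity
  have hA := aker_anti S hS
  have hmR : (0 : ℝ) < m := by exact_mod_cast hm
  have hmean := E.mean_zero hm S hS j hj
  have h := op_norm S hS hb (E.v j)
  rw [op_S_of_mean hm S _ hmean, E.ip_v] at h
  have e5 : ip (op (aker S) (E.v j) - ip (beta S) (E.v j) • one)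
      (op (aker S) (E.v j) - ip (beta S) (E.v j) • one) =
      ip (op (aker S) (E.v j)) (op (aker S) (E.v j)) + ip (beta S) (E.v j) ^ 2 := by
    rw [ip_sub_left, ip_sub_right, ip_sub_right, ip_smul_right, ip_smul_left, ip_smul_left,
      ip_smul_right, ip_one_one hm, ip_comm (op (aker S) (E.v j)) one, ip_one_opA hm S hS]
    ring
  rw [e5] at h
  have h2 : ip (op (aker S) (E.v j)) (op (aker S) (E.v j)) ≤
      4 / Real.pi ^ 2 * ((if j = j then 1 else 0) / m) := by
    nlinarith [sq_nonneg (ip (beta S) (E.v j))]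
  rw [E.lam_ip hA]
  simp only [if_true] at h2
  calc (m : ℝ) * ip (op (aker S) (E.v j)) (op (aker S) (E.v j))
      ≤ m * (4 / Real.pi ^ 2 * (1 / m)) := mul_le_mul_of_nonneg_left h2 hmR.le
    _ = 4 / Real.pi ^ 2 := by field_simp

end Pool.Agent.TSP
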