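import Pool.Agent.TSP.Basic

/-!
# Diagonalisation of `-A^2` and the spectral measure
-/

namespace Pool.Agent.TSP

open Finset Matrix Polynomial

variable {m : ℕ}

/-- an orthonormal eigenbasis (for the unnormalised inner product) of `-A^2` -/
theorem exists_eig (A : Fin m → Fin m → ℝ) (hA : ∀ i j, A j i = - A i j) :
    ∃ (v : Fin m → Fin m → ℝ) (lam : Fin m → ℝ),
      (∀ j k, ∑ i, v j i * v k i = if j = k then 1 else 0) ∧
      (∀ i k, ∑ j, v j i * v j k = if i = k then 1 else 0) ∧
      (∀ j, nmat A *ᵥ v j = lam j • v j) := by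
  have hN : (nmat A).IsHermitian := by
    unfold Matrix.IsHermitian
    rw [Matrix.conjTranspose_eq_transpose_of_trivial, nmat_transpose A hA]
  refine ⟨fun j => ⇑(hN.eigenvectorBasis j), hN.eigenvalues, ?_, ?_, ?_⟩
  · intro j k
    have h := hN.eigenvectorBasis.orthonormal
    rw [orthonormal_iff_ite] at h
    have := h k j
    rw [PiLp.inner_apply] at this
    simp only [RCLike.inner_apply, conj_trivial] at this
    rw [this]
    by_cases hjk : j = k
    · simp [hjk]
    · simp [hjk, Ne.symm hjk, show ¬ k = j from fun h => hjk h.symm]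
  · intro i k
    have h : (hN.eigenvectorUnitary : Matrix (Fin m) (Fin m) ℝ) *
        star (hN.eigenvectorUnitary : Matrix (Fin m) (Fin m) ℝ) = 1 :=
      Unitary.coe_mul_star_self _
    have h2 := congrFun (congrFun h i) k
    rw [Matrix.mul_apply] at h2
    simp only [Matrix.star_apply, star_trivial, Matrix.IsHermitian.eigenvectorUnitary_apply,
      Matrix.one_apply] at h2
    exact h2
  · intro j
    exact hN.mulVec_eigenvectorBasis j

theorem aeval_mulVec_eig (N : Matrix (Fin m) (Fin m) ℝ) (v : Fin m → ℝ) (l : ℝ)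
    (h : N *ᵥ v = l • v) (p : ℝ[X]) : (aeval N p) *ᵥ v = (p.eval l) • v := by
  induction p using Polynomial.induction_on' with
  | add p q hp hq => rw [map_add, Matrix.add_mulVec, hp, hq, eval_add, add_smul]
  | monomial n a =>
    rw [Polynomial.aeval_monomial, eval_monomial, Algebra.algebraMap_eq_smul_one,
      Matrix.smul_mul, Matrix.one_mul, Matrix.smul_mulVec]
    have hp : ∀ n : ℕ, (N ^ n) *ᵥ v = l ^ n • v := by
      intro n
      induction n with
      | zero => simp
      | succ n ih =>
        rw [pow_succ, ← Matrix.mulVec_mulVec, h, Matrix.mulVec_smul, ih, smul_smul, pow_succ,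
          mul_comm]
    rw [hp, smul_smul]

theorem pol_eig (A : Fin m → Fin m → ℝ) (v : Fin m → ℝ) (l : ℝ)
    (h : nmat A *ᵥ v = l • v) (p : ℝ[X]) : pol A p v = (p.eval l) • v :=
  aeval_mulVec_eig _ v l h p

end Pool.Agent.TSP
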